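import Pool.Agent.Helper30.AV.SpreadCore
import Pool.Agent.TP.Step

/-!
# AV-Spread: from one prime without points in the fibres to infinitely many
-/

set_option autoImplicit false

namespace Pool.Agent.Helper30.AV

open MvPolynomial NumberField
open scoped Pointwise

/-- A finite set of algebraic numbers lies in a Galois number field. -/
theorem exists_galois (S : Finset (AlgebraicClosure ℚ)) :
    ∃ (K : IntermediateField ℚ (AlgebraicClosure ℚ)) (_ : NumberField K) (_ : IsGalois ℚ K),
      ∀ x ∈ S, x ∈ K := by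
  classical
  let K₀ : IntermediateField ℚ (AlgebraicClosure ℚ) :=
    IntermediateField.adjoin ℚ (S : Set (AlgebraicClosure ℚ))
  have hf2 : FiniteDimensional ℚ K₀ := by
    have hfin : Finite (S : Set (AlgebraicClosure ℚ)) := S.finite_toSet.to_subtype
    apply IntermediateField.finiteDimensional_adjoin
    intro x _
    exact Algebra.IsIntegral.isIntegral x
  let K : IntermediateField ℚ (AlgebraicClosure ℚ) :=
    IntermediateField.normalClosure ℚ K₀ (AlgebraicClosure ℚ)
  have hK₀ : K₀ ≤ K := IntermediateField.le_normalClosure K₀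
  have hnorm : Normal ℚ K := normalClosure.normal ℚ K₀ (AlgebraicClosure ℚ)
  have hfd : FiniteDimensional ℚ K := normalClosure.is_finiteDimensional ℚ K₀ (AlgebraicClosure ℚ)
  have hnf : NumberField K := ⟨⟩
  have hgal : IsGalois ℚ K := ⟨⟩
  exact ⟨K, hnf, hgal, fun x hx => hK₀ (IntermediateField.subset_adjoin _ _ hx)⟩

/-- The inclusion of the ring of integers of a number field in the ring of all algebraic integers. -/
noncomputable def toBig (K : IntermediateField ℚ (AlgebraicClosure ℚ)) :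
    𝓞 K →+* integralClosure ℤ (AlgebraicClosure ℚ) :=
  ((algebraMap K (AlgebraicClosure ℚ)).comp (algebraMap (𝓞 K) K)).codRestrict
    (integralClosure ℤ (AlgebraicClosure ℚ)).toSubring (fun x => by
      have h6 : IsIntegral ℤ (x : K) := RingOfIntegers.isIntegral_coe x
      exact h6.map ((algebraMap K (AlgebraicClosure ℚ)).toIntAlgHom))

theorem toBig_coe (K : IntermediateField ℚ (AlgebraicClosure ℚ)) (x : 𝓞 K) :
    ((toBig K x : integralClosure ℤ (AlgebraicClosure ℚ)) : AlgebraicClosure ℚ) = ((x : K) : AlgebraicClosure ℚ) := rfl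

theorem exists_big (p : ℕ) [Fact p.Prime] : ∃ 𝔓 : Ideal (integralClosure ℤ (AlgebraicClosure ℚ)),
    𝔓.IsPrime ∧ (p : integralClosure ℤ (AlgebraicClosure ℚ)) ∈ 𝔓 := by
  have hmax : (Ideal.span {(p : ℤ)}).IsMaximal := by
    apply PrincipalIdealRing.isMaximal_of_irreducible
    exact (Nat.prime_iff_prime_int.1 (Fact.out : p.Prime)).irreducible
  have hint : Algebra.IsIntegral ℤ (integralClosure ℤ (AlgebraicClosure ℚ)) := inferInstance
  obtain ⟨Q, hQ, hQ2⟩ := Ideal.exists_ideal_over_maximal_of_isIntegral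
    (S := integralClosure ℤ (AlgebraicClosure ℚ)) (Ideal.span {(p : ℤ)}) (by
      intro z hz
      rw [RingHom.mem_ker] at hz
      have h1 : ((z : ℤ) : AlgebraicClosure ℚ) = 0 := by
        have := congrArg (fun y : integralClosure ℤ (AlgebraicClosure ℚ) => (y : AlgebraicClosure ℚ)) hz
        simpa using this
      have h2 : z = 0 := by exact_mod_cast h1
      rw [h2]
      exact Ideal.zero_mem _)
  refine ⟨Q, hQ.isPrime, ?_⟩
  have h1 : (p : ℤ) ∈ Q.comap (algebraMap ℤ (integralClosure ℤ (AlgebraicClosure ℚ))) := by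
    rw [hQ2]
    exact Ideal.mem_span_singleton_self _
  rw [Ideal.mem_comap] at h1
  simpa using h1

theorem exists_root_big (h : Polynomial ℤ) (hm : h.Monic)
    (𝔓 : Ideal (integralClosure ℤ (AlgebraicClosure ℚ))) (h𝔓 : 𝔓.IsPrime) (n : ℤ)
    (hn : ((h.eval n : ℤ) : integralClosure ℤ (AlgebraicClosure ℚ)) ∈ 𝔓) :
    ∃ α : integralClosure ℤ (AlgebraicClosure ℚ),
      Polynomial.aeval (α : AlgebraicClosure ℚ) h = 0 ∧
      (n : integralClosure ℤ (AlgebraicClosure ℚ)) - α ∈ 𝔓 := by
  have hm' : (h.map (algebraMap ℤ (AlgebraicClosure ℚ))).Monic := hm.map _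
  have hsplit : (h.map (algebraMap ℤ (AlgebraicClosure ℚ))).Splits := IsAlgClosed.splits _
  have h1 : ∀ a ∈ (h.map (algebraMap ℤ (AlgebraicClosure ℚ))).roots,
      Polynomial.aeval a h = 0 := by
    intro a ha
    have := (Polynomial.mem_roots'.1 ha).2
    rwa [Polynomial.IsRoot.def, Polynomial.eval_map, ← Polynomial.aeval_def] at this
  have h2 : ∀ a ∈ (h.map (algebraMap ℤ (AlgebraicClosure ℚ))).roots, IsIntegral ℤ a :=
    fun a ha => ⟨h, hm, h1 a ha⟩
  have h3 : ((h.eval n : ℤ) : AlgebraicClosure ℚ) =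
      ((h.map (algebraMap ℤ (AlgebraicClosure ℚ))).roots.map
        fun a => (n : AlgebraicClosure ℚ) - a).prod := by
    have h4 := hsplit.eval_eq_prod_roots_of_monic hm' (n : AlgebraicClosure ℚ)
    rw [← h4, Polynomial.eval_map, ← Polynomial.aeval_def,
      ← eq_intCast (algebraMap ℤ (AlgebraicClosure ℚ)) n, Polynomial.aeval_algebraMap_apply,
      Polynomial.coe_aeval_eq_eval]
    simp
  have hg : ∀ a : AlgebraicClosure ℚ, ∃ b : integralClosure ℤ (AlgebraicClosure ℚ),
      IsIntegral ℤ a → (b : AlgebraicClosure ℚ) = a := by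
    intro a
    by_cases ha : IsIntegral ℤ a
    · exact ⟨⟨a, ha⟩, fun _ => rfl⟩
    · exact ⟨0, fun h => absurd h ha⟩
  choose g hg using hg
  let R : Multiset (integralClosure ℤ (AlgebraicClosure ℚ)) :=
    (h.map (algebraMap ℤ (AlgebraicClosure ℚ))).roots.map g
  have hR : R.map (fun x : integralClosure ℤ (AlgebraicClosure ℚ) => x.1) =
      (h.map (algebraMap ℤ (AlgebraicClosure ℚ))).roots := by
    rw [Multiset.map_map]
    conv_rhs => rw [← Multiset.map_id (h.map (algebraMap ℤ (AlgebraicClosure ℚ))).roots]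
    exact Multiset.map_congr rfl fun a ha => hg a (h2 a ha)
  have h5 : ((h.eval n : ℤ) : integralClosure ℤ (AlgebraicClosure ℚ)) =
      (R.map fun α => (n : integralClosure ℤ (AlgebraicClosure ℚ)) - α).prod := by
    apply Subtype.ext
    have h6 : ((R.map fun α => (n : integralClosure ℤ (AlgebraicClosure ℚ)) - α).prod :
        integralClosure ℤ (AlgebraicClosure ℚ)).1 =
        (R.map fun α : integralClosure ℤ (AlgebraicClosure ℚ) =>
          (n : AlgebraicClosure ℚ) - α.1).prod := by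
      have h7 := map_multiset_prod (integralClosure ℤ (AlgebraicClosure ℚ)).val
        (R.map fun α => (n : integralClosure ℤ (AlgebraicClosure ℚ)) - α)
      refine h7.trans ?_
      rw [Multiset.map_map]
      congr 1
    rw [h6]
    have h8 : (((h.eval n : ℤ) : integralClosure ℤ (AlgebraicClosure ℚ)) : AlgebraicClosure ℚ)
        = ((h.eval n : ℤ) : AlgebraicClosure ℚ) := by simp
    rw [h8, h3, ← hR, Multiset.map_map]
    congr 1
  rw [h5, h𝔓.multiset_prod_mem_iff_exists_mem] at hn
  obtain ⟨x, hx, hxP⟩ := hn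
  obtain ⟨α, hα, rfl⟩ := Multiset.mem_map.1 hx
  refine ⟨α, ?_, hxP⟩
  apply h1
  rw [← hR]
  exact Multiset.mem_map_of_mem _ hα

/-- Certificates with coefficients in a subfield. -/
theorem lift_poly {K : IntermediateField ℚ (AlgebraicClosure ℚ)} {n : Type}
    (q : MvPolynomial n (AlgebraicClosure ℚ)) (h : ∀ c ∈ q.coeffs, c ∈ K) :
    ∃ q' : MvPolynomial n K, MvPolynomial.map (algebraMap K (AlgebraicClosure ℚ)) q' = q := by
  have h1 : q ∈ Set.range (MvPolynomial.map (algebraMap K (AlgebraicClosure ℚ))) := by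
    rw [MvPolynomial.mem_range_map_iff_coeffs_subset]
    intro c hc
    exact ⟨⟨c, h c hc⟩, rfl⟩
  exact h1

/-- If the fibres of the morphism `G` over the points `u a` have no points over `ZMod p₀` for one
homomorphism `ψ₀ : A → ZMod p₀`, then the same holds for homomorphisms `ψ : A → ZMod p` for
arbitrarily large `p` not killing a given `h ≠ 0`. -/
theorem spread {r : ℕ} {Δ : MvPolynomial (Fin r) ℤ}
    {g : Polynomial (MvPolynomial (Fin r) ℤ)} {A : Type} [CommRing A] {t : Fin r → A} {θ : A}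
    (hA : IsModel Δ g t θ) {n : Type} [Fintype n] (G : n → MvPolynomial n A) (D : ℕ) (hD : 0 < D)
    (hG : ∀ i, (G i).IsHomogeneous D)
    (hres : ∀ (k : Type) [Field k] (φ : A →+* k) (x : n → k),
      (∀ i, eval x (MvPolynomial.map φ (G i)) = 0) → x = 0)
    (l : ℕ) (u : Fin l → n → A) (hu : ∀ a, ∃ i, u a i = 1)
    (p₀ : ℕ) [Fact p₀.Prime] (ψ₀ : A →+* ZMod p₀)
    (hno : ∀ (a : Fin l) (v : n → ZMod p₀), v ≠ 0 →
      ¬ Par (fun i => eval v (MvPolynomial.map ψ₀ (G i))) (fun i => ψ₀ (u a i)))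
    (h : A) (hh : h ≠ 0) (N : ℕ) :
    ∃ (p : ℕ) (_ : Fact p.Prime) (ψ : A →+* ZMod p), N < p ∧ ψ h ≠ 0 ∧
      ∀ (a : Fin l) (v : n → ZMod p), v ≠ 0 →
        ¬ Par (fun i => eval v (MvPolynomial.map ψ (G i))) (fun i => ψ (u a i)) := by
  classical
  obtain ⟨τ, hτ, hsh, hpΔ⟩ := exists_spec hA p₀ ψ₀ h hh
  have hΔ0 : ez τ Δ ≠ 0 := fun h0 => hpΔ (by rw [h0]; exact dvd_zero _)
  obtain ⟨n₀, hn₀⟩ := ZMod.intCast_surjective (ψ₀ θ)
  obtain ⟨𝔓, h𝔓, hp𝔓⟩ := exists_big p₀
  set f : Polynomial ℤ := g.map (ez τ) with hf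
  have hfm : f.Monic := hA.monic.map _
  -- `n₀` is a zero of `f` modulo `p₀`
  have hfn : (p₀ : ℤ) ∣ f.eval n₀ := by
    rw [← ZMod.intCast_zmod_eq_zero_iff_dvd]
    have h1 := congrArg ψ₀ hA.root
    rw [Polynomial.hom_eval₂, map_zero] at h1
    have h2 : ψ₀.comp (ez t) = (Int.castRingHom (ZMod p₀)).comp (ez τ) := by
      apply RingHom.ext
      intro q
      rw [RingHom.comp_apply, RingHom.comp_apply, ez_hom]
      have h3 : (fun i => ψ₀ (t i)) = fun i => ((τ i : ℤ) : ZMod p₀) := funext fun i => (hτ i).symm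
      rw [h3, ez_int_cast]
      rfl
    rw [h2, ← hn₀] at h1
    rw [← h1, hf, Polynomial.eval_map]
    have h3 := Polynomial.hom_eval₂ g (ez τ) (Int.castRingHom (ZMod p₀)) n₀
    exact h3
  obtain ⟨α, hαf, hα𝔓⟩ := exists_root_big f hfm 𝔓 h𝔓 n₀ (by
    obtain ⟨z, hz⟩ := hfn
    rw [hz, Int.cast_mul, Int.cast_natCast]
    exact 𝔓.mul_mem_right _ hp𝔓)
  have hgα : g.eval₂ (ez fun i => ((τ i : ℤ) : AlgebraicClosure ℚ)) (α : AlgebraicClosure ℚ)
      = 0 := by
    rw [Polynomial.aeval_def, hf, Polynomial.eval₂_map] at hαf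
    have h1 : (algebraMap ℤ (AlgebraicClosure ℚ)).comp (ez τ)
        = ez fun i => ((τ i : ℤ) : AlgebraicClosure ℚ) := by
      apply RingHom.ext
      intro q
      rw [RingHom.comp_apply, ez_int_cast]
      rfl
    rwa [h1] at hαf
  obtain ⟨s', hs't, hs'θ⟩ := hA.lift (AlgebraicClosure ℚ) (fun i => ((τ i : ℤ) : AlgebraicClosure ℚ))
    (α : AlgebraicClosure ℚ) (by
      rw [ez_int_cast]
      exact isUnit_iff_ne_zero.2 (by exact_mod_cast hΔ0)) hgα
  -- certificates over the algebraic numbers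
  have hnull : ∀ a : Fin l, ∃ (m : ℕ) (w : Fin m → n → AlgebraicClosure ℚ),
      (∀ r, w r ≠ 0 ∧ (fun i => eval (w r) (MvPolynomial.map s' (G i))) = fun i => s' (u a i)) ∧
      ∀ (i : n) (κ : Fin m → n × n), ∃ (e : ℕ) (q : n × n → MvPolynomial n (AlgebraicClosure ℚ)),
        (X i * ∏ r, (X (κ r).1 * C (w r (κ r).2) - X (κ r).2 * C (w r (κ r).1))) ^ e
          = ∑ t, q t * (MvPolynomial.map s' (G t.1) * C (s' (u a t.2))
            - MvPolynomial.map s' (G t.2) * C (s' (u a t.1))) := by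
    intro a
    refine null_cert (fun i => MvPolynomial.map s' (G i)) D hD (fun i => (hG i).map _)
      (fun x hx => hres _ s' x hx) (fun i => s' (u a i)) ?_
    intro h0
    obtain ⟨i, hi⟩ := hu a
    have := congrFun h0 i
    simp only [hi, map_one, Pi.zero_apply] at this
    exact one_ne_zero this
  choose m w hw hcert using hnull
  choose e q hq using hcert
  -- the number field
  let S : Finset (AlgebraicClosure ℚ) := {(α : AlgebraicClosure ℚ)} ∪
    (Finset.univ.biUnion fun a : Fin l => Finset.univ.biUnion fun b : Fin (m a) =>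
      Finset.univ.image (w a b)) ∪
    (Finset.univ.biUnion fun a : Fin l => Finset.univ.biUnion fun i : n =>
      Finset.univ.biUnion fun κ : Fin (m a) → n × n => Finset.univ.biUnion fun t : n × n =>
        (q a i κ t).coeffs)
  obtain ⟨K, _, _, hK⟩ := exists_galois S
  have hαK : (α : AlgebraicClosure ℚ) ∈ K := hK _ (by
    simp only [S, Finset.mem_union, Finset.mem_singleton, true_or])
  have hwK : ∀ a b i, w a b i ∈ K := fun a b i => hK _ (by
    simp only [S, Finset.mem_union]
    exact Or.inl (Or.inr (Finset.mem_biUnion.2 ⟨a, Finset.mem_univ _, Finset.mem_biUnion.2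
      ⟨b, Finset.mem_univ _, Finset.mem_image_of_mem _ (Finset.mem_univ i)⟩⟩)))
  have hqK : ∀ a i κ t, ∀ c ∈ (q a i κ t).coeffs, c ∈ K := fun a i κ t c hc => hK _ (by
    simp only [S, Finset.mem_union]
    exact Or.inr (Finset.mem_biUnion.2 ⟨a, Finset.mem_univ _, Finset.mem_biUnion.2
      ⟨i, Finset.mem_univ _, Finset.mem_biUnion.2 ⟨κ, Finset.mem_univ _, Finset.mem_biUnion.2
        ⟨t, Finset.mem_univ _, hc⟩⟩⟩⟩))
  have hinj : Function.Injective (algebraMap K (AlgebraicClosure ℚ)) :=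
    (algebraMap K (AlgebraicClosure ℚ)).injective
  let x : 𝓞 K := ⟨⟨(α : AlgebraicClosure ℚ), hαK⟩, by
    have h1 : IsIntegral ℤ (α : AlgebraicClosure ℚ) := α.2
    exact (isIntegral_algHom_iff ((algebraMap K (AlgebraicClosure ℚ)).toIntAlgHom) hinj).1 h1⟩
  have hxα : algebraMap K (AlgebraicClosure ℚ) (x : K) = (α : AlgebraicClosure ℚ) := rfl
  have hx : g.eval₂ (ez fun i => (τ i : 𝓞 K)) x = 0 := by
    have hinj2 : Function.Injective
        ((algebraMap K (AlgebraicClosure ℚ)).comp (algebraMap (𝓞 K) K)) :=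
      hinj.comp RingOfIntegers.coe_injective
    apply hinj2
    rw [Polynomial.hom_eval₂, map_zero]
    have h1 : ((algebraMap K (AlgebraicClosure ℚ)).comp (algebraMap (𝓞 K) K)).comp
        (ez fun i => (τ i : 𝓞 K)) = ez fun i => ((τ i : ℤ) : AlgebraicClosure ℚ) := by
      apply RingHom.ext
      intro q
      rw [RingHom.comp_apply, ez_int_cast, ez_int_cast, map_intCast]
    rw [h1]
    exact hgα
  obtain ⟨s, hst, hsθ⟩ := hA.lift K (fun i => ((τ i : ℤ) : K)) (x : K) (by
      rw [ez_int_cast]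
      exact isUnit_iff_ne_zero.2 (by exact_mod_cast hΔ0)) (by
      have h1 := congrArg (algebraMap (𝓞 K) K) hx
      rw [Polynomial.hom_eval₂, map_zero] at h1
      have h2 : (algebraMap (𝓞 K) K).comp (ez fun i => (τ i : 𝓞 K))
          = ez fun i => ((τ i : ℤ) : K) := by
        apply RingHom.ext
        intro q
        rw [RingHom.comp_apply, ez_int_cast, ez_int_cast, map_intCast]
      rw [h2] at h1
      exact h1)
  have hss' : (algebraMap K (AlgebraicClosure ℚ)).comp s = s' := by
    apply hA.ext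
    · intro i
      rw [RingHom.comp_apply, hst, hs't, map_intCast]
    · rw [RingHom.comp_apply, hsθ, hs'θ]
      exact hxα
  have hmapmap : ∀ P : MvPolynomial n A, MvPolynomial.map (algebraMap K (AlgebraicClosure ℚ))
      (MvPolynomial.map s P) = MvPolynomial.map s' P := by
    intro P
    rw [MvPolynomial.map_map, hss']
  have hss'a : ∀ a : A, algebraMap K (AlgebraicClosure ℚ) (s a) = s' a := by
    intro a
    rw [← hss']
    rfl
  have hP₀ : (𝔓.comap (toBig K)).IsPrime := Ideal.comap_isPrime _ _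
  refine spread_core hA τ x hx p₀ (𝔓.comap (toBig K)) (by
      rw [Ideal.mem_comap, map_natCast]
      exact hp𝔓) n₀ (by
      rw [Ideal.mem_comap, map_sub, map_intCast]
      exact hα𝔓) hpΔ ψ₀ (fun i => (hτ i).symm) hn₀.symm s hst hsθ G D hG l u hno h (hsh K s hst) N m
      (fun a b i => ⟨w a b i, hwK a b i⟩) ?_ ?_ ?_
  · intro a b h0
    apply (hw a b).1
    funext i
    have := congrArg (algebraMap K (AlgebraicClosure ℚ)) (congrFun h0 i)
    exact this
  · intro a b i j
    apply hinj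
    have h1 : ∀ i, algebraMap K (AlgebraicClosure ℚ)
        (eval (fun i => (⟨w a b i, hwK a b i⟩ : K)) (MvPolynomial.map s (G i)))
        = s' (u a i) := by
      intro i
      rw [← congrFun (hw a b).2 i, ← hmapmap, eval_map (algebraMap K (AlgebraicClosure ℚ)),
        ← MvPolynomial.eval₂_id (MvPolynomial.map s (G i)), MvPolynomial.hom_eval₂,
        RingHom.comp_id]
      rfl
    rw [map_mul, map_mul, h1, h1, hss'a, hss'a, mul_comm]
  · intro a i κ
    choose q' hq' using fun t => lift_poly (q a i κ t) (hqK a i κ t)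
    refine ⟨e a i κ, q', ?_⟩
    apply MvPolynomial.map_injective _ hinj
    have h1 := hq a i κ
    simp only [map_pow, map_mul, map_prod, map_sub, MvPolynomial.map_X, MvPolynomial.map_C,
      map_sum, hq', hmapmap, hss'a]
    exact h1

end Pool.Agent.Helper30.AV
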