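import Pool.Agent.Helper30.AV.Good
import Pool.Agent.Helper30.AV.Spread
import Pool.Agent.Helper33.SS.Defs
import Pool.Agent.Helper33.SS.Itp
import Pool.Agent.Helper38.Dml.Embed

/-!
# AV-Avoid: orbits avoid a finite invariant set modulo a suitable prime

Proof of `avoid`.

1. `good_model` (`a := a`, `S := S`) gives `A`, `ι`, `FA`, `aA`, `bA`, `uA`. For a homomorphism `φ` to a field
   `f := ev (map φ FA)` has no non-zero zero, so also its iterates.
2. A base point: by `exists_prime_root` (`Helper38/Dml/Embed.lean`) for `g(τ, X) ∈ ℤ[X]`, `τ` integral with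
   `ez τ Δ ≠ 0` (a non-zero polynomial does not vanish on `ℤ ^ r`; cf. `exists_int_point` in `Spec.lean`),
   there is `p₀ > |ez τ Δ|` with a root of `g(τ, X)` modulo `p₀`; `IsModel.lift` with
   `T = ZMod p₀` gives `ψ₀ : A → ZMod p₀`.
3. `m := Nat.card (σ → ZMod p₀)`, `G := itp FA m` (`Helper33.SS.itp`, `ev_itp`, `map_itp`,
   `itp_homogeneous`). The hypothesis `hno` of `spread` is `no_long_backward` (file `Fiber.lean`) for
   `f = ev (map ψ₀ FA)`, `n = m`. `h :=` a non-zero coordinate of `aA` times, for all `n ≤ m`, `b ∈ B`,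
   a non-zero minor of `(ev FA)^[n] aA` and `bA` (by `hna` and injectivity of `ι`; `A` is a
   domain as a subring of `ℂ`). `spread` with `N = 3` gives `p`, `ψ`.
4. `s` from the last statement of `good_model`. If the conclusion fails for `n, b, y, β, μ` then
   modulo `p` (`PadicInt.toZMod`, `x` goes to zero iff `‖x‖ < 1`) `f^[n] (ψ aA) = μ • ψ bA`. Take the
   least `n` such that `f^[n] (ψ aA)` is parallel to some `ψ bA`, `b ∈ B`. `n > m` by `h`.
   `f^[n-1] (ψ aA)` is parallel to some `ψ b'A` (excluded by minimality) or `ψ uA`; the latter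
   contradicts the conclusion of `spread` for `v = f^[n-1-m] (ψ aA)`.
-/

set_option autoImplicit false

namespace Pool.Agent.Helper30.AV

open MvPolynomial Pool.Agent.Helper33.SS

theorem ev_smul_of_hom {σ T : Type*} [Field T] (F : σ → MvPolynomial σ T) (d : ℕ)
    (hF : ∀ i, (F i).IsHomogeneous d) (c : T) (x : σ → T) : ev F (c • x) = c ^ d • ev F x := by
  funext i
  exact eval_smul_hom (hF i) c x

theorem iterate_ne_zero {σ T : Type*} [Zero T] (f : (σ → T) → (σ → T)) (hf : ∀ x, f x = 0 → x = 0)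
    (n : ℕ) (x : σ → T) (hx : x ≠ 0) : f^[n] x ≠ 0 := by
  induction n with
  | zero => exact hx
  | succ n ih =>
    rw [Function.iterate_succ_apply']
    exact fun h => ih (hf _ h)

/-- A base point: a homomorphism of the model to a prime field. -/
theorem exists_base {r : ℕ} {Δ : MvPolynomial (Fin r) ℤ}
    {g : Polynomial (MvPolynomial (Fin r) ℤ)} {A : Type} [CommRing A] {t : Fin r → A} {θ : A}
    (hA : IsModel Δ g t θ) (hΔ : Δ ≠ 0) (hg : 0 < g.natDegree) :
    ∃ (p : ℕ) (_ : Fact p.Prime), Nonempty (A →+* ZMod p) := by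
  have h2 : Fact (Nat.Prime 2) := ⟨Nat.prime_two⟩
  obtain ⟨τ, -, hτ⟩ := exists_int_point Δ hΔ 2 (fun _ => 0)
  have hdeg : 0 < (g.map (ez τ)).natDegree := by
    rw [hA.monic.natDegree_map]
    exact hg
  obtain ⟨p, hpN, hp, n, hn⟩ :=
    Pool.Agent.Helper38.Dml.exists_prime_root (g.map (ez τ)) hdeg (ez τ Δ).natAbs
  have hpf : Fact p.Prime := ⟨hp⟩
  refine ⟨p, hpf, ?_⟩
  have hz : ((ez τ Δ : ℤ) : ZMod p) ≠ 0 := by
    rw [Ne, ZMod.intCast_zmod_eq_zero_iff_dvd]
    intro h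
    have h3 : p ≤ (ez τ Δ).natAbs := by
      apply Nat.le_of_dvd (Int.natAbs_pos.2 hτ)
      exact Int.natCast_dvd.1 h
    omega
  have hunit : IsUnit (ez (fun i => ((τ i : ℤ) : ZMod p)) Δ) := by
    rw [ez_int_cast]
    exact isUnit_iff_ne_zero.2 hz
  have hroot : g.eval₂ (ez fun i => ((τ i : ℤ) : ZMod p)) (n : ZMod p) = 0 := by
    have h3 : (ez fun i => ((τ i : ℤ) : ZMod p)) = (Int.castRingHom (ZMod p)).comp (ez τ) :=
      RingHom.ext fun q => ez_int_cast τ q
    have h4 : (n : ZMod p) = Int.castRingHom (ZMod p) n := rfl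
    rw [h3, h4, ← Polynomial.hom_eval₂]
    have h5 : g.eval₂ (ez τ) n = (g.map (ez τ)).eval n := by
      rw [Polynomial.eval_map]
    rw [h5]
    exact (ZMod.intCast_zmod_eq_zero_iff_dvd _ _).2 hn
  obtain ⟨ψ, -, -⟩ := hA.lift (ZMod p) (fun i => ((τ i : ℤ) : ZMod p)) (n : ZMod p) hunit hroot
  exact ⟨ψ⟩

theorem toZMod_eq_zero_of_norm_ne {p : ℕ} [Fact p.Prime] (z : ℤ_[p]) (hz : ‖z‖ ≠ 1) :
    PadicInt.toZMod z = 0 := by
  have h1 : z ∈ RingHom.ker (PadicInt.toZMod (p := p)) := by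
    rw [PadicInt.ker_toZMod, IsLocalRing.mem_maximalIdeal, PadicInt.mem_nonunits]
    exact lt_of_le_of_ne (PadicInt.norm_le_one z) hz
  exact h1

/-- Let `Φ` be an endomorphism of projective space, `B` a finite set of points with `Φ(B) ⊆ B` and `a`
a point whose orbit does not meet `B`. Then there are `p ≥ 3` and an isomorphism of `ℂ` with `ℂ_p` under
which given numbers are integral and modulo `p` the orbit of `a` does not meet `B`. -/
theorem avoid {σ : Type} [Fintype σ] [DecidableEq σ] (F : σ → MvPolynomial σ ℂ) (d : ℕ)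
    (hd : 0 < d) (hF : ∀ i, (F i).IsHomogeneous d)
    (hnz : ∀ x : σ → ℂ, (∀ i, eval x (F i) = 0) → x = 0)
    (B : Finset (σ → ℂ)) (hB1 : ∀ b ∈ B, ∃ i, b i = 1)
    (hB : ∀ b ∈ B, ∃ b' ∈ B, ∃ c : ℂ, ev F b = c • b')
    (a : σ → ℂ) (ha : a ≠ 0) (hna : ∀ n, ∀ b ∈ B, ∀ c : ℂ, (ev F)^[n] a ≠ c • b)
    (S : Finset ℂ) :
    ∃ p : ℕ, 3 ≤ p ∧ ∃ _hp : Fact p.Prime, ∃ s : ℂ ≃+* ℂ_[p],
      (∀ c ∈ S, ∃ z : ℤ_[p], s c = io p z) ∧
      ∀ (n : ℕ) (b : σ → ℂ), b ∈ B → ∀ y β : σ → ℤ_[p],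
        (∀ i, io p (y i) = s ((ev F)^[n] a i)) → (∀ i, io p (β i) = s (b i)) →
        ∀ μ : ℤ_[p], ∃ i, ‖y i - μ * β i‖ = 1 := by
  obtain ⟨r, Δ, g, A, instA, t, θ, ι, FA, aA, bA, l, uA, hmodel, hΔ, hgdeg, hι, hS, hFAh, hFA, haA,
    hbA, huA, hk, hspec⟩ := good_model F d hd hF hnz B hB1 hB a S
  obtain ⟨p₀, hp₀, ⟨ψ₀⟩⟩ := exists_base hmodel hΔ hgdeg
  have hf0 : ∀ (k : Type) [Field k] (φ : A →+* k) (x : σ → k),
      ev (fun i => MvPolynomial.map φ (FA i)) x = 0 → x = 0 := by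
    intro k _ φ x hx
    exact (hk k φ).1 x fun i => congrFun hx i
  set m := Nat.card (σ → ZMod p₀) with hm
  have hG : ∀ i, (itp FA m i).IsHomogeneous (d ^ m) := itp_homogeneous hFAh m
  have hGev : ∀ (k : Type) [Field k] (φ : A →+* k) (x : σ → k),
      (fun i => eval x (MvPolynomial.map φ (itp FA m i)))
        = (ev fun i => MvPolynomial.map φ (FA i))^[m] x := by
    intro k _ φ x
    rw [← ev_itp]
    funext i
    rw [map_itp]
    rfl
  have hres : ∀ (k : Type) [Field k] (φ : A →+* k) (x : σ → k),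
      (∀ i, eval x (MvPolynomial.map φ (itp FA m i)) = 0) → x = 0 := by
    intro k _ φ x hx
    by_contra hx0
    refine iterate_ne_zero _ (hf0 k φ) m x hx0 ?_
    rw [← hGev]
    exact funext hx
  have hu0 : ∀ (k : Type) [Field k] (φ : A →+* k) (j : Fin l), (fun i => φ (uA j i)) ≠ 0 := by
    intro k _ φ j h
    obtain ⟨i, hi⟩ := huA j
    have h1 := congrFun h i
    simp only [hi, map_one, Pi.zero_apply] at h1
    exact one_ne_zero h1
  have hno : ∀ (j : Fin l) (v : σ → ZMod p₀), v ≠ 0 →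
      ¬ Par (fun i => eval v (MvPolynomial.map ψ₀ (itp FA m i))) (fun i => ψ₀ (uA j i)) := by
    intro j v hv
    rw [hGev]
    obtain ⟨-, k2, k3, k4, k5, -⟩ := hk (ZMod p₀) ψ₀
    refine no_long_backward (ev fun i => MvPolynomial.map ψ₀ (FA i)) d
      (ev_smul_of_hom _ d fun i => (hFAh i).map ψ₀) (hf0 _ ψ₀)
      (Set.range fun b : B => fun i => ψ₀ (bA b i)) (Set.range fun j => fun i => ψ₀ (uA j i))
      ?_ ?_ ?_ ?_ m le_rfl v hv _ ⟨j, rfl⟩
    · rintro _ ⟨b, rfl⟩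
      exact k2 b
    · rintro _ ⟨b, rfl⟩
      obtain ⟨b', hb'⟩ := k3 b
      exact ⟨_, ⟨b', rfl⟩, hb'⟩
    · rintro _ ⟨j, rfl⟩
      obtain ⟨b, hb⟩ := k5 j
      exact ⟨hu0 _ ψ₀ j, _, ⟨b, rfl⟩, hb⟩
    · rintro _ ⟨j, rfl⟩ _ ⟨b, rfl⟩
      exact k4 j b
  -- the element `h`
  obtain ⟨i₀, hi₀⟩ := Function.ne_iff.1 ha
  rw [Pi.zero_apply] at hi₀
  have hit : ∀ n, (fun i => ι ((ev FA)^[n] aA i)) = (ev F)^[n] a := by
    intro n
    rw [← ev_iterate_map]
    have e1 : (fun j => MvPolynomial.map ι (FA j)) = F := funext hFA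
    have e2 : (fun i => ι (aA i)) = a := funext haA
    rw [e1, e2]
  have hmin : ∀ (n : ℕ) (b : B), ∃ κ : σ × σ, (ev FA)^[n] aA κ.1 * bA b κ.2 -
      (ev FA)^[n] aA κ.2 * bA b κ.1 ≠ 0 := by
    intro n b
    by_contra hcon
    push Not at hcon
    have hpar : Par ((ev F)^[n] a) b.1 := by
      intro i j
      have h1 := congrArg ι (hcon (i, j))
      rw [map_sub, map_mul, map_mul, map_zero, sub_eq_zero, hbA, hbA] at h1
      have h2 : ι ((ev FA)^[n] aA i) = (ev F)^[n] a i := congrFun (hit n) i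
      have h3 : ι ((ev FA)^[n] aA j) = (ev F)^[n] a j := congrFun (hit n) j
      rw [h2, h3] at h1
      exact h1
    have hb0 : b.1 ≠ 0 := by
      intro h
      obtain ⟨i, hi⟩ := hB1 b.1 b.2
      rw [h, Pi.zero_apply] at hi
      exact zero_ne_one hi
    obtain ⟨c, hc⟩ := par_smul hb0 hpar
    exact hna n b.1 b.2 c hc
  choose κ hκ using hmin
  set h : A := aA i₀ * ∏ n ∈ Finset.range (m + 1), ∏ b : B,
    ((ev FA)^[n] aA (κ n b).1 * bA b (κ n b).2 - (ev FA)^[n] aA (κ n b).2 * bA b (κ n b).1) with hh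
  have hh0 : h ≠ 0 := by
    intro h0
    have h1 := congrArg ι h0
    rw [hh, map_mul, map_prod, map_zero, mul_eq_zero] at h1
    rcases h1 with h1 | h1
    · rw [haA] at h1
      exact hi₀ h1
    · rw [Finset.prod_eq_zero_iff] at h1
      obtain ⟨n, -, h1⟩ := h1
      rw [map_prod, Finset.prod_eq_zero_iff] at h1
      obtain ⟨b, -, h1⟩ := h1
      exact hκ n b (hι (by rw [h1, map_zero]))
  obtain ⟨p, hp, ψ, hNp, hψh, hψ⟩ := spread hmodel (itp FA m) (d ^ m) (pow_pos hd m) hG hres l uA huA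
    p₀ ψ₀ hno h hh0 3
  obtain ⟨s, hs⟩ := hspec p ψ
  have hψh1 : ψ (aA i₀) ≠ 0 := by
    intro h1
    apply hψh
    rw [hh, map_mul, h1, zero_mul]
  have hψh2 : ∀ n ∈ Finset.range (m + 1), ∀ b : B,
      ψ ((ev FA)^[n] aA (κ n b).1 * bA b (κ n b).2 -
        (ev FA)^[n] aA (κ n b).2 * bA b (κ n b).1) ≠ 0 := by
    intro n hn b h1
    apply hψh
    rw [hh, map_mul, map_prod]
    refine mul_eq_zero_of_right _ (Finset.prod_eq_zero hn ?_)
    rw [map_prod]
    exact Finset.prod_eq_zero (Finset.mem_univ b) h1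
  have hio : Function.Injective (io p) :=
    (algebraMap ℚ_[p] ℂ_[p]).injective.comp Subtype.coe_injective
  refine ⟨p, hNp.le, hp, s, ?_, ?_⟩
  · intro c hc
    obtain ⟨x, rfl⟩ := hS c hc
    obtain ⟨z, hz, -⟩ := hs x
    exact ⟨z, hz⟩
  · intro n b hb y β hy hβ μ
    by_contra hcon
    push Not at hcon
    have hred : ∀ (x : A) (z : ℤ_[p]), io p z = s (ι x) → PadicInt.toZMod z = ψ x := by
      intro x z hz
      obtain ⟨z', hz', hz''⟩ := hs x
      rw [hio (hz.trans hz'), hz'']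
    set f := ev (fun i => MvPolynomial.map ψ (FA i)) with hf
    set x₀ : σ → ZMod p := fun i => ψ (aA i) with hx₀
    have hfit : ∀ n, f^[n] x₀ = fun i => ψ ((ev FA)^[n] aA i) := by
      intro n
      rw [hf, hx₀, ev_iterate_map]
    have hx₀0 : x₀ ≠ 0 := fun h1 => hψh1 (congrFun h1 i₀)
    have hfne : ∀ n, f^[n] x₀ ≠ 0 := fun n => iterate_ne_zero f (hf0 _ ψ) n x₀ hx₀0
    have hex : ∃ n, ∃ b : B, Par (f^[n] x₀) (fun i => ψ (bA b i)) := by
      refine ⟨n, ⟨b, hb⟩, ?_⟩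
      have e1 : ∀ i, f^[n] x₀ i = PadicInt.toZMod μ * ψ (bA ⟨b, hb⟩ i) := by
        intro i
        have h1 := toZMod_eq_zero_of_norm_ne _ (hcon i)
        rw [map_sub, map_mul, sub_eq_zero] at h1
        have h2 : PadicInt.toZMod (y i) = ψ ((ev FA)^[n] aA i) := by
          apply hred
          rw [hy i]
          congr 1
          exact (congrFun (hit n) i).symm
        have h3 : PadicInt.toZMod (β i) = ψ (bA ⟨b, hb⟩ i) := by
          apply hred
          rw [hβ i, hbA]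
        rw [hfit]
        show ψ ((ev FA)^[n] aA i) = _
        rw [← h2, ← h3, h1]
      intro i j
      rw [e1, e1]
      ring
    classical
    obtain ⟨b₁, hb₁⟩ := Nat.find_spec hex
    set N := Nat.find hex with hN
    have hmN : m < N := by
      by_contra hle
      push Not at hle
      refine hψh2 N (Finset.mem_range.2 (by omega)) b₁ ?_
      rw [map_sub, map_mul, map_mul, sub_eq_zero]
      have h1 := hb₁ (κ N b₁).1 (κ N b₁).2
      rw [hfit] at h1
      exact h1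
    obtain ⟨N', hN'⟩ : ∃ N', N = N' + 1 := ⟨N - 1, by omega⟩
    have hpar : Par (f (f^[N'] x₀)) (fun i => ψ (bA b₁ i)) := by
      have h1 := hb₁
      rw [hN', Function.iterate_succ_apply'] at h1
      exact h1
    obtain ⟨-, -, -, -, -, k6⟩ := hk (ZMod p) ψ
    rcases k6 _ (hfne N') b₁ hpar with ⟨b', hb'⟩ | ⟨j, hj⟩
    · have h1 : N ≤ N' := Nat.find_min' hex ⟨b', hb'⟩
      omega
    · refine hψ j (f^[N' - m] x₀) (hfne _) ?_
      rw [hGev, ← hf, ← Function.iterate_add_apply]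
      have h1 : m + (N' - m) = N' := by omega
      rw [h1]
      exact hj

end Pool.Agent.Helper30.AV
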