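import Pool.Agent.Helper30.AV.Defs

/-!
# Compatible homomorphisms and polynomial relations
-/

set_option autoImplicit false

namespace Pool.Agent.Helper30.AV

open MvPolynomial

section
variable {A O K k : Type} [CommRing A] [CommRing O] [Field K] [Field k] [Algebra O K]
  {π : O →+* k} {s : A →+* K} {ψ : A →+* k}

theorem eval_eq_sum_support {n R : Type} [CommRing R] (H : MvPolynomial n A) (φ : A →+* R)
    (w : n → R) :
    eval w (MvPolynomial.map φ H) = ∑ m : H.support, (m.1.prod fun i e => w i ^ e) *
      φ (coeff m.1 H) := by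
  classical
  rw [eval_map]
  conv_lhs => rw [H.as_sum, eval₂_sum]
  rw [← Finset.sum_coe_sort H.support]
  refine Finset.sum_congr rfl fun m _ => ?_
  rw [eval₂_monomial, mul_comm]

theorem Compat.eval_sum (hc : Compat π s ψ) {n J : Type} [Fintype J] (q : J → O)
    (H : J → MvPolynomial n A) (w : n → O) (y : O)
    (h : algebraMap O K y = ∑ j, algebraMap O K (q j) *
      eval (fun i => algebraMap O K (w i)) (MvPolynomial.map s (H j))) :
    π y = ∑ j, π (q j) * eval (fun i => π (w i)) (MvPolynomial.map ψ (H j)) := by
  classical
  have h1 := hc (Σ j : J, (H j).support) y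
    (fun x => q x.1 * (x.2.1.prod fun i e => w i ^ e)) (fun x => coeff x.2.1 (H x.1)) (by
      rw [h, Fintype.sum_sigma]
      refine Finset.sum_congr rfl fun j _ => ?_
      rw [eval_eq_sum_support, Finset.mul_sum]
      refine Finset.sum_congr rfl fun m _ => ?_
      simp only [map_mul, Finsupp.prod, map_prod, map_pow]
      ring)
  rw [h1, Fintype.sum_sigma]
  refine Finset.sum_congr rfl fun j _ => ?_
  rw [eval_eq_sum_support, Finset.mul_sum]
  refine Finset.sum_congr rfl fun m _ => ?_
  simp only [map_mul, Finsupp.prod, map_prod, map_pow]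
  ring

theorem Compat.eval (hc : Compat π s ψ) {n : Type} (H : MvPolynomial n A) (w : n → O) (y : O)
    (h : algebraMap O K y = eval (fun i => algebraMap O K (w i)) (MvPolynomial.map s H)) :
    π y = eval (fun i => π (w i)) (MvPolynomial.map ψ H) := by
  have h1 := hc.eval_sum (J := Unit) (fun _ => 1) (fun _ => H) w y (by simpa using h)
  simpa using h1

theorem Compat.apply (hc : Compat π s ψ) (a : A) (y : O) (h : algebraMap O K y = s a) :
    π y = ψ a := by
  have h1 := hc Unit y (fun _ => 1) (fun _ => a) (by simpa using h)
  simpa using h1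

end

end Pool.Agent.Helper30.AV
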