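import Pool.Agent.Helper30.AV.CompatEval
import Mathlib

/-!
# A fibre without rational points at a large split prime
-/

set_option autoImplicit false

namespace Pool.Agent.Helper30.AV

open MvPolynomial NumberField
open scoped Pointwise

/-- If the points `w r` of a fibre (certificate over `𝓞 K`) are not parallel modulo `P` to their
conjugates under an element of the decomposition group, then the fibre has no points over `ZMod p`. -/
theorem core {A : Type} [CommRing A] {K : Type} [Field K] [NumberField K]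
    {p : ℕ} [Fact p.Prime] (P : Ideal (𝓞 K)) [hP : P.IsPrime]
    (σ₀ : K ≃ₐ[ℚ] K) (hσP : σ₀ ∈ MulAction.stabilizer (K ≃ₐ[ℚ] K) P)
    (s : A →+* K) (ψ : A →+* ZMod p) (k : Type) [Field k] (π : 𝓞 K →+* k)
    (hπ : ∀ y, π y = 0 ↔ y ∈ P) (ρ : ZMod p →+* k) (hs : Compat π s (ρ.comp ψ))
    {n : Type} [Fintype n] (G : n → MvPolynomial n A) (u : n → A)
    (l : ℕ) (w : Fin l → n → 𝓞 K)
    (hcert : ∀ (i : n) (κ : Fin l → n × n), ∃ (c : 𝓞 K) (e : ℕ)
      (q : n × n → MvPolynomial n (𝓞 K)), c ∉ P ∧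
      C (c : K) * (X i * ∏ r, (X (κ r).1 * C (w r (κ r).2 : K) - X (κ r).2 * C (w r (κ r).1 : K))) ^ e
        = ∑ t, MvPolynomial.map (algebraMap (𝓞 K) K) (q t) *
          MvPolynomial.map s (G t.1 * C (u t.2) - G t.2 * C (u t.1)))
    (hmin : ∀ r, ∃ i j, (σ₀ • w r i) * w r j - (σ₀ • w r j) * w r i ∉ P) (v : n → ZMod p)
    (hv : v ≠ 0) : ¬ Par (fun i => eval v (MvPolynomial.map ψ (G i))) (fun i => ψ (u i)) := by
  classical
  intro hpar
  choose z hz using fun i => ZMod.intCast_surjective (v i)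
  obtain ⟨i₀, hi₀⟩ := Function.ne_iff.1 hv
  rw [Pi.zero_apply] at hi₀
  have hπz : ∀ i, π (z i : 𝓞 K) = ρ (v i) := by
    intro i
    rw [map_intCast, ← hz i, map_intCast]
  have hρ : Function.Injective ρ := ρ.injective
  have hi₀P : (z i₀ : 𝓞 K) ∉ P := by
    rw [← hπ, hπz]
    intro h
    exact hi₀ (hρ (by rw [h, map_zero]))
  have hev : ∀ q : MvPolynomial n (𝓞 K),
      MvPolynomial.eval (fun i => algebraMap (𝓞 K) K (z i : 𝓞 K))
        (MvPolynomial.map (algebraMap (𝓞 K) K) q)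
        = algebraMap (𝓞 K) K (MvPolynomial.eval (fun i => (z i : 𝓞 K)) q) := by
    intro q
    rw [eval_map, ← MvPolynomial.eval₂_id, MvPolynomial.hom_eval₂, RingHom.comp_id]
  have hev2 : ∀ H : MvPolynomial n A,
      MvPolynomial.eval (fun i => π (z i : 𝓞 K)) (MvPolynomial.map (ρ.comp ψ) H)
        = ρ (MvPolynomial.eval v (MvPolynomial.map ψ H)) := by
    intro H
    rw [eval_map, eval_map, MvPolynomial.hom_eval₂]
    congr 1
    funext i
    exact hπz i
  -- some `w r` is parallel to `z`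
  obtain ⟨r, hr⟩ : ∃ r, ∀ i j, (z i : 𝓞 K) * w r j - (z j : 𝓞 K) * w r i ∈ P := by
    by_contra hcon
    push Not at hcon
    choose a b hab using hcon
    obtain ⟨c, e, q, hc, hq⟩ := hcert i₀ (fun r => (a r, b r))
    have h1 := congrArg (MvPolynomial.eval (fun i => algebraMap (𝓞 K) K (z i : 𝓞 K))) hq
    rw [map_mul, eval_C, map_pow, map_mul, eval_X, map_prod, map_sum] at h1
    simp only [map_mul (MvPolynomial.eval fun i => algebraMap (𝓞 K) K (z i : 𝓞 K)),
      map_sub (MvPolynomial.eval fun i => algebraMap (𝓞 K) K (z i : 𝓞 K)), eval_X, eval_C] at h1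
    have h2 := hs.eval_sum (fun t => MvPolynomial.eval (fun i => (z i : 𝓞 K)) (q t))
      (fun t : n × n => G t.1 * C (u t.2) - G t.2 * C (u t.1)) (fun i => (z i : 𝓞 K))
      (c * ((z i₀ : 𝓞 K) * ∏ r, ((z (a r) : 𝓞 K) * w r (b r) - (z (b r) : 𝓞 K) * w r (a r))) ^ e) (by
        simp only [map_mul (algebraMap (𝓞 K) K), map_pow (algebraMap (𝓞 K) K),
          map_prod (algebraMap (𝓞 K) K), map_sub (algebraMap (𝓞 K) K)]
        refine h1.trans (Finset.sum_congr rfl fun t _ => ?_)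
        rw [hev])
    have h3 : ∀ t : n × n, MvPolynomial.eval (fun i => π (z i : 𝓞 K))
        (MvPolynomial.map (ρ.comp ψ) (G t.1 * C (u t.2) - G t.2 * C (u t.1))) = 0 := by
      intro t
      rw [hev2, map_sub, map_mul, map_mul, map_C, map_C, map_sub, map_mul, map_mul, eval_C, eval_C,
        hpar t.1 t.2, sub_self, map_zero]
    rw [Finset.sum_eq_zero (fun t _ => by rw [h3, mul_zero]), hπ] at h2
    have h4 := (hP.mem_or_mem h2).resolve_left hc
    have h5 := (hP.mem_or_mem (hP.mem_of_pow_mem _ h4)).resolve_left hi₀P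
    rw [hP.prod_mem_iff] at h5
    obtain ⟨r, -, hr⟩ := h5
    exact hab r hr
  have hσ : ∀ x, x ∈ P → σ₀ • x ∈ P := by
    intro x hx
    rw [MulAction.mem_stabilizer_iff] at hσP
    rw [← hσP]
    exact Ideal.smul_mem_pointwise_smul_iff.2 hx
  have hσz : ∀ m : ℤ, σ₀ • (m : 𝓞 K) = m := by
    intro m
    apply NumberField.RingOfIntegers.ext
    change σ₀ ((m : 𝓞 K) : K) = _
    simp
  obtain ⟨i, j, hij⟩ := hmin r
  apply hij
  have e1 := hσ _ (hr i₀ i)
  have e2 := hσ _ (hr i₀ j)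
  rw [smul_sub, smul_mul', smul_mul', hσz, hσz] at e1 e2
  have h6 : (z i₀ : 𝓞 K) ^ 2 * ((σ₀ • w r i) * w r j - (σ₀ • w r j) * w r i) ∈ P := by
    have h7 : (z i₀ : 𝓞 K) ^ 2 * ((σ₀ • w r i) * w r j - (σ₀ • w r j) * w r i)
        = (z i₀ : 𝓞 K) * w r j * ((z i₀ : 𝓞 K) * (σ₀ • w r i) - (z i : 𝓞 K) * (σ₀ • w r i₀))
        - (z i₀ : 𝓞 K) * w r i * ((z i₀ : 𝓞 K) * (σ₀ • w r j) - (z j : 𝓞 K) * (σ₀ • w r i₀))
        + (z i : 𝓞 K) * (σ₀ • w r i₀) * ((z i₀ : 𝓞 K) * w r j - (z j : 𝓞 K) * w r i₀)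
        - (z j : 𝓞 K) * (σ₀ • w r i₀) * ((z i₀ : 𝓞 K) * w r i - (z i : 𝓞 K) * w r i₀) := by
      ring
    rw [h7]
    exact P.sub_mem (P.add_mem (P.sub_mem (P.mul_mem_left _ e1) (P.mul_mem_left _ e2))
      (P.mul_mem_left _ (hr _ _))) (P.mul_mem_left _ (hr _ _))
  exact (hP.mem_or_mem h6).resolve_left (fun h => hi₀P (hP.mem_of_pow_mem _ h))

end Pool.Agent.Helper30.AV
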