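import Pool.Agent.Helper30.AV.Fiber

/-!
# Definitions: models of finitely generated rings, compatible homomorphisms
-/

set_option autoImplicit false

namespace Pool.Agent.Helper30.AV

open MvPolynomial

/-- Evaluation at `τ` of integral polynomials in `r` variables. -/
noncomputable def ez {r : ℕ} {T : Type*} [CommRing T] (τ : Fin r → T) :
    MvPolynomial (Fin r) ℤ →+* T := eval₂Hom (Int.castRingHom T) τ

/-- `A = ℤ[t, 1/Δ][X]/(g)` with `g` monic in `X`, separable at every point where `Δ` is invertible: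
characterised by its homomorphisms. -/
structure IsModel {r : ℕ} (Δ : MvPolynomial (Fin r) ℤ)
    (g : Polynomial (MvPolynomial (Fin r) ℤ)) {A : Type} [CommRing A] (t : Fin r → A) (θ : A) :
    Prop where
  monic : g.Monic
  bez : ∃ U V : Polynomial (MvPolynomial (Fin r) ℤ),
    U * g + V * Polynomial.derivative g = Polynomial.C Δ
  unit : IsUnit (ez t Δ)
  root : g.eval₂ (ez t) θ = 0
  lift : ∀ (T : Type) [CommRing T] (τ : Fin r → T) (x : T), IsUnit (ez τ Δ) →
    g.eval₂ (ez τ) x = 0 → ∃ ψ : A →+* T, (∀ i, ψ (t i) = τ i) ∧ ψ θ = x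
  ext : ∀ (T : Type) [CommRing T] (ψ ψ' : A →+* T), (∀ i, ψ (t i) = ψ' (t i)) → ψ θ = ψ' θ → ψ = ψ'
  norm : ∀ h : A, h ≠ 0 → ∃ D : MvPolynomial (Fin r) ℤ, D ≠ 0 ∧ h ∣ ez t D

/-- `s : A → K` and `ψ : A → k` come from one homomorphism to the localisation of `O` at the kernel
of `π : O → k`: linear relations over `O` between values of `s` hold for the values of `ψ`. -/
def Compat {A O K k : Type*} [CommRing A] [CommRing O] [Field K] [Field k] [Algebra O K]
    (π : O →+* k) (s : A →+* K) (ψ : A →+* k) : Prop :=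
  ∀ (ι : Type) [Fintype ι] (y : O) (q : ι → O) (a : ι → A),
    algebraMap O K y = ∑ j, algebraMap O K (q j) * s (a j) → π y = ∑ j, π (q j) * ψ (a j)

end Pool.Agent.Helper30.AV
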