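import Mathlib

/-!
# Fibres of morphisms of projective space: finiteness and Nullstellensatz certificates
-/

set_option autoImplicit false

namespace Pool.Agent.Helper30.AV

open MvPolynomial

/-- Two vectors are parallel: all `2 × 2` minors vanish. -/
def Par {σ R : Type*} [Mul R] (x y : σ → R) : Prop := ∀ i j, x i * y j = x j * y i

theorem degree_of_hom {σ R : Type*} [CommSemiring R] {P : MvPolynomial σ R} {D : ℕ}
    (hP : P.IsHomogeneous D) {m : σ →₀ ℕ} (hm : m ∈ P.support) : m.degree = D := by
  have := hP (mem_support_iff.1 hm)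
  rw [Finsupp.degree_eq_weight_one (R := ℕ)]
  exact this

section field
variable {k : Type*} [Field k] {σ : Type*}

theorem homogeneousComponent_mul_of {D K : ℕ} (hDK : D ≤ K)
    (a p : MvPolynomial σ k) (hp : p.IsHomogeneous D) :
    homogeneousComponent K (a * p) = homogeneousComponent (K - D) a * p := by
  have h1 : a * p = ∑ i ∈ Finset.range (a.totalDegree + 1), homogeneousComponent i a * p := by
    rw [← Finset.sum_mul, sum_homogeneousComponent]
  rw [h1, map_sum]
  have h2 : ∀ i ∈ Finset.range (a.totalDegree + 1),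
      homogeneousComponent K (homogeneousComponent i a * p) =
        if i = K - D then homogeneousComponent (K - D) a * p else 0 := by
    intro i _
    have h3 : (homogeneousComponent i a * p).IsHomogeneous (i + D) :=
      (homogeneousComponent_isHomogeneous i a).mul hp
    rw [homogeneousComponent_of_mem (n := i + D) h3]
    by_cases hi : i = K - D
    · rw [if_pos (by omega), if_pos hi, hi]
    · rw [if_neg (by omega), if_neg hi]
  rw [Finset.sum_congr rfl h2, Finset.sum_ite_eq']
  split_ifs with h3
  · rfl
  · rw [homogeneousComponent_eq_zero (K - D) a, zero_mul]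
    simp only [Finset.mem_range] at h3
    omega

theorem exists_pow_mem [IsAlgClosed k] [Fintype σ] (G : σ → MvPolynomial σ k) (D : ℕ)
    (hG : ∀ t, (G t).IsHomogeneous D)
    (h0 : ∀ x : σ → k, (∀ t, eval x (G t) = 0) → x = 0) :
    ∃ K : ℕ, 1 ≤ K ∧ D ≤ K ∧ ∀ i, ∃ a : σ → MvPolynomial σ k,
      (∀ t, (a t).IsHomogeneous (K - D)) ∧ X i ^ K = ∑ t, a t * G t := by
  classical
  set I : Ideal (MvPolynomial σ k) := Ideal.span (Set.range G) with hI
  have h1 : ∀ i : σ, ∃ m : ℕ, (X i : MvPolynomial σ k) ^ m ∈ I := by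
    intro i
    have h2 : (X i : MvPolynomial σ k) ∈ I.radical := by
      rw [← vanishingIdeal_zeroLocus_eq_radical (K := k), mem_vanishingIdeal_iff]
      intro x hx
      have hx0 : x = 0 := by
        apply h0
        intro t
        have := hx (G t) (Ideal.subset_span ⟨t, rfl⟩)
        simpa using this
      simp [hx0]
    exact h2
  choose m hm using h1
  refine ⟨∑ i, m i + D + 1, by omega, by omega, fun i => ?_⟩
  set K := ∑ i, m i + D + 1 with hK
  have hDK : D ≤ K := by omega
  have h2 : (X i : MvPolynomial σ k) ^ K ∈ I := by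
    have h3 : m i ≤ K := by
      have := Finset.single_le_sum (f := m) (fun _ _ => Nat.zero_le _) (Finset.mem_univ i)
      omega
    have h4 : K = m i + (K - m i) := by omega
    rw [h4, pow_add]
    exact I.mul_mem_right _ (hm i)
  rw [hI, Ideal.mem_span_range_iff_exists_fun] at h2
  obtain ⟨a, ha⟩ := h2
  refine ⟨fun t => homogeneousComponent (K - D) (a t),
    fun t => homogeneousComponent_isHomogeneous _ _, ?_⟩
  have h5 := congrArg (homogeneousComponent K) ha
  rw [homogeneousComponent_eq_self (isHomogeneous_X_pow i K), map_sum] at h5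
  rw [← h5]
  exact Finset.sum_congr rfl fun t _ => homogeneousComponent_mul_of hDK _ _ (hG t)

theorem fiber_finite [Finite σ] (G : σ → MvPolynomial σ k) (D K : ℕ) (hD : 0 < D) (hDK : D ≤ K)
    (hK : ∀ i, ∃ (s : Finset σ) (a : σ → MvPolynomial σ k),
      (∀ t, (a t).IsHomogeneous (K - D)) ∧ X i ^ K = ∑ t ∈ s, a t * G t) (u : σ → k) :
    {x : σ → k | ∀ i, eval x (G i) = u i}.Finite := by
  classical
  set I : Ideal (MvPolynomial σ k) := Ideal.span (Set.range fun i => G i - C (u i)) with hI
  set N : Set (σ →₀ ℕ) := {m | ∀ i, m i < K} with hN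
  set W : Submodule k (MvPolynomial σ k) :=
    Submodule.span k ((fun m : σ →₀ ℕ => monomial m (1 : k)) '' N) with hW
  have hNfin : N.Finite := by
    have h1 : (Set.univ.pi fun _ : σ => Set.Iio K).Finite := Set.Finite.pi fun _ => Set.finite_Iio K
    refine Set.Finite.of_finite_image (f := fun m : σ →₀ ℕ => (m : σ → ℕ)) (h1.subset ?_)
      (DFunLike.coe_injective.injOn)
    rintro _ ⟨m, hm, rfl⟩ i _
    exact hm i
  have hmon : ∀ n : ℕ, ∀ m : σ →₀ ℕ, m.degree = n →
      monomial m (1 : k) ∈ W ⊔ I.restrictScalars k := by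
    intro n
    induction n using Nat.strong_induction_on with
    | _ n ih =>
      intro m hm
      by_cases hmN : m ∈ N
      · exact Submodule.mem_sup_left (Submodule.subset_span ⟨m, hmN, rfl⟩)
      · have hmN' : ∃ i, K ≤ m i := by
          by_contra hcon
          push Not at hcon
          exact hmN hcon
        obtain ⟨i, hi⟩ := hmN'
        obtain ⟨s, a, ha, hX⟩ := hK i
        have hle : Finsupp.single i K ≤ m := by
          rw [Finsupp.single_le_iff]
          exact hi
        obtain ⟨m', rfl⟩ := exists_add_of_le hle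
        have hdeg : K + m'.degree = n := by
          rw [← hm, map_add]
          simp [Finsupp.degree_single]
        have h1 : monomial (Finsupp.single i K + m') (1 : k)
            = ∑ t ∈ s, (a t * monomial m' 1) * (G t - C (u t))
              + ∑ t ∈ s, u t • (a t * monomial m' 1) := by
          have h2 : monomial (Finsupp.single i K + m') (1 : k) = X i ^ K * monomial m' 1 := by
            rw [X_pow_eq_monomial, monomial_mul, one_mul]
          rw [h2, hX, Finset.sum_mul, ← Finset.sum_add_distrib]
          refine Finset.sum_congr rfl fun t _ => ?_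
          rw [smul_eq_C_mul]
          ring
        rw [h1]
        refine Submodule.add_mem _ (Submodule.mem_sup_right ?_) ?_
        · refine Submodule.sum_mem _ fun t _ => ?_
          rw [Submodule.restrictScalars_mem]
          exact Ideal.mul_mem_left _ _ (Ideal.subset_span ⟨t, rfl⟩)
        · refine Submodule.sum_mem _ fun t _ => Submodule.smul_mem _ _ ?_
          have h3 : (a t * monomial m' (1 : k)).IsHomogeneous (K - D + m'.degree) :=
            (ha t).mul (isHomogeneous_monomial _ rfl)
          rw [(a t * monomial m' (1 : k)).as_sum]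
          refine Submodule.sum_mem _ fun c hc => ?_
          have h4 : c.degree = K - D + m'.degree := degree_of_hom h3 hc
          have h5 := ih c.degree (by omega) c rfl
          have h6 : monomial c (coeff c (a t * monomial m' (1 : k)))
              = (coeff c (a t * monomial m' (1 : k))) • monomial c (1 : k) := by
            rw [smul_monomial, smul_eq_mul, mul_one]
          rw [h6]
          exact Submodule.smul_mem _ _ h5
  have htop : W ⊔ I.restrictScalars k = ⊤ := by
    rw [eq_top_iff]
    intro f _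
    rw [f.as_sum]
    refine Submodule.sum_mem _ fun c _ => ?_
    have h6 : monomial c (coeff c f) = (coeff c f) • monomial c (1 : k) := by
      rw [smul_monomial, smul_eq_mul, mul_one]
    rw [h6]
    exact Submodule.smul_mem _ _ (hmon _ c rfl)
  have hWfin : Module.Finite k W := Module.Finite.span_of_finite k (hNfin.image _)
  have hQfin : Module.Finite k (MvPolynomial σ k ⧸ I) := by
    let f : W →ₗ[k] (MvPolynomial σ k ⧸ I) :=
      (Ideal.Quotient.mkₐ k I).toLinearMap.comp W.subtype
    refine Module.Finite.of_surjective f ?_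
    intro y
    obtain ⟨x, rfl⟩ := Ideal.Quotient.mk_surjective y
    have hx : x ∈ W ⊔ I.restrictScalars k := by rw [htop]; trivial
    obtain ⟨w, hw, z, hz, rfl⟩ := Submodule.mem_sup.1 hx
    refine ⟨⟨w, hw⟩, ?_⟩
    change Ideal.Quotient.mk I w = _
    rw [map_add, Ideal.Quotient.eq_zero_iff_mem.2 (show z ∈ I from hz), add_zero]
  have hint : ∀ i : σ, ∃ q : Polynomial k, q ≠ 0 ∧ Polynomial.aeval (X i : MvPolynomial σ k) q ∈ I := by
    intro i
    have h1 : IsIntegral k (Ideal.Quotient.mk I (X i)) := Algebra.IsIntegral.isIntegral _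
    obtain ⟨q, hq1, hq2⟩ := h1
    refine ⟨q, hq1.ne_zero, ?_⟩
    rw [← Ideal.Quotient.eq_zero_iff_mem]
    have h2 : Ideal.Quotient.mk I (Polynomial.aeval (X i : MvPolynomial σ k) q)
        = Polynomial.aeval (Ideal.Quotient.mk I (X i)) q := by
      exact (Polynomial.aeval_algHom_apply (Ideal.Quotient.mkₐ k I) (X i) q).symm
    rw [h2, Polynomial.aeval_def]
    exact hq2
  choose q hq0 hq using hint
  refine (Set.Finite.pi' (t := fun i => {c : k | (q i).IsRoot c}) fun i => ?_).subset ?_
  · exact Polynomial.finite_setOfPred_isRoot (hq0 i)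
  · intro x hx i
    have h1 : I ≤ RingHom.ker (eval x) := by
      rw [hI, Ideal.span_le]
      rintro _ ⟨j, rfl⟩
      rw [SetLike.mem_coe, RingHom.mem_ker, map_sub, eval_C, hx j, sub_self]
    have h2 := h1 (hq i)
    rw [RingHom.mem_ker] at h2
    change (q i).eval (x i) = 0
    rw [← h2]
    have h4 := Polynomial.hom_eval₂ (q i) (C : k →+* MvPolynomial σ k) (eval x) (X i)
    rw [Polynomial.aeval_def]
    change _ = eval x (Polynomial.eval₂ C (X i) (q i))
    rw [h4, eval_X]
    have h5 : (eval x).comp (C : k →+* MvPolynomial σ k) = RingHom.id k := by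
      ext c
      simp
    rw [h5, Polynomial.eval₂_id]

theorem eval_smul_hom {R : Type*} [CommRing R] {P : MvPolynomial σ R} {D : ℕ}
    (hP : P.IsHomogeneous D) (c : R) (x : σ → R) : eval (c • x) P = c ^ D * eval x P := by
  have h1 : ∀ m ∈ P.support, eval (c • x) (monomial m (P.coeff m))
      = c ^ D * eval x (monomial m (P.coeff m)) := by
    intro m hm
    have h2 : m.degree = D := degree_of_hom hP hm
    rw [eval_monomial, eval_monomial]
    have h3 : (m.prod fun i e => (c • x) i ^ e) = c ^ D * m.prod fun i e => x i ^ e := by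
      rw [Finsupp.prod, Finsupp.prod, ← h2, Finsupp.degree_apply, ← Finset.prod_pow_eq_pow_sum,
        ← Finset.prod_mul_distrib]
      refine Finset.prod_congr rfl fun i _ => ?_
      rw [Pi.smul_apply, smul_eq_mul, mul_pow]
    rw [h3]
    ring
  conv_lhs => rw [P.as_sum, map_sum]
  conv_rhs => rw [P.as_sum, map_sum, Finset.mul_sum]
  exact Finset.sum_congr rfl h1

theorem par_smul {x u : σ → k} (hu : u ≠ 0) (h : Par x u) : ∃ c : k, x = c • u := by
  obtain ⟨i, hi⟩ := Function.ne_iff.1 hu
  rw [Pi.zero_apply] at hi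
  refine ⟨x i / u i, ?_⟩
  funext j
  rw [Pi.smul_apply, smul_eq_mul, div_mul_eq_mul_div, eq_div_iff hi]
  exact h j i

theorem par_of_smul (c : k) (u : σ → k) : Par (c • u) u := by
  intro i j
  simp only [Pi.smul_apply, smul_eq_mul]
  ring

theorem Par.symm {x u : σ → k} (h : Par x u) : Par u x := by
  intro i j
  have := h j i
  rw [mul_comm (u i), mul_comm (u j)]
  exact this

theorem Par.trans {x y z : σ → k} (hy : y ≠ 0) (h : Par x y) (h' : Par y z) : Par x z := by
  obtain ⟨c, rfl⟩ := par_smul hy h
  intro i j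
  have := h' i j
  simp only [Pi.smul_apply, smul_eq_mul]
  linear_combination c * this

/-- Nullstellensatz certificates for the fibre over the point `u`. -/
theorem null_cert [IsAlgClosed k] [Fintype σ] (G : σ → MvPolynomial σ k) (D : ℕ) (hD : 0 < D)
    (hG : ∀ t, (G t).IsHomogeneous D)
    (h0 : ∀ x : σ → k, (∀ t, eval x (G t) = 0) → x = 0) (u : σ → k) (hu : u ≠ 0) :
    ∃ (l : ℕ) (w : Fin l → σ → k), (∀ r, w r ≠ 0 ∧ (fun i => eval (w r) (G i)) = u) ∧
      ∀ (i : σ) (κ : Fin l → σ × σ), ∃ (e : ℕ) (q : σ × σ → MvPolynomial σ k),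
        (X i * ∏ r, (X (κ r).1 * C (w r (κ r).2) - X (κ r).2 * C (w r (κ r).1))) ^ e
          = ∑ t, q t * (G t.1 * C (u t.2) - G t.2 * C (u t.1)) := by
  classical
  obtain ⟨K, hK1, hDK, hK⟩ := exists_pow_mem G D hG h0
  have hfin := fiber_finite G D K hD hDK (fun i => by
    obtain ⟨a, ha, hX⟩ := hK i
    exact ⟨Finset.univ, a, ha, hX⟩) u
  have e := hfin.toFinset.equivFin.symm
  refine ⟨hfin.toFinset.card, fun r => (e r : σ → k), fun r => ?_, fun i κ => ?_⟩
  · have h1 : ∀ i, eval (e r : σ → k) (G i) = u i := by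
      have := (e r).2
      rwa [Set.Finite.mem_toFinset] at this
    refine ⟨?_, funext h1⟩
    intro h2
    apply hu
    funext j
    change (e r : σ → k) = 0 at h2
    rw [← h1 j, h2]
    have h3 := eval_smul_hom (hG j) (0 : k) (0 : σ → k)
    rw [smul_zero, zero_pow hD.ne', zero_mul] at h3
    rw [h3, Pi.zero_apply]
  · set I : Ideal (MvPolynomial σ k) :=
      Ideal.span (Set.range fun t : σ × σ => G t.1 * C (u t.2) - G t.2 * C (u t.1)) with hI
    have h1 : (X i * ∏ r, (X (κ r).1 * C ((e r : σ → k) (κ r).2)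
        - X (κ r).2 * C ((e r : σ → k) (κ r).1)) : MvPolynomial σ k) ∈ I.radical := by
      rw [← vanishingIdeal_zeroLocus_eq_radical (K := k), mem_vanishingIdeal_iff]
      intro x hx
      have hpar : Par (fun t => eval x (G t)) u := by
        intro a b
        have h2 := hx _ (Ideal.subset_span ⟨(a, b), rfl⟩)
        rw [aeval_eq_eval] at h2
        change eval x _ = 0 at h2
        rw [map_sub, map_mul, map_mul, eval_C, eval_C, sub_eq_zero] at h2
        exact h2
      rw [aeval_eq_eval]
      change eval x _ = 0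
      obtain ⟨c, hc⟩ := par_smul hu hpar
      by_cases hc0 : c = 0
      · have hx0 : x = 0 := by
          apply h0
          intro t
          have := congrFun hc t
          simpa [hc0] using this
        rw [map_mul, eval_X, hx0, Pi.zero_apply, zero_mul]
      · obtain ⟨lam, hlam⟩ := IsAlgClosed.exists_pow_nat_eq (c⁻¹) hD
        have hmem : (lam • x) ∈ hfin.toFinset := by
          rw [Set.Finite.mem_toFinset]
          intro t
          rw [eval_smul_hom (hG t), hlam]
          have := congrFun hc t
          simp only [Pi.smul_apply, smul_eq_mul] at this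
          rw [this, inv_mul_cancel_left₀ hc0]
        have hlam0 : lam ≠ 0 := by
          rintro rfl
          rw [zero_pow hD.ne'] at hlam
          exact hc0 (inv_eq_zero.1 hlam.symm)
        obtain ⟨r, hr⟩ := e.surjective ⟨lam • x, hmem⟩
        have hr' : (e r : σ → k) = lam • x := by rw [hr]
        rw [map_mul, map_prod]
        refine mul_eq_zero_of_right _ (Finset.prod_eq_zero (Finset.mem_univ r) ?_)
        rw [map_sub, map_mul, map_mul, eval_X, eval_X, eval_C, eval_C, hr']
        simp only [Pi.smul_apply, smul_eq_mul]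
        ring
    obtain ⟨n, hn⟩ := h1
    rw [hI, Ideal.mem_span_range_iff_exists_fun] at hn
    obtain ⟨q, hq⟩ := hn
    exact ⟨n, q, hq.symm⟩

end field

/-- Over a finite field there are no long backward orbits of a point which is mapped to a
forward invariant set not containing it. -/
theorem no_long_backward {T : Type*} [Field T] [Finite T] {σ : Type*} [Finite σ]
    (f : (σ → T) → (σ → T)) (d : ℕ) (hf : ∀ (c : T) (x : σ → T), f (c • x) = c ^ d • f x)
    (hf0 : ∀ x, f x = 0 → x = 0) (B U : Set (σ → T)) (hB0 : ∀ b ∈ B, b ≠ 0)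
    (hBB : ∀ b ∈ B, ∃ b' ∈ B, Par (f b) b') (hU : ∀ u ∈ U, u ≠ 0 ∧ ∃ b ∈ B, Par (f u) b)
    (hUB : ∀ u ∈ U, ∀ b ∈ B, ¬ Par u b) (n : ℕ) (hn : Nat.card (σ → T) ≤ n) (v : σ → T)
    (hv : v ≠ 0) (u : σ → T) (hu : u ∈ U) : ¬ Par (f^[n] v) u := by
  classical
  intro hpar
  have hne : ∀ j, f^[j] v ≠ 0 := by
    intro j
    induction j with
    | zero => exact hv
    | succ j ih =>
      rw [Function.iterate_succ_apply']
      exact fun h => ih (hf0 _ h)
  have hmap : ∀ x y : σ → T, y ≠ 0 → Par x y → Par (f x) (f y) := by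
    intro x y hy h
    obtain ⟨c, rfl⟩ := par_smul hy h
    rw [hf]
    exact par_of_smul _ _
  -- from time n + 1 on the orbit is in B
  have hinB : ∀ r, ∃ b ∈ B, Par (f^[n + 1 + r] v) b := by
    intro r
    induction r with
    | zero =>
      obtain ⟨hu0, b, hb, hb2⟩ := hU u hu
      refine ⟨b, hb, ?_⟩
      rw [add_zero, Function.iterate_succ_apply']
      exact (hmap _ _ hu0 hpar).trans (fun h => hu0 (hf0 _ h)) hb2
    | succ r ih =>
      obtain ⟨b, hb, hb2⟩ := ih
      obtain ⟨b', hb', hb3⟩ := hBB b hb
      refine ⟨b', hb', ?_⟩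
      rw [show n + 1 + (r + 1) = (n + 1 + r) + 1 by ring, Function.iterate_succ_apply']
      exact (hmap _ _ (hB0 b hb) hb2).trans (fun h => hB0 b hb (hf0 _ h)) hb3
  have : Fintype (σ → T) := Fintype.ofFinite _
  -- two equal iterates
  obtain ⟨i, j, hij, hj, heq⟩ : ∃ i j, i < j ∧ j ≤ n ∧ f^[i] v = f^[j] v := by
    have h1 : Fintype.card (σ → T) < Fintype.card (Fin (n + 1)) := by
      rw [Fintype.card_fin, ← Nat.card_eq_fintype_card]
      omega
    obtain ⟨a, b, hab, h2⟩ := Fintype.exists_ne_map_eq_of_card_lt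
      (fun r : Fin (n + 1) => f^[(r : ℕ)] v) h1
    have ha := a.2
    have hb := b.2
    rcases lt_or_gt_of_ne (fun h => hab (Fin.ext h) : (a : ℕ) ≠ b) with h3 | h3
    · exact ⟨a, b, h3, by omega, h2⟩
    · exact ⟨b, a, h3, by omega, h2.symm⟩
  have hper : f^[n] v = f^[n + (j - i)] v := by
    have h1 : f^[n] v = f^[n - i] (f^[i] v) := by
      rw [← Function.iterate_add_apply]
      congr 1
      omega
    rw [h1, heq, ← Function.iterate_add_apply]
    congr 1
    omega
  obtain ⟨b, hb, hb2⟩ := hinB (j - i - 1)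
  rw [show n + 1 + (j - i - 1) = n + (j - i) by omega, ← hper] at hb2
  exact hUB u hu b hb ((hpar.symm).trans (hne n) hb2)

end Pool.Agent.Helper30.AV
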