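import Pool.Agent.Helper30.AV.Over
import Pool.Agent.Helper33.SS.Final

/-!
# AV-Final: the main theorem with finitely many exceptional periodic points

`main'`: copy the proof of `Helper33.SS.main` (file `Helper33/SS/Final.lean`). If `a` is not preperiodic
apply `main_one'` with the set of the points (normalised to have one coordinate equal to one)
of the cycles of the periodic points among the exceptional points `b` (take `b ≠ 0` with
`(ev F)^[k] b = c • b` for some `k ≥ 1`, then `(ev F)^[i] b`, `i < k`). The orbit of `a` does not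
meet this set since `a` is not preperiodic.
-/

set_option autoImplicit false

namespace Pool.Agent.Helper30.AV

open MvPolynomial Filter Topology Pool.Agent.Helper33.SS

/-- The cycle of one periodic point, normalised. -/
theorem cyc_one {σ : Type} [DecidableEq σ] {F : σ → MvPolynomial σ ℂ} {d : ℕ}
    (hF : ∀ i, (F i).IsHomogeneous d) (hev0 : ∀ x : σ → ℂ, ev F x = 0 → x = 0) (b₀ : σ → ℂ) :
    ∃ B : Finset (σ → ℂ), (∀ b ∈ B, ∃ i, b i = 1) ∧
      (∀ b ∈ B, ∃ b' ∈ B, ∃ c : ℂ, ev F b = c • b') ∧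
      (∀ b ∈ B, ∃ k, 1 ≤ k ∧ ∃ c : ℂ, (ev F)^[k] b = c • b) ∧
      (b₀ ≠ 0 → (∃ k, 1 ≤ k ∧ ∃ c : ℂ, (ev F)^[k] b₀ = c • b₀) →
        ∃ b' ∈ B, ∃ c : ℂ, b₀ = c • b') := by
  classical
  by_cases h : b₀ ≠ 0 ∧ ∃ k, 1 ≤ k ∧ ∃ c : ℂ, (ev F)^[k] b₀ = c • b₀
  · obtain ⟨hb₀, k, hk, c, hc⟩ := h
    have hne : ∀ i, (ev F)^[i] b₀ ≠ 0 := by
      intro i
      induction i with
      | zero => exact hb₀
      | succ i ih =>
        rw [Function.iterate_succ_apply']
        exact fun h => ih (hev0 _ h)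
    have hidx : ∀ i, ∃ j, (ev F)^[i] b₀ j ≠ 0 := fun i => Function.ne_iff.1 (hne i)
    choose idx hidx using hidx
    set nm : ℕ → σ → ℂ := fun i => ((ev F)^[i] b₀ (idx i))⁻¹ • (ev F)^[i] b₀ with hnm
    have hx : ∀ i, (ev F)^[i] b₀ = ((ev F)^[i] b₀ (idx i)) • nm i := by
      intro i
      rw [hnm]
      simp only
      rw [smul_smul, mul_inv_cancel₀ (hidx i), one_smul]
    have hmem : ∀ i, i < k → nm i ∈ (Finset.range k).image nm := fun i hi =>
      Finset.mem_image_of_mem _ (Finset.mem_range.2 hi)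
    have hk0 : 0 < k := hk
    refine ⟨(Finset.range k).image nm, ?_, ?_, ?_, ?_⟩
    · intro b hb
      obtain ⟨i, -, rfl⟩ := Finset.mem_image.1 hb
      refine ⟨idx i, ?_⟩
      rw [hnm]
      simp only [Pi.smul_apply, smul_eq_mul]
      exact inv_mul_cancel₀ (hidx i)
    · intro b hb
      obtain ⟨i, hi, rfl⟩ := Finset.mem_image.1 hb
      have hi' := Finset.mem_range.1 hi
      have h1 : ev F (nm i) = (((ev F)^[i] b₀ (idx i))⁻¹) ^ (d ^ 1) • (ev F)^[i + 1] b₀ := by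
        rw [hnm]
        simp only
        have h2 := evc_smul hF (((ev F)^[i] b₀ (idx i))⁻¹) ((ev F)^[i] b₀) 1
        rw [Function.iterate_one] at h2
        rw [h2, Function.iterate_succ_apply']
      rcases Nat.lt_or_ge (i + 1) k with hik | hik
      · refine ⟨nm (i + 1), hmem _ hik, (((ev F)^[i] b₀ (idx i))⁻¹) ^ (d ^ 1) *
          (ev F)^[i + 1] b₀ (idx (i + 1)), ?_⟩
        rw [h1, mul_smul, ← hx (i + 1)]
      · have hik' : i + 1 = k := by omega
        refine ⟨nm 0, hmem 0 hk0, (((ev F)^[i] b₀ (idx i))⁻¹) ^ (d ^ 1) * c *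
          (ev F)^[0] b₀ (idx 0), ?_⟩
        rw [h1, hik', hc, mul_smul, mul_smul, ← hx 0]
        rfl
    · intro b hb
      obtain ⟨i, hi, rfl⟩ := Finset.mem_image.1 hb
      refine ⟨k, hk, (((ev F)^[i] b₀ (idx i))⁻¹) ^ (d ^ k) * c ^ (d ^ i) *
        (ev F)^[i] b₀ (idx i), ?_⟩
      have h1 : (ev F)^[k] (nm i) = (((ev F)^[i] b₀ (idx i))⁻¹) ^ (d ^ k) •
          (ev F)^[k] ((ev F)^[i] b₀) := by
        rw [hnm]
        exact evc_smul hF _ _ _
      rw [h1, ← Function.iterate_add_apply, add_comm k i, Function.iterate_add_apply, hc,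
        evc_smul hF, mul_smul, mul_smul, ← hx i]
    · intro _ _
      exact ⟨nm 0, hmem 0 hk0, (ev F)^[0] b₀ (idx 0), hx 0⟩
  · refine ⟨∅, by simp, by simp, by simp, fun h1 h2 => absurd ⟨h1, h2⟩ h⟩

/-- The cycles of the periodic points of a finite set, normalised. -/
theorem cyc_all {σ : Type} [DecidableEq σ] {F : σ → MvPolynomial σ ℂ} {d : ℕ}
    (hF : ∀ i, (F i).IsHomogeneous d) (hev0 : ∀ x : σ → ℂ, ev F x = 0 → x = 0)
    (B₀ : Finset (σ → ℂ)) :
    ∃ B : Finset (σ → ℂ), (∀ b ∈ B, ∃ i, b i = 1) ∧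
      (∀ b ∈ B, ∃ b' ∈ B, ∃ c : ℂ, ev F b = c • b') ∧
      (∀ b ∈ B, ∃ k, 1 ≤ k ∧ ∃ c : ℂ, (ev F)^[k] b = c • b) ∧
      (∀ b ∈ B₀, b ≠ 0 → (∃ k, 1 ≤ k ∧ ∃ c : ℂ, (ev F)^[k] b = c • b) →
        ∃ b' ∈ B, ∃ c : ℂ, b = c • b') := by
  classical
  choose C hC1 hC2 hC3 hC4 using cyc_one hF hev0
  refine ⟨B₀.biUnion C, ?_, ?_, ?_, ?_⟩
  · intro b hb
    obtain ⟨b₀, -, h⟩ := Finset.mem_biUnion.1 hb
    exact hC1 b₀ b h
  · intro b hb
    obtain ⟨b₀, h0, h⟩ := Finset.mem_biUnion.1 hb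
    obtain ⟨b', hb', c, hc⟩ := hC2 b₀ b h
    exact ⟨b', Finset.mem_biUnion.2 ⟨b₀, h0, hb'⟩, c, hc⟩
  · intro b hb
    obtain ⟨b₀, -, h⟩ := Finset.mem_biUnion.1 hb
    exact hC3 b₀ b h
  · intro b hb hb0 hper
    obtain ⟨b', hb', c, hc⟩ := hC4 b hb0 hper
    exact ⟨b', Finset.mem_biUnion.2 ⟨b, hb, hb'⟩, c, hc⟩

theorem main' (N d : ℕ) (hd : 1 ≤ d)
    (F : Fin (N + 1) → MvPolynomial (Fin (N + 1)) ℂ) (hF : ∀ i, (F i).IsHomogeneous d)
    (hnz : ∀ x : Fin (N + 1) → ℂ, (∀ i, eval x (F i) = 0) → x = 0)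
    (E : Set (MvPolynomial (Fin (N + 1)) ℂ)) (hE : ∀ g ∈ E, ∃ e : ℕ, g.IsHomogeneous e)
    (hEinv : ∀ x : Fin (N + 1) → ℂ, x ≠ 0 → InZ E (ev F x) → InZ E x)
    (r : ℕ) (V : Fin r → Set (MvPolynomial (Fin (N + 1)) ℂ))
    (hV : ∀ j, ∀ g ∈ V j, ∃ e : ℕ, g.IsHomogeneous e)
    (hcase : ∀ j, (∃ k, 1 ≤ k ∧ ∀ x, x ≠ 0 → InZ (V j) x → InZ (V j) ((ev F)^[k] x)) ∨
      ((N ≤ 2 ∨ ringKrullDim (MvPolynomial (Fin (N + 1)) ℂ ⧸ Ideal.span (V j)) ≤ 2 ∨
        ∀ k, 1 ≤ k → ∃ B : Finset (Fin (N + 1) → ℂ), ∀ x : Fin (N + 1) → ℂ, x ≠ 0 →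
          ¬ InZ E x → (∀ n, InZ (V j) ((ev F)^[k * n] x)) → ∃ b ∈ B, ∃ c : ℂ, x = c • b) ∧
      ∃ B : Finset (Fin (N + 1) → ℂ), ∀ x : Fin (N + 1) → ℂ, x ≠ 0 → ¬ InZ E x → InZ (V j) x →
        ∀ k, 1 ≤ k → ∀ c : ℂ, (ev F)^[k] x = c • x →
          N ≤ ((jprod F x k) ^ 2).rank ∨ ∃ b ∈ B, ∃ c' : ℂ, x = c' • b))
    (a : Fin (N + 1) → ℂ) (ha : a ≠ 0) (haE : ¬ InZ E a) :
    SGood {n | ∃ j, InZ (V j) ((ev F)^[n] a)} := by
  have hev0 : ∀ x : Fin (N + 1) → ℂ, ev F x = 0 → x = 0 := fun x h => hnz x fun i => congrFun h i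
  have horb0 : ∀ n, (ev F)^[n] a ≠ 0 := by
    intro n
    induction n with
    | zero => exact ha
    | succ n ih =>
      rw [Function.iterate_succ_apply']
      exact fun h => ih (hev0 _ h)
  have hset : {n | ∃ j, InZ (V j) ((ev F)^[n] a)} = ⋃ j, {n | InZ (V j) ((ev F)^[n] a)} := by
    ext n
    simp
  rw [hset]
  refine SGood.iUnion fun j => ?_
  by_cases hper : ∃ n k, 1 ≤ k ∧ ∃ c : ℂ, (ev F)^[n + k] a = c • (ev F)^[n] a
  · -- preperiodic points
    obtain ⟨n₀, k, hk, c, hc⟩ := hper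
    refine SGood.of_AP (Pool.Agent.Helper36.APSet_of_evClosed hk ((Set.finite_Iio n₀).subset ?_))
    rintro n ⟨hn1, hn2⟩
    by_contra hlt
    apply hn2
    have hle : n₀ ≤ n := not_lt.1 hlt
    obtain ⟨m, rfl⟩ := Nat.exists_eq_add_of_le hle
    have h1 : (ev F)^[n₀ + m + k] a = c ^ (d ^ m) • (ev F)^[n₀ + m] a := by
      rw [show n₀ + m + k = m + (n₀ + k) by ring, Function.iterate_add_apply, hc, evc_smul hF,
        ← Function.iterate_add_apply, add_comm m n₀]
    have hc0 : c ≠ 0 := by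
      rintro rfl
      exact horb0 (n₀ + k) (by rw [hc, zero_smul])
    show InZ (V j) ((ev F)^[n₀ + m + k] a)
    rw [h1, inZ_smul (hV j) (pow_ne_zero _ hc0)]
    exact hn1
  · push Not at hper
    have hnp : ∀ n k, 1 ≤ k → ∀ c : ℂ, (ev F)^[n + k] a ≠ c • (ev F)^[n] a := hper
    rcases hcase j with ⟨k, hk, hst⟩ | ⟨hsmall, B₀, hmild⟩
    · -- stable sets
      refine SGood.of_AP (Pool.Agent.Helper36.APSet_of_evClosed hk (Set.finite_empty.subset ?_))
      rintro n ⟨hn1, hn2⟩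
      apply hn2
      show InZ (V j) ((ev F)^[n + k] a)
      rw [add_comm n k, Function.iterate_add_apply]
      exact hst _ (horb0 n) hn1
    · have hcard : Fintype.card (Fin (N + 1)) = N + 1 := Fintype.card_fin _
      obtain ⟨B₁, hB1, hB2, hB3, hB4⟩ := cyc_all hF hev0 B₀
      have hna : ∀ n, ∀ b ∈ B₁, ∀ c : ℂ, (ev F)^[n] a ≠ c • b := by
        intro n b hb c hc
        obtain ⟨k, hk, c', hc'⟩ := hB3 b hb
        have hc0 : c ≠ 0 := by
          rintro rfl
          exact horb0 n (by rw [hc, zero_smul])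
        refine hnp n k hk (c ^ (d ^ k) * c' * c⁻¹) ?_
        rw [add_comm n k, Function.iterate_add_apply, hc, evc_smul hF, hc', smul_smul, smul_smul,
          mul_assoc, inv_mul_cancel₀ hc0, mul_one]
      -- the theorem for a set `W` inside `V j`
      have hone : ∀ W : Set (MvPolynomial (Fin (N + 1)) ℂ),
          (∀ g ∈ W, ∃ e : ℕ, g.IsHomogeneous e) → (∀ x, InZ W x → InZ (V j) x) →
          (∀ k, 1 ≤ k → ∃ B : Finset (Fin (N + 1) → ℂ), ∀ x : Fin (N + 1) → ℂ, x ≠ 0 →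
            (∀ n, InZ W ((ev F)^[k * n] x)) → ¬ InZ E x → ∃ b ∈ B, ∃ c : ℂ, x = c • b) →
          Sparse {n | InZ W ((ev F)^[n] a)} := by
        intro W hW hWV hB
        refine main_one' F d hd hF hnz E hE hEinv W hW hB B₁ hB1 hB2 ?_ a ha haE hna hnp
        intro x hx h1 h2 hxB k hk c hc
        rw [hcard]
        rcases hmild x hx h2 (hWV x h1) k hk c hc with h3 | ⟨b, hb, c', hxb⟩
        · omega
        · exfalso
          have hc'0 : c' ≠ 0 := by
            rintro rfl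
            exact hx (by rw [hxb, zero_smul])
          have hb0 : b ≠ 0 := by
            rintro rfl
            exact hx (by rw [hxb, smul_zero])
          have hbx : b = c'⁻¹ • x := by
            rw [hxb, smul_smul, inv_mul_cancel₀ hc'0, one_smul]
          have hper : ∃ k, 1 ≤ k ∧ ∃ c : ℂ, (ev F)^[k] b = c • b := by
            refine ⟨k, hk, c'⁻¹ ^ (d ^ k) * c * c', ?_⟩
            conv_lhs => rw [hbx]
            rw [evc_smul hF, hc, hxb, smul_smul, smul_smul]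
          obtain ⟨b', hb', c'', hbb⟩ := hB4 b hb hb0 hper
          exact hxB b' hb' (c' * c'') (by rw [hxb, hbb, smul_smul])
      by_cases hfew : ∀ k, 1 ≤ k → ∃ B : Finset (Fin (N + 1) → ℂ), ∀ x : Fin (N + 1) → ℂ, x ≠ 0 →
          ¬ InZ E x → (∀ n, InZ (V j) ((ev F)^[k * n] x)) → ∃ b ∈ B, ∃ c : ℂ, x = c • b
      · refine SGood.of_sparse (hone (V j) (hV j) (fun x h => h) fun k hk => ?_)
        obtain ⟨B, hB⟩ := hfew k hk
        exact ⟨B, fun x hx h1 h2 => hB x hx h2 h1⟩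
      · by_cases hzero : ∀ g ∈ V j, g = 0
        · -- the whole space
          refine SGood.of_AP (Pool.Agent.Helper36.APSet_of_evClosed Nat.one_pos (Set.finite_empty.subset ?_))
          rintro n ⟨hn1, hn2⟩
          apply hn2
          intro g hg
          rw [hzero g hg, map_zero]
        · have hdim : ringKrullDim (MvPolynomial (Fin (N + 1)) ℂ ⧸ Ideal.span (V j)) ≤ 2 := by
            rcases hsmall with h | h | h
            · push Not at hzero
              obtain ⟨g, hg, hg0⟩ := hzero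
              exact Pool.Agent.Helper36.krullDim_le_two h (V j) hg hg0
            · exact h
            · exact absurd h hfew
          obtain ⟨r', W, hW1, hW2, hW3⟩ := dim_split F hF (V j) (hV j) hdim
          have hset2 : {n | InZ (V j) ((ev F)^[n] a)} = ⋃ l, {n | InZ (W l) ((ev F)^[n] a)} := by
            ext n
            simp only [Set.mem_ofPred_eq, Set.mem_iUnion]
            exact hW2 _
          rw [hset2]
          refine SGood.iUnion fun l => ?_
          rcases hW3 l with ⟨k, hk, hst⟩ | hB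
          · refine SGood.of_AP (Pool.Agent.Helper36.APSet_of_evClosed hk (Set.finite_empty.subset ?_))
            rintro n ⟨hn1, hn2⟩
            apply hn2
            show InZ (W l) ((ev F)^[n + k] a)
            rw [add_comm n k, Function.iterate_add_apply]
            exact hst _ hn1
          · refine SGood.of_sparse (hone (W l) (hW1 l) (fun x h => (hW2 x).2 ⟨l, h⟩) fun k hk => ?_)
            obtain ⟨B, hB⟩ := hB k hk
            exact ⟨B, fun x hx h1 _ => hB x hx h1⟩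

end Pool.Agent.Helper30.AV
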