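import Pool.Agent.Helper30.AV.Model
import Pool.Agent.Helper33.SS.Defs

/-!
# AV-Good: a model over which everything is defined

Proof of `good_model`.

1. For `b ∈ B` let `l, w r` and the certificates be given by `null_cert` (file `Fiber.lean`) for `F`,
   `u := b` over `ℂ` (`hnz`); `F (w r) = b`. Let `U` be the finite set of the vectors `(w r j)⁻¹ • w r`
   (`j` some coordinate with `w r j ≠ 0`; so one coordinate is `1`), for all `b ∈ B` and `r`, which are
   not multiples of elements of `B`. `uA` enumerates `U`.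
2. A finite set `S' ⊇ S` of complex numbers: `S`, the coefficients of `F`, the coordinates of `a`,
   of `b ∈ B`, of `u ∈ U`, of the `w r`, the inverses `(w r j)⁻¹`, the numbers `c` with
   `ev F b = c • b'` (one for each `b`), the coefficients of the polynomials `q t` of all certificates
   (finitely many `i`, `κ`) and of certificates `X i ^ K = ∑ q j * F j` (`exists_pow_mem`, file
   `Fiber.lean`), and for `u ∈ U`, `b ∈ B` the inverse of a non-zero minor `u i * b j - u j * b i`.
   `exists_model S'` gives `A`, `ι : A → ℂ` injective, and everything lifts to `A`, with the same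
   identities because `ι` is injective (`MvPolynomial.map_injective`).
3. For a homomorphism `φ : A → k` to a field apply `φ` to the identities: the first statement from the
   certificates for `X i ^ K`; `bA b` has a coordinate `1`; minors which are units stay non-zero; last
   statement: if `F x` is parallel to `b`, `x ≠ 0`, evaluate the certificates at `x`: for all `i`, `κ`
   `x i * ∏ r, (x (κ r).1 * w r (κ r).2 - x (κ r).2 * w r (κ r).1) = 0`; with `x i ≠ 0` (and the right
   choice of `κ`) some `r` has all minors of `x` and `w r` zero; `w r` is a multiple by a unit of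
   some `b'` or `u`.
-/

set_option autoImplicit false

namespace Pool.Agent.Helper30.AV

open MvPolynomial Pool.Agent.Helper33.SS

private theorem eval_map_hom {σ A k : Type*} [CommRing A] [CommRing k] (φ : A →+* k) (x : σ → A)
    (P : MvPolynomial σ A) :
    eval (fun i => φ (x i)) (MvPolynomial.map φ P) = φ (eval x P) := by
  rw [MvPolynomial.eval_map, ← MvPolynomial.eval₂_id, MvPolynomial.eval₂_comp_left,
    RingHom.comp_id]
  rfl

private theorem ev_map_hom {σ A k : Type*} [CommRing A] [CommRing k] (φ : A →+* k) (x : σ → A)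
    (P : σ → MvPolynomial σ A) :
    ev (fun i => MvPolynomial.map φ (P i)) (fun i => φ (x i)) = fun i => φ (ev P x i) := by
  funext i
  exact eval_map_hom φ x (P i)

private theorem par_map {σ A k : Type*} [CommRing A] [CommRing k] (φ : A →+* k) {x y : σ → A}
    (h : Par x y) : Par (fun i => φ (x i)) (fun i => φ (y i)) := by
  intro i j
  rw [← map_mul, ← map_mul, h i j]

private theorem par_of_map {σ A k : Type*} [CommRing A] [CommRing k] (φ : A →+* k)
    (hφ : Function.Injective φ) {x y : σ → A}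
    (h : Par (fun i => φ (x i)) (fun i => φ (y i))) : Par x y := by
  intro i j
  apply hφ
  rw [map_mul, map_mul]
  exact h i j

private theorem lift_poly {σ A : Type*} [CommRing A] (ι : A →+* ℂ) (P : MvPolynomial σ ℂ)
    (h : ∀ c ∈ P.coeffs, ∃ x, ι x = c) : ∃ P' : MvPolynomial σ A, MvPolynomial.map ι P' = P := by
  have h1 : P ∈ Set.range (MvPolynomial.map (σ := σ) ι) := by
    rw [MvPolynomial.mem_range_map_iff_coeffs_subset]
    intro c hc
    exact h c hc
  exact h1

theorem good_model {σ : Type} [Fintype σ] [DecidableEq σ] (F : σ → MvPolynomial σ ℂ) (d : ℕ)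
    (hd : 0 < d) (hF : ∀ i, (F i).IsHomogeneous d)
    (hnz : ∀ x : σ → ℂ, (∀ i, eval x (F i) = 0) → x = 0)
    (B : Finset (σ → ℂ)) (hB1 : ∀ b ∈ B, ∃ i, b i = 1)
    (hB : ∀ b ∈ B, ∃ b' ∈ B, ∃ c : ℂ, ev F b = c • b') (a : σ → ℂ) (S : Finset ℂ) :
    ∃ (r : ℕ) (Δ : MvPolynomial (Fin r) ℤ) (g : Polynomial (MvPolynomial (Fin r) ℤ)) (A : Type)
      (_ : CommRing A) (t : Fin r → A) (θ : A) (ι : A →+* ℂ) (FA : σ → MvPolynomial σ A)
      (aA : σ → A) (bA : B → σ → A) (l : ℕ) (uA : Fin l → σ → A),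
      IsModel Δ g t θ ∧ Δ ≠ 0 ∧ 0 < g.natDegree ∧ Function.Injective ι ∧
      (∀ c ∈ S, ∃ x, ι x = c) ∧ (∀ i, (FA i).IsHomogeneous d) ∧
      (∀ i, MvPolynomial.map ι (FA i) = F i) ∧ (∀ i, ι (aA i) = a i) ∧
      (∀ b i, ι (bA b i) = b.1 i) ∧ (∀ j, ∃ i, uA j i = 1) ∧
      (∀ (k : Type) [Field k] (φ : A →+* k),
        (∀ x : σ → k, (∀ i, eval x (MvPolynomial.map φ (FA i)) = 0) → x = 0) ∧
        (∀ b, (fun i => φ (bA b i)) ≠ 0) ∧
        (∀ b, ∃ b', Par (ev (fun i => MvPolynomial.map φ (FA i)) fun i => φ (bA b i))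
          (fun i => φ (bA b' i))) ∧
        (∀ j b, ¬ Par (fun i => φ (uA j i)) (fun i => φ (bA b i))) ∧
        (∀ j, ∃ b, Par (ev (fun i => MvPolynomial.map φ (FA i)) fun i => φ (uA j i))
          (fun i => φ (bA b i))) ∧
        (∀ x : σ → k, x ≠ 0 → ∀ b, Par (ev (fun i => MvPolynomial.map φ (FA i)) x)
          (fun i => φ (bA b i)) →
          (∃ b', Par x (fun i => φ (bA b' i))) ∨ (∃ j, Par x (fun i => φ (uA j i))))) ∧
      ∀ (p : ℕ) [Fact p.Prime] (ψ₀ : A →+* ZMod p), ∃ s : ℂ ≃+* ℂ_[p],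
        ∀ x, ∃ z : ℤ_[p], s (ι x) = io p z ∧ PadicInt.toZMod z = ψ₀ x := by
  classical
  have hb0 : ∀ b : B, b.1 ≠ 0 := by
    intro b hb
    obtain ⟨i, hi⟩ := hB1 b.1 b.2
    rw [hb] at hi
    exact zero_ne_one hi
  choose l w hw hcert using fun b : B => null_cert F d hd hF hnz b.1 (hb0 b)
  choose e q hq using hcert
  obtain ⟨K, hK1, -, hK⟩ := exists_pow_mem F d hF hnz
  choose q' _ hq' using hK
  have hj : ∀ (b : B) (r : Fin (l b)), ∃ j, w b r j ≠ 0 := fun b r => Function.ne_iff.1 (hw b r).1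
  choose jj hjj using hj
  let I := {x : Σ b : B, Fin (l b) // ∀ b' : B, ¬ Par (w x.1 x.2) b'.1}
  have hminors : ∀ (x : I) (b' : B), ∃ ij : σ × σ,
      w x.1.1 x.1.2 ij.1 * b'.1 ij.2 - w x.1.1 x.1.2 ij.2 * b'.1 ij.1 ≠ 0 := by
    intro x b'
    have h1 := x.2 b'
    unfold Par at h1
    push Not at h1
    obtain ⟨i, j, hij⟩ := h1
    exact ⟨(i, j), sub_ne_zero.2 hij⟩
  choose mi hmi using hminors
  obtain ⟨S', hS'fin, hSS, hSF, hSa, hSb, hSw, hSj, hSq, hSq', hSm⟩ :
      ∃ S' : Set ℂ, S'.Finite ∧ (∀ c ∈ S, c ∈ S') ∧ (∀ i, ∀ c ∈ (F i).coeffs, c ∈ S') ∧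
        (∀ i, a i ∈ S') ∧ (∀ (b : B) i, b.1 i ∈ S') ∧ (∀ (b : B) (r : Fin (l b)) i, w b r i ∈ S') ∧
        (∀ (b : B) (r : Fin (l b)), (w b r (jj b r))⁻¹ ∈ S') ∧
        (∀ (b : B) (i : σ) (κ : Fin (l b) → σ × σ) (t : σ × σ), ∀ c ∈ (q b i κ t).coeffs, c ∈ S') ∧
        (∀ i t : σ, ∀ c ∈ (q' i t).coeffs, c ∈ S') ∧
        (∀ (x : I) (b' : B), (w x.1.1 x.1.2 (mi x b').1 * b'.1 (mi x b').2
          - w x.1.1 x.1.2 (mi x b').2 * b'.1 (mi x b').1)⁻¹ ∈ S') := by
    let T : Fin 9 → Set ℂ := ![↑S, ⋃ i, ((F i).coeffs : Set ℂ), Set.range a,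
      Set.range (fun x : B × σ => x.1.1 x.2),
      ⋃ b : B, Set.range (fun x : Fin (l b) × σ => w b x.1 x.2),
      ⋃ b : B, Set.range (fun r : Fin (l b) => (w b r (jj b r))⁻¹),
      ⋃ b : B, ⋃ x : σ × (Fin (l b) → σ × σ) × (σ × σ), ((q b x.1 x.2.1 x.2.2).coeffs : Set ℂ),
      ⋃ x : σ × σ, ((q' x.1 x.2).coeffs : Set ℂ),
      Set.range (fun x : I × B => (w x.1.1.1 x.1.1.2 (mi x.1 x.2).1 * x.2.1 (mi x.1 x.2).2
          - w x.1.1.1 x.1.1.2 (mi x.1 x.2).2 * x.2.1 (mi x.1 x.2).1)⁻¹)]
    refine ⟨⋃ z, T z, ?_, ?_, ?_, ?_, ?_, ?_, ?_, ?_, ?_, ?_⟩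
    · refine Set.finite_iUnion fun z => ?_
      fin_cases z
      · exact S.finite_toSet
      · exact Set.finite_iUnion fun i => Finset.finite_toSet _
      · exact Set.finite_range _
      · exact Set.finite_range _
      · exact Set.finite_iUnion fun b => Set.finite_range _
      · exact Set.finite_iUnion fun b => Set.finite_range _
      · exact Set.finite_iUnion fun b => Set.finite_iUnion fun x => Finset.finite_toSet _
      · exact Set.finite_iUnion fun x => Finset.finite_toSet _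
      · exact Set.finite_range _
    · intro c hc
      exact Set.mem_iUnion.2 ⟨0, hc⟩
    · intro i c hc
      exact Set.mem_iUnion.2 ⟨1, Set.mem_iUnion.2 ⟨i, hc⟩⟩
    · intro i
      exact Set.mem_iUnion.2 ⟨2, Set.mem_range.2 ⟨i, rfl⟩⟩
    · intro b i
      exact Set.mem_iUnion.2 ⟨3, Set.mem_range.2 ⟨(b, i), rfl⟩⟩
    · intro b r i
      exact Set.mem_iUnion.2 ⟨4, Set.mem_iUnion.2 ⟨b, Set.mem_range.2 ⟨(r, i), rfl⟩⟩⟩
    · intro b r
      exact Set.mem_iUnion.2 ⟨5, Set.mem_iUnion.2 ⟨b, Set.mem_range.2 ⟨r, rfl⟩⟩⟩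
    · intro b i κ t c hc
      exact Set.mem_iUnion.2 ⟨6, Set.mem_iUnion.2 ⟨b, Set.mem_iUnion.2 ⟨(i, κ, t), hc⟩⟩⟩
    · intro i t c hc
      exact Set.mem_iUnion.2 ⟨7, Set.mem_iUnion.2 ⟨(i, t), hc⟩⟩
    · intro x b'
      exact Set.mem_iUnion.2 ⟨8, Set.mem_range.2 ⟨(x, b'), rfl⟩⟩
  obtain ⟨r, Δ, g, A, instA, t, θ, ι, hM, hΔ, hg, hι, hrange, hlast⟩ :=
    exists_model hS'fin.toFinset
  have hr : ∀ c ∈ S', ∃ x, ι x = c := fun c hc => hrange c (hS'fin.mem_toFinset.2 hc)
  choose FA hFA using fun i => lift_poly ι (F i) fun c hc => hr c (hSF i c hc)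
  choose aA haA using fun i => hr _ (hSa i)
  choose bA hbA using fun (b : B) i => hr _ (hSb b i)
  choose wA hwA using fun (b : B) (r : Fin (l b)) i => hr _ (hSw b r i)
  choose jA hjA using fun (b : B) (r : Fin (l b)) => hr _ (hSj b r)
  choose qA hqA using fun (b : B) (i : σ) (κ : Fin (l b) → σ × σ) (t : σ × σ) =>
    lift_poly ι (q b i κ t) fun c hc => hr c (hSq b i κ t c hc)
  choose qA' hqA' using fun i t => lift_poly ι (q' i t) fun c hc => hr c (hSq' i t c hc)
  choose mA hmA using fun (x : I) (b' : B) => hr _ (hSm x b')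
  -- identities in `A`
  have hmapinj : Function.Injective (MvPolynomial.map (σ := σ) ι) := MvPolynomial.map_injective ι hι
  have hFhom : ∀ i, (FA i).IsHomogeneous d := by
    intro i
    apply MvPolynomial.IsHomogeneous.of_map (f := ι) hι
    rw [hFA]
    exact hF i
  have hFAι : (fun i => MvPolynomial.map ι (FA i)) = F := funext hFA
  have hjw : ∀ (b : B) (r : Fin (l b)), jA b r * wA b r (jj b r) = 1 := by
    intro b r
    apply hι
    rw [map_mul, hjA, hwA, map_one, inv_mul_cancel₀ (hjj b r)]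
  have hbone : ∀ b : B, ∃ i, bA b i = 1 := by
    intro b
    obtain ⟨i, hi⟩ := hB1 b.1 b.2
    refine ⟨i, hι ?_⟩
    rw [hbA, hi, map_one]
  have hFw : ∀ (b : B) (r : Fin (l b)), ev FA (wA b r) = bA b := by
    intro b r
    funext i
    apply hι
    have h1 := congrFun (ev_map_hom ι (wA b r) FA) i
    rw [← h1, hFAι, hbA]
    have h2 : (fun i => ι (wA b r i)) = w b r := funext (hwA b r)
    rw [h2]
    exact congrFun (hw b r).2 i
  have hFb : ∀ b : B, ∃ b' : B, Par (ev FA (bA b)) (bA b') := by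
    intro b
    obtain ⟨b', hb', c, hc⟩ := hB b.1 b.2
    refine ⟨⟨b', hb'⟩, par_of_map ι hι ?_⟩
    have h1 := ev_map_hom ι (bA b) FA
    rw [← h1, hFAι]
    have h2 : (fun i => ι (bA b i)) = b.1 := funext (hbA b)
    have h3 : (fun i => ι (bA ⟨b', hb'⟩ i)) = b' := funext (hbA ⟨b', hb'⟩)
    rw [h2, h3, hc]
    exact par_of_smul _ _
  have hcertA : ∀ (b : B) (i : σ) (κ : Fin (l b) → σ × σ),
      (X i * ∏ r, (X (κ r).1 * C (wA b r (κ r).2) - X (κ r).2 * C (wA b r (κ r).1))) ^ e b i κ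
        = ∑ t, qA b i κ t * (FA t.1 * C (bA b t.2) - FA t.2 * C (bA b t.1)) := by
    intro b i κ
    apply hmapinj
    simp only [map_pow, map_mul, map_sub, map_prod, map_sum, MvPolynomial.map_X,
      MvPolynomial.map_C, hwA, hqA, hFA, hbA]
    exact hq b i κ
  have hpowA : ∀ i : σ, (X i : MvPolynomial σ A) ^ K = ∑ t, qA' i t * FA t := by
    intro i
    apply hmapinj
    simp only [map_pow, map_mul, map_sum, MvPolynomial.map_X, hqA', hFA]
    exact hq' i
  have hmA' : ∀ (x : I) (b' : B), (wA x.1.1 x.1.2 (mi x b').1 * bA b' (mi x b').2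
          - wA x.1.1 x.1.2 (mi x b').2 * bA b' (mi x b').1) * mA x b' = 1 := by
    intro x b'
    apply hι
    simp only [map_mul, map_sub, hwA, hbA, hmA, map_one]
    exact mul_inv_cancel₀ (hmi x b')
  have hIfin : Finite I := inferInstance
  obtain ⟨n, ⟨ε⟩⟩ := Finite.exists_equiv_fin I
  refine ⟨r, Δ, g, A, instA, t, θ, ι, FA, aA, bA, n,
    fun j => jA (ε.symm j).1.1 (ε.symm j).1.2 • wA (ε.symm j).1.1 (ε.symm j).1.2,
    hM, hΔ, hg, hι, fun c hc => hr c (hSS c hc), hFhom, hFA, haA, hbA, ?_, ?_, hlast⟩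
  · intro j
    refine ⟨jj (ε.symm j).1.1 (ε.symm j).1.2, ?_⟩
    change jA _ _ * wA _ _ _ = 1
    exact hjw _ _
  · intro k instk φ
    have hjφ : ∀ (b : B) (r : Fin (l b)), φ (jA b r) * φ (wA b r (jj b r)) = 1 := by
      intro b r
      rw [← map_mul, hjw, map_one]
    have hj0 : ∀ (b : B) (r : Fin (l b)), φ (jA b r) ≠ 0 := by
      intro b r h0
      have := hjφ b r
      rw [h0, zero_mul] at this
      exact zero_ne_one this
    have hw0 : ∀ (b : B) (r : Fin (l b)), (fun i => φ (wA b r i)) ≠ 0 := by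
      intro b r h0
      have := hjφ b r
      have h1 := congrFun h0 (jj b r)
      simp only [Pi.zero_apply] at h1
      rw [h1, mul_zero] at this
      exact zero_ne_one this
    have hu : ∀ x : Σ b : B, Fin (l b), (fun i => φ ((jA x.1 x.2 • wA x.1 x.2) i))
        = φ (jA x.1 x.2) • fun i => φ (wA x.1 x.2 i) := by
      intro x
      funext i
      simp only [Pi.smul_apply, smul_eq_mul, map_mul]
    have hparw : ∀ x : Σ b : B, Fin (l b), Par (fun i => φ (wA x.1 x.2 i))
        (fun i => φ ((jA x.1 x.2 • wA x.1 x.2) i)) := by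
      intro x
      rw [hu]
      exact (par_of_smul _ _).symm
    have hFφ : ∀ x : Σ b : B, Fin (l b), Par (ev (fun i => MvPolynomial.map φ (FA i))
        fun i => φ ((jA x.1 x.2 • wA x.1 x.2) i)) (fun i => φ (bA x.1 i)) := by
      intro x
      rw [hu]
      have h1 : ev (fun i => MvPolynomial.map φ (FA i))
          (φ (jA x.1 x.2) • fun i => φ (wA x.1 x.2 i))
          = (φ (jA x.1 x.2)) ^ d • fun i => φ (bA x.1 i) := by
        funext i
        have h2 : ((FA i).map φ).IsHomogeneous d := (hFhom i).map φ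
        change eval _ _ = _
        rw [eval_smul_hom h2, Pi.smul_apply, smul_eq_mul]
        congr 1
        rw [eval_map_hom]
        exact congrArg φ (congrFun (hFw x.1 x.2) i)
      rw [h1]
      exact par_of_smul _ _
    refine ⟨?_, ?_, ?_, ?_, ?_, ?_⟩
    · intro x hx
      funext i
      have h1 := congrArg (fun P => eval x (MvPolynomial.map φ P)) (hpowA i)
      simp only [map_pow, map_mul, map_sum, MvPolynomial.map_X, eval_X, hx, mul_zero,
        Finset.sum_const_zero] at h1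
      exact pow_eq_zero_iff (by omega : K ≠ 0) |>.1 h1
    · intro b h0
      obtain ⟨i, hi⟩ := hbone b
      have h1 := congrFun h0 i
      simp only [hi, map_one, Pi.zero_apply] at h1
      exact one_ne_zero h1
    · intro b
      obtain ⟨b', hb'⟩ := hFb b
      refine ⟨b', ?_⟩
      rw [ev_map_hom]
      exact par_map φ hb'
    · intro j b hP
      have h1 := (hparw (ε.symm j).1).trans (fun h0 => ?_) hP
      · have h2 := h1 (mi (ε.symm j) b).1 (mi (ε.symm j) b).2
        have h3 := congrArg φ (hmA' (ε.symm j) b)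
        simp only [map_mul, map_sub, map_one] at h3
        rw [sub_eq_zero.2 h2, zero_mul] at h3
        exact zero_ne_one h3
      · rw [hu] at h0
        rcases smul_eq_zero.1 h0 with h | h
        · exact hj0 _ _ h
        · exact hw0 _ _ h
    · intro j
      exact ⟨(ε.symm j).1.1, hFφ (ε.symm j).1⟩
    · intro x hx b hP
      obtain ⟨i, hi⟩ := Function.ne_iff.1 hx
      rw [Pi.zero_apply] at hi
      have hex : ∃ r : Fin (l b), Par x (fun i => φ (wA b r i)) := by
        by_contra hcon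
        push Not at hcon
        have h1 : ∀ r : Fin (l b), ∃ κ : σ × σ,
            x κ.1 * φ (wA b r κ.2) - x κ.2 * φ (wA b r κ.1) ≠ 0 := by
          intro r
          have h2 := hcon r
          unfold Par at h2
          push Not at h2
          obtain ⟨i, j, hij⟩ := h2
          exact ⟨(i, j), sub_ne_zero.2 hij⟩
        choose κ hκ using h1
        have h3 := congrArg (fun P => eval x (MvPolynomial.map φ P)) (hcertA b i κ)
        simp only [map_pow, map_mul, map_sub, map_prod, map_sum, MvPolynomial.map_X,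
          MvPolynomial.map_C, eval_X, eval_C] at h3
        have h4 : ∀ t : σ × σ, eval x (MvPolynomial.map φ (FA t.1)) * φ (bA b t.2)
            - eval x (MvPolynomial.map φ (FA t.2)) * φ (bA b t.1) = 0 :=
          fun t => sub_eq_zero.2 (hP t.1 t.2)
        rw [Finset.sum_eq_zero (fun t _ => by rw [h4 t, mul_zero])] at h3
        exact pow_ne_zero _ (mul_ne_zero hi (Finset.prod_ne_zero_iff.2 fun r _ => hκ r)) h3
      obtain ⟨r, hr'⟩ := hex
      by_cases hI : ∀ b' : B, ¬ Par (w b r) b'.1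
      · right
        refine ⟨ε ⟨⟨b, r⟩, hI⟩, ?_⟩
        beta_reduce
        rw [Equiv.symm_apply_apply]
        exact hr'.trans (hw0 b r) (hparw ⟨b, r⟩)
      · left
        push Not at hI
        obtain ⟨b', hb'⟩ := hI
        refine ⟨b', hr'.trans (hw0 b r) (par_map φ (par_of_map ι hι ?_))⟩
        have h2 : (fun i => ι (wA b r i)) = w b r := funext (hwA b r)
        have h3 : (fun i => ι (bA b' i)) = b'.1 := funext (hbA b')
        rw [h2, h3]
        exact hb'

end Pool.Agent.Helper30.AV
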