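import Pool.Agent.Helper30.AV.Defs

/-!
# AV-Loc: homomorphisms of a model into a domain and into a residue field

`compat_of_point`: `O` a domain inside the field `K`, `π : O → k` a homomorphism to a field, `(τ, x)` a
point of the model with coordinates in `O` (the `τ i` integers) such that `π (Δ(τ)) ≠ 0`. Let `M₀` be the
submonoid `{z | π z ≠ 0}` of `O`, `L = Localization M₀`, `j : L → K`, `res : L → k` the extensions of
`algebraMap O K` (`z ∈ M₀` is non-zero) and of `π`. `(τ, x)` is a point of the model over `L`, so there is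
`ŝ : A → L`; put `s = j ∘ ŝ`, `ψ = res ∘ ŝ`. A relation `y = ∑ q_j s(a_j)` in `K` is a relation in
`L` because `j` is injective; apply `res`.
-/

set_option autoImplicit false

namespace Pool.Agent.Helper30.AV

open MvPolynomial

theorem ez_cast {r : ℕ} {T : Type*} [CommRing T] (τ : Fin r → ℤ) (P : MvPolynomial (Fin r) ℤ) :
    ez (fun i => ((τ i : ℤ) : T)) P = ((ez τ P : ℤ) : T) := by
  have h1 : (ez fun i => ((τ i : ℤ) : T)) = (Int.castRingHom T).comp (ez τ) := by
    apply MvPolynomial.ringHom_ext
    · intro a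
      simp [ez]
    · intro i
      simp [ez]
  rw [h1]
  rfl

theorem ez_map {r : ℕ} {T T' : Type*} [CommRing T] [CommRing T'] (f : T →+* T') (τ : Fin r → ℤ)
    (P : MvPolynomial (Fin r) ℤ) :
    ez (fun i => ((τ i : ℤ) : T')) P = f (ez (fun i => ((τ i : ℤ) : T)) P) := by
  rw [ez_cast, ez_cast, map_intCast]

theorem compat_of_point {r : ℕ} {Δ : MvPolynomial (Fin r) ℤ}
    {g : Polynomial (MvPolynomial (Fin r) ℤ)} {A : Type} [CommRing A] {t : Fin r → A} {θ : A}
    (hA : IsModel Δ g t θ) {O K k : Type} [CommRing O] [Field K] [Field k] [Algebra O K]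
    (hOK : Function.Injective (algebraMap O K)) (π : O →+* k) (τ : Fin r → ℤ) (x : O)
    (hx : g.eval₂ (ez fun i => (τ i : O)) x = 0) (hΔ : (ez τ Δ : k) ≠ 0) :
    ∃ (s : A →+* K) (ψ : A →+* k), Compat π s ψ ∧ (∀ i, s (t i) = τ i) ∧
      s θ = algebraMap O K x ∧ (∀ i, ψ (t i) = τ i) ∧ ψ θ = π x := by
  let P : Ideal O := RingHom.ker π
  have hP : P.IsPrime := RingHom.ker_isPrime π
  let L := Localization P.primeCompl
  have hu1 : ∀ z : P.primeCompl, IsUnit (algebraMap O K z) := by
    intro z
    rw [isUnit_iff_ne_zero]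
    intro h0
    have h1 : (z : O) = 0 := hOK (by rw [h0, map_zero])
    apply z.2
    rw [h1]
    exact P.zero_mem
  have hu2 : ∀ z : P.primeCompl, IsUnit (π z) := by
    intro z
    rw [isUnit_iff_ne_zero]
    exact z.2
  let j : L →+* K := IsLocalization.lift hu1
  let res : L →+* k := IsLocalization.lift hu2
  have hj : ∀ a : O, j (algebraMap O L a) = algebraMap O K a := fun a => IsLocalization.lift_eq hu1 a
  have hres : ∀ a : O, res (algebraMap O L a) = π a := fun a => IsLocalization.lift_eq hu2 a
  have hjinj : Function.Injective j := by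
    rw [injective_iff_map_eq_zero]
    intro z hz
    obtain ⟨⟨a, m⟩, ham⟩ := IsLocalization.surj P.primeCompl z
    have h1 : j z * algebraMap O K m = algebraMap O K a := by
      rw [← hj, ← hj, ← map_mul]
      exact congrArg j ham
    rw [hz, zero_mul] at h1
    have h2 : a = 0 := hOK (by rw [← h1, map_zero])
    have h3 : z * algebraMap O L m = 0 := by
      have h4 : z * algebraMap O L m = algebraMap O L a := ham
      rw [h4, h2, map_zero]
    exact (IsLocalization.map_units L m).mul_left_eq_zero.1 h3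
  have hunit : IsUnit (ez (fun i => ((τ i : ℤ) : L)) Δ) := by
    rw [ez_map (algebraMap O L)]
    have h1 : ez (fun i => ((τ i : ℤ) : O)) Δ ∈ P.primeCompl := by
      intro h2
      apply hΔ
      have h3 : π (ez (fun i => ((τ i : ℤ) : O)) Δ) = 0 := h2
      rw [← ez_map π, ez_cast] at h3
      exact h3
    exact IsLocalization.map_units L (⟨_, h1⟩ : P.primeCompl)
  have hroot : g.eval₂ (ez fun i => ((τ i : ℤ) : L)) (algebraMap O L x) = 0 := by
    have h1 : (ez fun i => ((τ i : ℤ) : L)) = (algebraMap O L).comp (ez fun i => (τ i : O)) := by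
      exact RingHom.ext fun P => ez_map (algebraMap O L) τ P
    rw [h1, ← Polynomial.hom_eval₂, hx, map_zero]
  obtain ⟨sh, hsh1, hsh2⟩ := hA.lift L (fun i => ((τ i : ℤ) : L)) (algebraMap O L x) hunit hroot
  refine ⟨j.comp sh, res.comp sh, ?_, ?_, ?_, ?_, ?_⟩
  · intro ι _ y q a h
    have h1 : algebraMap O L y = ∑ i, algebraMap O L (q i) * sh (a i) := by
      apply hjinj
      rw [hj, h, map_sum]
      refine Finset.sum_congr rfl fun i _ => ?_
      rw [map_mul, hj]
      rfl
    have h2 := congrArg res h1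
    rw [hres, map_sum] at h2
    rw [h2]
    refine Finset.sum_congr rfl fun i _ => ?_
    rw [map_mul, hres]
    rfl
  · intro i
    rw [RingHom.comp_apply, hsh1, map_intCast]
  · rw [RingHom.comp_apply, hsh2, hj]
  · intro i
    rw [RingHom.comp_apply, hsh1, map_intCast]
  · rw [RingHom.comp_apply, hsh2, hres]

end Pool.Agent.Helper30.AV
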