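import Pool.Agent.Helper30.AV.Defs
import Pool.Agent.Helper30.AV.Loc

/-!
# AV-Large: homomorphisms of the model to `ZMod p` for split primes

`K` a Galois number field, `(τ, x)` a point of the model in `𝓞 K`, `τ i ∈ ℤ`, `P` a prime above `p` with
decomposition group generated by `σ`, `σ x = x`, `p ∤ Δ(τ)`. There is a Frobenius element `f` at `P`
(`IsArithFrobAt.exists_of_isInvariant` for `ℤ ⊆ 𝓞 K`; it lies in the stabilizer of `P`, so it
is a power of `σ` and fixes `x`): `x ≡ x ^ p mod P`, so `x ≡ n mod P` with `n ∈ ℤ` (the zeros of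
`X ^ p - X` in the field `k` are the elements of the prime field, `ZMod p`). `g(τ, n) ≡ 0 mod p`, so `lift`
with `T = ZMod p` gives `ψ`. `compat_of_point` gives compatible `s', ψ'`; `s' = s` and
`ψ' = ρ ∘ ψ` by `ext`.
-/

set_option autoImplicit false

namespace Pool.Agent.Helper30.AV

open MvPolynomial NumberField
open scoped Pointwise

/-- A Frobenius at `P` is a power of `σ`, so `x` is congruent to its `p`-th power. -/
theorem pow_sub_mem {K : Type} [Field K] [NumberField K] [IsGalois ℚ K] (x : 𝓞 K)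
    (σ : K ≃ₐ[ℚ] K) (hσx : σ (x : K) = x) (p : ℕ) [Fact p.Prime] (P : Ideal (𝓞 K))
    [P.IsPrime] (hpP : (p : 𝓞 K) ∈ P)
    (hstab : MulAction.stabilizer (K ≃ₐ[ℚ] K) P = Subgroup.zpowers σ) :
    x - x ^ p ∈ P := by
  have hp : p.Prime := Fact.out
  have hP0 : P ≠ ⊥ := by
    rintro rfl
    rw [Ideal.mem_bot, Nat.cast_eq_zero] at hpP
    exact hp.ne_zero hpP
  have hfin : Finite (𝓞 K ⧸ P) := Ideal.finiteQuotientOfFreeOfNeBot P hP0
  obtain ⟨f, hf⟩ := IsArithFrobAt.exists_of_isInvariant (R := ℤ) (G := K ≃ₐ[ℚ] K) (Q := P)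
  have h1 : f ∈ MulAction.stabilizer (K ≃ₐ[ℚ] K) P := IsArithFrobAt.mem_stabilizer hf
  rw [hstab] at h1
  have h2 : f • x = x := by
    have h3 : σ ∈ MulAction.stabilizer (K ≃ₐ[ℚ] K) x := by
      rw [MulAction.mem_stabilizer_iff]
      apply RingOfIntegers.coe_injective
      exact hσx
    have h4 : Subgroup.zpowers σ ≤ MulAction.stabilizer (K ≃ₐ[ℚ] K) x := by
      rw [Subgroup.zpowers_le]
      exact h3
    exact MulAction.mem_stabilizer_iff.1 (h4 h1)
  have h5 : P.under ℤ = Ideal.span {(p : ℤ)} := by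
    have hmax : (Ideal.span {(p : ℤ)}).IsMaximal := by
      apply PrincipalIdealRing.isMaximal_of_irreducible
      exact (Nat.prime_iff_prime_int.1 hp).irreducible
    symm
    apply hmax.eq_of_le
    · exact Ideal.IsPrime.ne_top inferInstance
    · rw [Ideal.span_singleton_le_iff_mem, Ideal.mem_comap]
      simpa using hpP
  have h6 : Nat.card (ℤ ⧸ P.under ℤ) = p := by
    rw [h5, Nat.card_congr (Int.quotientSpanNatEquivZMod p).toEquiv, Nat.card_zmod]
  have h7 := hf x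
  rw [h6] at h7
  have h8 : (MulSemiringAction.toAlgHom ℤ (𝓞 K) f) x = x := h2
  rw [h8] at h7
  exact h7

theorem large_prime {r : ℕ} {Δ : MvPolynomial (Fin r) ℤ}
    {g : Polynomial (MvPolynomial (Fin r) ℤ)} {A : Type} [CommRing A] {t : Fin r → A} {θ : A}
    (hA : IsModel Δ g t θ) {K : Type} [Field K] [NumberField K] [IsGalois ℚ K] (τ : Fin r → ℤ)
    (x : 𝓞 K) (hx : g.eval₂ (ez fun i => (τ i : 𝓞 K)) x = 0)
    (s : A →+* K) (hst : ∀ i, s (t i) = τ i) (hsθ : s θ = (x : K))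
    (σ : K ≃ₐ[ℚ] K) (hσx : σ (x : K) = x) (p : ℕ) [Fact p.Prime] (P : Ideal (𝓞 K))
    [P.IsPrime] (hpP : (p : 𝓞 K) ∈ P)
    (hstab : MulAction.stabilizer (K ≃ₐ[ℚ] K) P = Subgroup.zpowers σ)
    (hpΔ : ¬ (p : ℤ) ∣ ez τ Δ) (k : Type) [Field k] (π : 𝓞 K →+* k)
    (hπ : ∀ y, π y = 0 ↔ y ∈ P) (ρ : ZMod p →+* k) :
    ∃ ψ : A →+* ZMod p, Compat π s (ρ.comp ψ) := by
  have h1 := pow_sub_mem x σ hσx p P hpP hstab
  have hchar : CharP k p := charP_of_injective_ringHom ρ.injective p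
  have h2 : π x ^ p = π x := by
    have h3 := (hπ _).2 h1
    rw [map_sub, map_pow, sub_eq_zero] at h3
    exact h3.symm
  obtain ⟨n, hn⟩ : ∃ n : ZMod p, ρ n = π x := by
    have h3 : π x ∈ (⊥ : Subfield k) := (Subfield.mem_bot_iff_pow_eq_self k p).2 h2
    rw [← ZMod.fieldRange_castHom_eq_bot p] at h3
    obtain ⟨n, hn⟩ := h3
    refine ⟨n, ?_⟩
    rw [← hn]
    exact congrArg (fun f : ZMod p →+* k => f n) (Subsingleton.elim ρ _)
  have hΔz : ((ez τ Δ : ℤ) : ZMod p) ≠ 0 := by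
    rw [Ne, ZMod.intCast_zmod_eq_zero_iff_dvd]
    exact hpΔ
  have hunit : IsUnit (ez (fun i => ((τ i : ℤ) : ZMod p)) Δ) := by
    rw [ez_cast]
    exact isUnit_iff_ne_zero.2 hΔz
  have hroot : g.eval₂ (ez fun i => ((τ i : ℤ) : ZMod p)) n = 0 := by
    apply ρ.injective
    rw [Polynomial.hom_eval₂, hn, map_zero]
    have h3 : ρ.comp (ez fun i => ((τ i : ℤ) : ZMod p)) = π.comp (ez fun i => (τ i : 𝓞 K)) := by
      apply RingHom.ext
      intro q
      rw [RingHom.comp_apply, RingHom.comp_apply, ← ez_map, ← ez_map]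
    rw [h3, ← Polynomial.hom_eval₂, hx, map_zero]
  obtain ⟨ψ, hψ1, hψ2⟩ := hA.lift (ZMod p) (fun i => ((τ i : ℤ) : ZMod p)) n hunit hroot
  have hΔk : ((ez τ Δ : ℤ) : k) ≠ 0 := by
    intro h3
    apply hΔz
    apply ρ.injective
    rw [map_intCast, map_zero, h3]
  obtain ⟨s', ψ', hc, hs1, hs2, hp1, hp2⟩ := compat_of_point hA (O := 𝓞 K) (K := K) (k := k)
    RingOfIntegers.coe_injective π τ x hx hΔk
  refine ⟨ψ, ?_⟩
  have e1 : s' = s := hA.ext K s' s (fun i => by rw [hs1, hst]) (by rw [hs2, hsθ])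
  have e2 : ψ' = ρ.comp ψ := by
    apply hA.ext k
    · intro i
      rw [hp1, RingHom.comp_apply, hψ1, map_intCast]
    · rw [hp2, RingHom.comp_apply, hψ2, hn]
  rw [← e1, ← e2]
  exact hc

end Pool.Agent.Helper30.AV
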