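import Pool.Agent.Helper30.AV.Defs
import Pool.Agent.Helper33.SS.Iso
import Pool.Agent.Helper38.Dml.PadicExt
import Pool.Agent.Helper38.Dml.Embed

/-!
# AV-Model: finitely generated rings of complex numbers

`exists_model`. Let `K₀ = ℚ(S) ⊆ ℂ` (a finitely generated field). Follow the proof of
`Helper33.SS.exists_padic_int` (file `Helper33/SS/Emb.lean`): a transcendence basis
`x : Fin r → K₀` inside `S`, `P = MvPolynomial (Fin r) ℤ`, `Q = FractionRing P`, `K₀` finite separable
over `Q`, primitive element; multiply it by a non-zero element of `P` such that it becomes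
integral over `P` (`exists_integral_multiple`): call it `θ`. `g := minpoly P θ` is monic and
`g.map (algebraMap P Q) = minpoly Q θ` (`P` is a UFD, so integrally closed:
`minpoly.isIntegrallyClosed_eq_field_fractions`). Separability of `minpoly Q θ` and clearing of
denominators (cf. `Helper38.Dml.exists_clear`) give `U * g + V * g' = C E`, `E ≠ 0`. Every
`c ∈ S` is `∑ j (n_j / D_c) θ ^ j`; `Δ := E * ∏ D_c`. `A := P[1/Δ][X]/(g)`, e.g.
`AdjoinRoot (g.map (algebraMap P (Localization.Away Δ)))`; `t`, `θ` the images of the variables.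
* `unit`, `root`, `lift`, `ext`: universal properties (`IsLocalization.Away.lift`, `AdjoinRoot.lift`,
  `IsLocalization.ringHom_ext`, `AdjoinRoot.ringHom_ext`).
* `ι : A → ℂ` by the universal property; injective: an element of `A` is `mk q` with
  `deg q < deg g` (`modByMonic`), and `q(θ) = 0` in `K₀` forces `minpoly Q θ ∣ q`, so `q = 0`.
* `norm`: `A` is a domain (injects into `ℂ`) and integral over `P[1/Δ]`, so a non-zero `h` divides
  a non-zero element of `P[1/Δ]` (`IsAlgebraic.exists_nonzero_dvd`), which is a unit times an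
  element of `P`.
* `S ⊆ range ι` by the choice of `Δ`.
* last statement: `ψ₀ : A → ZMod p`; integers `τ i` congruent to `ψ₀ (t i)`;
  `s : Fin r → ℤ_[p]` algebraically independent with `s i ≡ τ i` (`exists_algebraicIndependent_near`);
  `n ∈ ℤ` congruent to `ψ₀ θ`; Hensel's lemma for `g(s, X)` at `n` (derivative a unit by `bez`):
  root `z ≡ n`. `lift` with `T = ℤ_[p]` gives `φ : A → ℤ_[p]`, `toZMod ∘ φ = ψ₀` by `ext`; `φ` is
  injective by `norm` and the algebraic independence. So `φ` extends to `FractionRing A ≅` the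
  subfield of `ℂ` generated by `ι A`, which is countable; `exists_iso_extending`.
-/

set_option autoImplicit false

namespace Pool.Agent.Helper30.AV

open MvPolynomial

/-- composition of a homomorphism with an evaluation -/
theorem model_comp_ez {r : ℕ} {T T' : Type*} [CommRing T] [CommRing T'] (f : T →+* T')
    (τ : Fin r → T) (τ' : Fin r → T') (h : ∀ i, f (τ i) = τ' i) : f.comp (ez τ) = ez τ' := by
  apply MvPolynomial.ringHom_ext
  · intro c
    simp [ez]
  · intro i
    simp [ez, h i]

theorem model_ez_X {r : ℕ} {T : Type*} [CommRing T] (τ : Fin r → T) (i : Fin r) :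
    ez τ (X i) = τ i := eval₂Hom_X' _ _ _

/-- the model: localise and adjoin a root -/
theorem model_core {K : Type} [Field K] {r : ℕ} (x : Fin r → K)
    (hx : Function.Injective (ez x : MvPolynomial (Fin r) ℤ →+* K))
    (g : Polynomial (MvPolynomial (Fin r) ℤ)) (hg : g.Monic) (hdeg : 0 < g.natDegree)
    (Δ : MvPolynomial (Fin r) ℤ) (hΔ : Δ ≠ 0)
    (hbez : ∃ U V : Polynomial (MvPolynomial (Fin r) ℤ),
      U * g + V * Polynomial.derivative g = Polynomial.C Δ)
    (θ : K) (hθ : g.eval₂ (ez x) θ = 0)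
    (hmin : ∀ q : Polynomial (MvPolynomial (Fin r) ℤ), q.eval₂ (ez x) θ = 0 →
      q.natDegree < g.natDegree → q = 0) :
    ∃ (A : Type) (_ : CommRing A) (t : Fin r → A) (ϑ : A) (ι : A →+* K),
      IsModel Δ g t ϑ ∧ Function.Injective ι ∧ (∀ i, ι (t i) = x i) ∧ ι ϑ = θ := by
  classical
  let P := MvPolynomial (Fin r) ℤ
  let L := Localization.Away Δ
  have hinjL : Function.Injective (algebraMap P L) :=
    IsLocalization.injective L (powers_le_nonZeroDivisors_of_noZeroDivisors hΔ)
  set G : Polynomial L := g.map (algebraMap P L) with hG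
  have hGm : G.Monic := hg.map _
  have : Nontrivial L := hinjL.nontrivial
  have hGdeg : G.natDegree = g.natDegree := hg.natDegree_map _
  set t : Fin r → AdjoinRoot G := fun i => AdjoinRoot.of G (algebraMap P L (X i)) with ht
  have hezt : (AdjoinRoot.of G).comp (algebraMap P L) = ez t := by
    apply MvPolynomial.ringHom_ext
    · intro c
      simp [ez]
    · intro i
      simp [ez, ht]
  have hxΔ : IsUnit (ez x Δ) := by
    rw [isUnit_iff_ne_zero]
    intro h
    exact hΔ (hx (h.trans (map_zero _).symm))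
  set l : L →+* K := IsLocalization.Away.lift Δ hxΔ with hl
  have hl2 : l.comp (algebraMap P L) = ez x := IsLocalization.Away.lift_comp Δ hxΔ
  have hroot : G.eval₂ l θ = 0 := by
    rw [hG, Polynomial.eval₂_map, hl2]
    exact hθ
  set ι : AdjoinRoot G →+* K := AdjoinRoot.lift l θ hroot with hι
  have hιinj : Function.Injective ι := by
    rw [injective_iff_map_eq_zero]
    intro a ha
    obtain ⟨q, rfl⟩ := AdjoinRoot.mk_surjective a
    have h1 : AdjoinRoot.mk G q = AdjoinRoot.mk G (q %ₘ G) := by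
      rw [AdjoinRoot.mk_eq_mk]
      refine ⟨q /ₘ G, ?_⟩
      have := Polynomial.modByMonic_add_div q G
      linear_combination (-1 : Polynomial L) * this
    rw [h1] at ha ⊢
    have hqd : (q %ₘ G).natDegree < G.natDegree :=
      Polynomial.natDegree_modByMonic_lt q hGm (by
        intro h
        rw [h, Polynomial.natDegree_one] at hGdeg
        omega)
    generalize q %ₘ G = q' at ha hqd
    rw [hι, AdjoinRoot.lift_mk] at ha
    obtain ⟨b, hb, hq⟩ := IsLocalization.integerNormalization_spec (Submonoid.powers Δ) q'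
    set q'' := IsLocalization.integerNormalization (Submonoid.powers Δ) q' with hq''
    have hq2 : q''.map (algebraMap P L) = Polynomial.C (algebraMap P L b) * q' := by
      rw [hq]
      ext n
      rw [Polynomial.coeff_smul, Polynomial.coeff_C_mul, Algebra.smul_def]
    have h2 : q''.eval₂ (ez x) θ = 0 := by
      rw [← hl2, ← Polynomial.eval₂_map, hq2, Polynomial.eval₂_mul, ha, mul_zero]
    have h3 : q''.natDegree < g.natDegree := by
      have h4 : (q''.map (algebraMap P L)).natDegree = q''.natDegree :=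
        Polynomial.natDegree_map_eq_of_injective hinjL q''
      rw [← h4, hq2, ← hGdeg]
      exact lt_of_le_of_lt (Polynomial.natDegree_C_mul_le _ _) hqd
    have h5 := hmin _ h2 h3
    rw [h5, Polynomial.map_zero] at hq2
    have hbu : IsUnit (algebraMap P L b) := IsLocalization.map_units L (⟨b, hb⟩ : Submonoid.powers Δ)
    have h6 : q' = 0 := by
      obtain ⟨u, hu⟩ := hbu
      have h7 : Polynomial.C (↑u⁻¹ : L) * (Polynomial.C (algebraMap P L b) * q') = q' := by
        rw [← mul_assoc, ← Polynomial.C_mul, ← hu, Units.inv_mul, Polynomial.C_1, one_mul]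
      rw [← h7, ← hq2, mul_zero]
    rw [h6, map_zero]
  have hιt : ∀ i, ι (t i) = x i := by
    intro i
    rw [hι, ht]
    change AdjoinRoot.lift l θ hroot (AdjoinRoot.of G (algebraMap P L (X i))) = _
    rw [AdjoinRoot.lift_of]
    have := congrArg (fun f : P →+* K => f (X i)) hl2
    simp only [RingHom.comp_apply] at this
    rw [this]
    exact model_ez_X x i
  refine ⟨AdjoinRoot G, inferInstance, t, AdjoinRoot.root G, ι, ?_, hιinj, hιt, ?_⟩
  · refine ⟨hg, hbez, ?_, ?_, ?_, ?_, ?_⟩
    · rw [← hezt]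
      exact (IsLocalization.Away.algebraMap_isUnit (S := L) Δ).map (AdjoinRoot.of G)
    · rw [← hezt, ← Polynomial.eval₂_map]
      exact AdjoinRoot.eval₂_root G
    · intro T _ τ y hu hy
      have h1 : (IsLocalization.Away.lift (S := L) Δ hu).comp (algebraMap P L) = ez τ :=
        IsLocalization.Away.lift_comp Δ hu
      refine ⟨AdjoinRoot.lift (IsLocalization.Away.lift (S := L) Δ hu) y ?_, ?_, ?_⟩
      · rw [hG, Polynomial.eval₂_map, h1]
        exact hy
      · intro i
        change AdjoinRoot.lift _ _ _ (AdjoinRoot.of G (algebraMap P L (X i))) = _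
        rw [AdjoinRoot.lift_of]
        have := congrArg (fun f : P →+* T => f (X i)) h1
        simp only [RingHom.comp_apply] at this
        rw [this]
        exact model_ez_X τ i
      · rw [AdjoinRoot.lift_root]
    · intro T _ ψ ψ' h1 h2
      have h3 : ψ.comp (AdjoinRoot.mk G) = ψ'.comp (AdjoinRoot.mk G) := by
        apply Polynomial.ringHom_ext'
        · apply IsLocalization.ringHom_ext (Submonoid.powers Δ)
          apply MvPolynomial.ringHom_ext
          · intro c
            simp
          · intro i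
            exact h1 i
        · exact h2
      apply RingHom.ext
      intro a
      obtain ⟨q, rfl⟩ := AdjoinRoot.mk_surjective a
      exact congrArg (fun f : Polynomial L →+* T => f q) h3
    · intro h hh
      have : IsDomain (AdjoinRoot G) := hιinj.isDomain ι
      have : Module.Finite L (AdjoinRoot G) := hGm.finite_adjoinRoot
      have h1 : IsIntegral L h := Algebra.IsIntegral.isIntegral h
      obtain ⟨c, hc, hdvd⟩ := h1.isAlgebraic.exists_nonzero_dvd (mem_nonZeroDivisors_of_ne_zero hh)
      obtain ⟨⟨a, m⟩, ham⟩ := IsLocalization.surj (Submonoid.powers Δ) c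
      simp only at ham
      refine ⟨a, ?_, ?_⟩
      · rintro rfl
        rw [map_zero] at ham
        have hmu : IsUnit (algebraMap P L (m : P)) := IsLocalization.map_units L m
        exact hc (hmu.mul_left_eq_zero.1 ham)
      · rw [← hezt]
        change h ∣ AdjoinRoot.of G (algebraMap P L a)
        rw [← ham, map_mul]
        exact Dvd.dvd.mul_right hdvd _
  · rw [hι, AdjoinRoot.lift_root]

/-- homomorphisms of a model to `ZMod p` lift to embeddings in the `p`-adic integers -/
theorem model_padic {r : ℕ} {Δ : MvPolynomial (Fin r) ℤ}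
    {g : Polynomial (MvPolynomial (Fin r) ℤ)} {A : Type} [CommRing A] {t : Fin r → A} {θ : A}
    (hM : IsModel Δ g t θ) (p : ℕ) [Fact p.Prime] (ψ₀ : A →+* ZMod p) :
    ∃ φ : A →+* ℤ_[p], Function.Injective φ ∧ ∀ a, PadicInt.toZMod (φ a) = ψ₀ a := by
  have hτ : ∀ i, ∃ n : ℤ, (n : ZMod p) = ψ₀ (t i) := fun i => ZMod.intCast_surjective _
  choose τ hτ using hτ
  obtain ⟨n, hn⟩ := ZMod.intCast_surjective (ψ₀ θ)
  obtain ⟨s, hs, hsτ⟩ := Pool.Agent.Helper38.Dml.exists_algebraicIndependent_near p r τ
  have hmod : (PadicInt.toZMod (p := p)).comp (ez s) = ψ₀.comp (ez t) := by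
    rw [model_comp_ez (PadicInt.toZMod (p := p)) s (fun i => ψ₀ (t i))
      (fun i => by rw [hsτ i, hτ i]), model_comp_ez ψ₀ t (fun i => ψ₀ (t i)) (fun i => rfl)]
  have hnorm : ∀ x : ℤ_[p], PadicInt.toZMod x = 0 ↔ ‖x‖ < 1 := by
    intro x
    rw [← RingHom.mem_ker, PadicInt.ker_toZMod, IsLocalRing.mem_maximalIdeal, PadicInt.mem_nonunits]
  have hmodq : ∀ q : Polynomial (MvPolynomial (Fin r) ℤ),
      PadicInt.toZMod ((q.map (ez s)).eval (n : ℤ_[p])) = ψ₀ (q.eval₂ (ez t) θ) := by
    intro q
    rw [Polynomial.eval_map, Polynomial.hom_eval₂, hmod, Polynomial.hom_eval₂, map_intCast, hn]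
  have hΔu : PadicInt.toZMod (ez s Δ) ≠ 0 := by
    have h1 := congrArg (fun f : MvPolynomial (Fin r) ℤ →+* ZMod p => f Δ) hmod
    simp only [RingHom.comp_apply] at h1
    rw [h1]
    exact (hM.unit.map ψ₀).ne_zero
  have h1 : PadicInt.toZMod ((g.map (ez s)).eval (n : ℤ_[p])) = 0 := by
    rw [hmodq, hM.root, map_zero]
  have h2 : PadicInt.toZMod ((Polynomial.derivative (g.map (ez s))).eval (n : ℤ_[p])) ≠ 0 := by
    intro h0
    obtain ⟨U, V, hUV⟩ := hM.bez
    have h3 := congrArg (fun q : Polynomial (MvPolynomial (Fin r) ℤ) =>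
      PadicInt.toZMod ((q.map (ez s)).eval (n : ℤ_[p]))) hUV
    simp only [Polynomial.map_add, Polynomial.map_mul, Polynomial.eval_add, Polynomial.eval_mul,
      map_add, map_mul] at h3
    rw [h1, ← Polynomial.derivative_map, h0, mul_zero, mul_zero, add_zero, Polynomial.map_C,
      Polynomial.eval_C] at h3
    exact hΔu h3.symm
  have h3 : ‖(Polynomial.derivative (g.map (ez s))).eval (n : ℤ_[p])‖ = 1 :=
    le_antisymm (PadicInt.norm_le_one _) (not_lt.1 (mt (hnorm _).2 h2))
  obtain ⟨z, hz, hz2, -⟩ := hensels_lemma (F := g.map (ez s)) (a := (n : ℤ_[p])) (by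
    rw [Polynomial.coe_aeval_eq_eval, h3, one_pow]
    exact (hnorm _).1 h1)
  rw [Polynomial.coe_aeval_eq_eval] at hz hz2
  rw [h3] at hz2
  have hzmod : PadicInt.toZMod z = ψ₀ θ := by
    have h4 : PadicInt.toZMod (z - (n : ℤ_[p])) = 0 := (hnorm _).2 hz2
    rw [map_sub, map_intCast, hn] at h4
    exact sub_eq_zero.1 h4
  have hsu : IsUnit (ez s Δ) := by
    rw [PadicInt.isUnit_iff]
    exact le_antisymm (PadicInt.norm_le_one _) (not_lt.1 (mt (hnorm _).2 hΔu))
  obtain ⟨φ, hφt, hφθ⟩ := hM.lift ℤ_[p] s z hsu (by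
    rw [← Polynomial.eval_map]
    exact hz)
  refine ⟨φ, ?_, ?_⟩
  · rw [injective_iff_map_eq_zero]
    intro h hh
    by_contra hne
    obtain ⟨D, hD, hdvd⟩ := hM.norm h hne
    have h4 : ez s D = 0 := by
      have h5 := (map_dvd φ hdvd)
      rw [hh, zero_dvd_iff] at h5
      have h6 := congrArg (fun f : MvPolynomial (Fin r) ℤ →+* ℤ_[p] => f D)
        (model_comp_ez φ t s hφt)
      simp only [RingHom.comp_apply] at h6
      rw [← h6, h5]
    apply hD
    have h7 : (PadicInt.Coe.ringHom (p := p)).comp (ez s) =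
        (MvPolynomial.aeval (fun i => (s i : ℚ_[p])) :
        MvPolynomial (Fin r) ℤ →ₐ[ℤ] ℚ_[p]).toRingHom := by
      apply MvPolynomial.ringHom_ext
      · intro c
        simp [ez]
      · intro i
        have h5 : (PadicInt.Coe.ringHom (p := p)) (s i) = (s i : ℚ_[p]) := rfl
        simp [ez, h5]
    have h8 : MvPolynomial.aeval (fun i => (s i : ℚ_[p])) D = (0 : ℚ_[p]) := by
      have h9 := congrArg (fun f : MvPolynomial (Fin r) ℤ →+* ℚ_[p] => f D) h7
      simp only [RingHom.comp_apply] at h9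
      rw [h4, map_zero] at h9
      exact h9.symm
    exact hs (h8.trans (map_zero _).symm)
  · intro a
    have h4 := hM.ext (ZMod p) ((PadicInt.toZMod (p := p)).comp φ) ψ₀ (fun i => by
      rw [RingHom.comp_apply, hφt, hsτ, hτ]) (by
      rw [RingHom.comp_apply, hφθ, hzmod])
    exact congrArg (fun f : A →+* ZMod p => f a) h4

/-- an embedding of a countable subring of `ℂ` in the `p`-adic integers extends to an isomorphism
of `ℂ` with `ℂ_[p]` -/
theorem model_iso {A : Type} [CommRing A] [Countable A] (ι : A →+* ℂ)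
    (hι : Function.Injective ι) (p : ℕ) [Fact p.Prime] (φ : A →+* ℤ_[p])
    (hφ : Function.Injective φ) :
    ∃ s : ℂ ≃+* ℂ_[p], ∀ a, s (ι a) = Pool.Agent.Helper33.SS.io p (φ a) := by
  have : IsDomain A := hι.isDomain ι
  let F := FractionRing A
  have hcount : Countable F := by
    have h1 : Function.Surjective (fun q : A × nonZeroDivisors A => IsLocalization.mk' F q.1 q.2) := by
      intro z
      obtain ⟨a, b, h⟩ := IsLocalization.exists_mk'_eq (nonZeroDivisors A) z
      exact ⟨(a, b), h⟩
    exact h1.countable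
  set j : F →+* ℂ := IsFractionRing.lift hι with hj
  have hj2 : ∀ a, j (algebraMap A F a) = ι a := fun a => IsFractionRing.lift_algebraMap hι a
  have hφ2 : Function.Injective ((PadicInt.Coe.ringHom (p := p)).comp φ) := by
    intro a b h
    exact hφ (Subtype.coe_injective h)
  set k : F →+* ℚ_[p] := IsFractionRing.lift hφ2 with hk
  have hk2 : ∀ a, k (algebraMap A F a) = ((φ a : ℤ_[p]) : ℚ_[p]) :=
    fun a => IsFractionRing.lift_algebraMap hφ2 a
  let K : IntermediateField ℚ ℂ := j.fieldRange.toIntermediateField (fun q => by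
    refine ⟨(q : F), ?_⟩
    rw [map_ratCast, eq_ratCast])
  have hKmem : ∀ c : ℂ, c ∈ K ↔ ∃ z, j z = c := fun c => RingHom.mem_fieldRange
  have hK : Countable K := by
    have h1 : Function.Surjective (fun z : F => (⟨j z, (hKmem _).2 ⟨z, rfl⟩⟩ : K)) := by
      rintro ⟨c, hc⟩
      obtain ⟨z, rfl⟩ := (hKmem c).1 hc
      exact ⟨z, rfl⟩
    exact h1.countable
  let e : F ≃+* K := RingEquiv.ofBijective
    ({ toFun := fun z => (⟨j z, (hKmem _).2 ⟨z, rfl⟩⟩ : K)
       map_one' := by ext; simp
       map_mul' := fun a b => by ext; simp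
       map_zero' := by ext; simp
       map_add' := fun a b => by ext; simp } : F →+* K) (by
    constructor
    · intro a b h
      exact j.injective (congrArg (fun c : K => (c : ℂ)) h)
    · rintro ⟨c, hc⟩
      obtain ⟨z, rfl⟩ := (hKmem c).1 hc
      exact ⟨z, rfl⟩)
  obtain ⟨s, hs⟩ := Pool.Agent.Helper33.SS.exists_iso_extending p K (k.comp e.symm.toRingHom)
  refine ⟨s, fun a => ?_⟩
  have h1 := hs (e (algebraMap A F a))
  have h2 : ((e (algebraMap A F a) : K) : ℂ) = ι a := hj2 a
  rw [h2] at h1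
  rw [h1]
  have h3 : (k.comp e.symm.toRingHom) (e (algebraMap A F a)) = ((φ a : ℤ_[p]) : ℚ_[p]) := by
    rw [← hk2]
    change k (e.symm (e (algebraMap A F a))) = _
    rw [RingEquiv.symm_apply_apply]
  rw [h3]
  rfl

/-- the model of a finitely generated field -/
theorem model_field {K : Type} [Field K] [Algebra ℚ K]
    (hK : (⊤ : IntermediateField ℚ K).FG) (S : Finset K) :
    ∃ (r : ℕ) (Δ : MvPolynomial (Fin r) ℤ) (g : Polynomial (MvPolynomial (Fin r) ℤ)) (A : Type)
      (_ : CommRing A) (t : Fin r → A) (θ : A) (ι : A →+* K), IsModel Δ g t θ ∧ Δ ≠ 0 ∧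
      0 < g.natDegree ∧ Function.Injective ι ∧ (∀ c ∈ S, ∃ a, ι a = c) := by
  classical
  have : CharZero K := algebraRat.charZero K
  obtain ⟨S', hS⟩ := hK
  have hmem : ∀ x : K, x ∈ IntermediateField.adjoin ℚ (S' : Set K) := fun x => by
    rw [hS]; trivial
  have halg : Algebra.IsAlgebraic (Algebra.adjoin ℤ (S' : Set K)) K := by
    constructor
    intro x
    refine IntermediateField.adjoin_induction ℚ
      (p := fun x _ => IsAlgebraic (Algebra.adjoin ℤ (S' : Set K)) x) ?_ ?_ ?_ ?_ ?_ (hmem x)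
    · intro x hx
      exact isAlgebraic_algebraMap (⟨x, Algebra.subset_adjoin hx⟩ : Algebra.adjoin ℤ (S' : Set K))
    · intro q
      have h0 : IsAlgebraic ℤ q :=
        (IsFractionRing.isAlgebraic_iff ℤ ℚ ℚ).2 (isAlgebraic_algebraMap q)
      have h1 : IsAlgebraic ℤ (algebraMap ℚ K q) := h0.algebraMap
      exact h1.extendScalars (FaithfulSMul.algebraMap_injective ℤ (Algebra.adjoin ℤ (S' : Set K)))
    · intro x y _ _ hx hy
      exact hx.add hy
    · intro x _ hx
      exact hx.inv
    · intro x y _ _ hx hy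
      exact hx.mul hy
  obtain ⟨t, htS, ht⟩ := exists_isTranscendenceBasis_subset (R := ℤ) (S' : Set K)
  have htfin : t.Finite := S'.finite_toSet.subset htS
  have : Fintype t := htfin.fintype
  obtain ⟨r, ⟨e⟩⟩ : ∃ r, Nonempty (Fin r ≃ t) := ⟨_, ⟨(Fintype.equivFin t).symm⟩⟩
  have hx := ht.comp_equiv e
  set x : Fin r → K := fun i => (e i : K) with hxdef
  have hxi : AlgebraicIndependent ℤ x := hx.1
  let P := MvPolynomial (Fin r) ℤ
  let _ : Algebra P K := (MvPolynomial.aeval x : P →ₐ[ℤ] K).toRingHom.toAlgebra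
  have hinj : Function.Injective (algebraMap P K) := hxi
  have : FaithfulSMul P K := (faithfulSMul_iff_algebraMap_injective P K).2 hinj
  have halgP : Algebra.IsAlgebraic P K := by
    have h1 : Algebra.IsAlgebraic (Algebra.adjoin ℤ (Set.range x)) K := hx.isAlgebraic
    refine Algebra.IsAlgebraic.of_ringHom_of_comp_eq (S := Algebra.adjoin ℤ (Set.range x)) (B := K)
      hxi.aevalEquiv (RingHom.id K) hxi.aevalEquiv.surjective (fun _ _ h => h) ?_
    apply RingHom.ext
    intro P'
    change ((hxi.aevalEquiv P' : Algebra.adjoin ℤ (Set.range x)) : K) = MvPolynomial.aeval x P'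
    exact hxi.algebraMap_aevalEquiv P'
  let Q := FractionRing P
  let _ : Algebra Q K := FractionRing.liftAlgebra P K
  have : IsScalarTower P Q K := FractionRing.isScalarTower_liftAlgebra P K
  have halgQ : Algebra.IsAlgebraic Q K := IsFractionRing.comap_isAlgebraic_iff.1 halgP
  have htop : IntermediateField.adjoin Q (S' : Set K) = ⊤ := by
    rw [eq_top_iff]
    intro y _
    refine IntermediateField.adjoin_induction ℚ
      (p := fun y _ => y ∈ IntermediateField.adjoin Q (S' : Set K)) ?_ ?_ ?_ ?_ ?_ (hmem y)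
    · intro y hy
      exact IntermediateField.subset_adjoin _ _ hy
    · intro q
      rw [eq_ratCast]
      exact SubfieldClass.ratCast_mem _ q
    · intro y z _ _ hy hz
      exact add_mem hy hz
    · intro y _ hy
      exact inv_mem hy
    · intro y z _ _ hy hz
      exact mul_mem hy hz
  have hfin : FiniteDimensional Q K := by
    have h1 : FiniteDimensional Q (IntermediateField.adjoin Q (S' : Set K)) :=
      IntermediateField.finiteDimensional_adjoin (fun y _ => (halgQ.isAlgebraic y).isIntegral)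
    rw [htop] at h1
    exact LinearEquiv.finiteDimensional (IntermediateField.topEquiv (F := Q) (E := K)).toLinearEquiv
  let pb := Field.powerBasisOfFiniteOfSeparable Q K
  have hPQ : Function.Injective (algebraMap P Q) := IsFractionRing.injective P Q
  -- an integral primitive element
  obtain ⟨y, hy0, hyint⟩ := (halgP.isAlgebraic pb.gen).exists_integral_multiple
  set θ : K := y • pb.gen with hθ
  have hyQ : algebraMap P Q y ≠ 0 := fun h => hy0 (hPQ (h.trans (map_zero _).symm))
  have hgen : pb.gen = (algebraMap P Q y)⁻¹ • θ := by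
    rw [hθ, Algebra.smul_def y, IsScalarTower.algebraMap_apply P Q K, ← Algebra.smul_def, smul_smul,
      inv_mul_cancel₀ hyQ, one_smul]
  set g : Polynomial P := minpoly P θ with hg
  have hgm : g.Monic := minpoly.monic hyint
  have hgmap : minpoly Q θ = g.map (algebraMap P Q) :=
    minpoly.isIntegrallyClosed_eq_field_fractions' Q hyint
  have hgdeg : 0 < g.natDegree := minpoly.natDegree_pos hyint
  have hfint : IsIntegral Q θ := (halgQ.isAlgebraic θ).isIntegral
  have hfsep : (minpoly Q θ).Separable := (minpoly.irreducible hfint).separable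
  have hfdeg : 0 < (minpoly Q θ).natDegree := minpoly.natDegree_pos hfint
  obtain ⟨g₁, U, V, E, b, hb0, hE, hbez, -, hg₁⟩ :=
    Pool.Agent.Helper38.Dml.exists_clear (P := P) (minpoly Q θ) hfsep hfdeg
  have hg₁g : g₁ = Polynomial.C b * g := by
    apply Polynomial.map_injective _ hPQ
    rw [hg₁, hgmap, Polynomial.map_mul, Polynomial.map_C]
  rw [hg₁g, Polynomial.derivative_C_mul] at hbez
  -- representation of elements
  have hrep : ∀ c : K, ∃ (D : P) (F : Polynomial P), D ≠ 0 ∧
      algebraMap P K D * c = Polynomial.aeval θ F := by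
    intro c
    obtain ⟨f, hf⟩ := pb.exists_eq_aeval' c
    have hc : c = Polynomial.aeval θ
        (f.comp (Polynomial.C (algebraMap P Q y)⁻¹ * Polynomial.X)) := by
      rw [Polynomial.aeval_comp, Polynomial.aeval_mul, Polynomial.aeval_C, Polynomial.aeval_X,
        ← Algebra.smul_def, ← hgen]
      exact hf
    obtain ⟨D, hD, hF⟩ := IsLocalization.integerNormalization_spec (nonZeroDivisors P)
      (f.comp (Polynomial.C (algebraMap P Q y)⁻¹ * Polynomial.X))
    refine ⟨D, IsLocalization.integerNormalization (nonZeroDivisors P)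
      (f.comp (Polynomial.C (algebraMap P Q y)⁻¹ * Polynomial.X)), nonZeroDivisors.ne_zero hD, ?_⟩
    · have h1 : Polynomial.aeval θ (IsLocalization.integerNormalization (nonZeroDivisors P)
        (f.comp (Polynomial.C (algebraMap P Q y)⁻¹ * Polynomial.X))) = algebraMap P K D * c := by
        have h2 : D • f.comp (Polynomial.C (algebraMap P Q y)⁻¹ * Polynomial.X) =
            Polynomial.C (algebraMap P Q D) *
              f.comp (Polynomial.C (algebraMap P Q y)⁻¹ * Polynomial.X) := by
          ext n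
          rw [Polynomial.coeff_smul, Polynomial.coeff_C_mul, Algebra.smul_def]
        rw [← Polynomial.aeval_map_algebraMap Q, hF, h2, map_mul, ← hc, Polynomial.aeval_C,
          ← IsScalarTower.algebraMap_apply P Q K]
      exact h1.symm
  choose D F hD0 hDF using hrep
  set Δ : P := (∏ c ∈ S, D c) * E with hΔ
  have hΔ0 : Δ ≠ 0 := mul_ne_zero (Finset.prod_ne_zero_iff.2 (fun c _ => hD0 c)) hE
  have hez : (ez x : P →+* K) = algebraMap P K := by
    apply MvPolynomial.ringHom_ext
    · intro c
      change _ = MvPolynomial.aeval x (C c)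
      simp [ez]
    · intro i
      change _ = MvPolynomial.aeval x (X i)
      simp [ez]
  obtain ⟨A, hA, tt, ϑ, ι, hM, hι, hιt, hιϑ⟩ := model_core x (by rw [hez]; exact hinj) g hgm hgdeg Δ
    hΔ0 ⟨Polynomial.C (∏ c ∈ S, D c) * (U * Polynomial.C b),
      Polynomial.C (∏ c ∈ S, D c) * (V * Polynomial.C b), by
        rw [hΔ, Polynomial.C_mul, ← hbez]; ring⟩ θ (by
        rw [hez]
        exact minpoly.aeval P θ) (by
        intro q hq hqd
        rw [hez] at hq
        exact Polynomial.eq_zero_of_dvd_of_natDegree_lt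
          (minpoly.isIntegrallyClosed_dvd hyint hq) hqd)
  refine ⟨r, Δ, g, A, hA, tt, ϑ, ι, hM, hΔ0, hgdeg, hι, ?_⟩
  intro c hc
  have h1 : ι.comp (ez tt) = ez x := model_comp_ez ι tt x hιt
  have h2 : IsUnit (ez tt (D c)) := by
    have h3 : D c ∣ Δ := (Finset.dvd_prod_of_mem D hc).mul_right E
    exact isUnit_of_dvd_unit (map_dvd _ h3) hM.unit
  obtain ⟨u, hu⟩ := h2
  refine ⟨(↑u⁻¹ : A) * (F c).eval₂ (ez tt) ϑ, ?_⟩
  have h4 : ι ((F c).eval₂ (ez tt) ϑ) = algebraMap P K (D c) * c := by
    rw [Polynomial.hom_eval₂, h1, hιϑ, hez, hDF c]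
    rfl
  have h5 : ι (u : A) = algebraMap P K (D c) := by
    rw [hu, ← hez, ← h1]
    rfl
  rw [map_mul, h4, ← h5, ← mul_assoc, ← map_mul, Units.inv_mul, map_one, one_mul]

theorem exists_model (S : Finset ℂ) :
    ∃ (r : ℕ) (Δ : MvPolynomial (Fin r) ℤ) (g : Polynomial (MvPolynomial (Fin r) ℤ)) (A : Type)
      (_ : CommRing A) (t : Fin r → A) (θ : A) (ι : A →+* ℂ), IsModel Δ g t θ ∧ Δ ≠ 0 ∧
      0 < g.natDegree ∧ Function.Injective ι ∧ (∀ c ∈ S, ∃ a, ι a = c) ∧
      ∀ (p : ℕ) [Fact p.Prime] (ψ₀ : A →+* ZMod p), ∃ s : ℂ ≃+* ℂ_[p],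
        ∀ a, ∃ z : ℤ_[p], s (ι a) = Pool.Agent.Helper33.SS.io p z ∧ PadicInt.toZMod z = ψ₀ a := by
  classical
  set K : IntermediateField ℚ ℂ := IntermediateField.adjoin ℚ (S : Set ℂ) with hK
  have hKfg : K.FG := IntermediateField.fg_adjoin_finset S
  have hKtop : (⊤ : IntermediateField ℚ K).FG := 
    IntermediateField.fg_top_iff.2 (IntermediateField.essFiniteType_iff.2 hKfg)
  have hcount : Countable K := Pool.Agent.Helper38.Dml.countable_of_fg K hKfg
  have hS : ∀ c ∈ S, c ∈ K := fun c hc => IntermediateField.subset_adjoin _ _ hc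
  have h0 := model_field hKtop
    (S.attach.image (fun c : {c // c ∈ S} => (⟨c.1, hS c.1 c.2⟩ : K)))
  obtain ⟨r, Δ, g, A, hA, t, θ, ι, hM, hΔ, hg, hι, hSι⟩ := h0
  have hAc : Countable A := hι.countable
  refine ⟨r, Δ, g, A, hA, t, θ, (K.val : K →+* ℂ).comp ι, hM, hΔ, hg, ?_, ?_, ?_⟩
  · exact (Subtype.coe_injective).comp hι
  · intro c hc
    obtain ⟨a, ha⟩ := hSι ⟨c, hS c hc⟩ (Finset.mem_image.2 ⟨⟨c, hc⟩, Finset.mem_attach _ _, rfl⟩)
    refine ⟨a, ?_⟩
    rw [RingHom.comp_apply, ha]
    rfl
  · intro p _ ψ₀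
    obtain ⟨φ, hφ, hφψ⟩ := model_padic hM p ψ₀
    obtain ⟨s, hs⟩ := model_iso ((K.val : K →+* ℂ).comp ι) ((Subtype.coe_injective).comp hι) p φ hφ
    exact ⟨s, fun a => ⟨φ a, hs a, hφψ a⟩⟩

end Pool.Agent.Helper30.AV
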