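import Pool.Agent.Helper30.AV.Defs

/-!
# AV-NoFix: no point of the fibre is fixed by the Frobenius

`K` a number field, `P` a prime ideal of `𝓞 K` containing the prime number `p`, `σ` an automorphism
of `K` with `σ x ≡ x ^ p mod P`. Suppose that `w` in the fibre over `u` (`Par (s G (w)) (s u)`) is
parallel to `σ w`. The fractional ideal `I` generated by the `w i` satisfies `I * I⁻¹ = 1`, so there is
`α ∈ K` with all `α * w i` in `𝓞 K` and one of them, say of index `i₀`, not in `P`. Put
`w' = α w`, integral; `σ w'` is parallel to `w'`; modulo `P`: `x_i ^ p * x_j = x_j ^ p * x_i` for the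
residues `x_i` of `w' i`; with `j = i₀`: `x_i / x_(i₀)` is a zero of `X ^ p - X` in the field
`𝓞 K ⧸ P`, so it is the image of some `v i` in `ZMod p`. `v i₀ = 1`. By homogeneity
`Par (s G (w')) (s u)`; by compatibility (relations `∑ over the monomials`: the value of
`s G_i` at `w'` is a combination of the coefficients with integral factors) also
`G_i (residue of w') * ψ u_j = G_j (..) * ψ u_i`, and by homogeneity the same at `v`: contradiction.
-/

set_option autoImplicit false

namespace Pool.Agent.Helper30.AV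

open MvPolynomial NumberField

/-- Scaling of a vector to an integral one which does not vanish modulo `P`. -/
private theorem exists_scale {K : Type} [Field K] [NumberField K] (P : Ideal (𝓞 K))
    (hP : P ≠ ⊤) {n : Type} [Fintype n] (w : n → K) (hw : w ≠ 0) :
    ∃ (α : K) (w' : n → 𝓞 K) (i₀ : n), (∀ i, (w' i : K) = α * w i) ∧ w' i₀ ∉ P := by
  classical
  obtain ⟨i₁, hi₁⟩ := Function.ne_iff.1 hw
  set I : FractionalIdeal (nonZeroDivisors (𝓞 K)) K :=
    FractionalIdeal.spanFinset (𝓞 K) Finset.univ w with hI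
  have hI0 : I ≠ 0 := FractionalIdeal.spanFinset_ne_zero.2 ⟨i₁, Finset.mem_univ _, hi₁⟩
  have h1 : (1 : K) ∈ I * I⁻¹ := by
    rw [mul_inv_cancel₀ hI0]
    exact FractionalIdeal.one_mem_one _
  by_contra hcon
  push Not at hcon
  have key : ∃ y ∈ P, (y : K) = 1 := by
    refine FractionalIdeal.mul_induction_on (C := fun x => ∃ y ∈ P, (y : K) = x) h1 ?_ ?_
    · intro β hβ α hα
      rw [FractionalIdeal.mem_inv_iff hI0] at hα
      have hint : ∀ i, ∃ y : 𝓞 K, (y : K) = α * w i := by
        intro i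
        have h2 : w i ∈ I := by
          rw [← FractionalIdeal.mem_coe, hI, FractionalIdeal.spanFinset_coe]
          exact Submodule.subset_span ⟨i, by simp, rfl⟩
        obtain ⟨y, hy⟩ := (FractionalIdeal.mem_one_iff _).1 (hα (w i) h2)
        exact ⟨y, hy⟩
      choose w' hw' using hint
      have hPw : ∀ i, w' i ∈ P := fun i => hcon α w' i hw'
      rw [← FractionalIdeal.mem_coe, hI, FractionalIdeal.spanFinset_coe] at hβ
      refine Submodule.span_induction (p := fun b _ => ∃ y ∈ P, (y : K) = b * α) ?_ ?_ ?_ ?_ hβ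
      · rintro b ⟨i, -, rfl⟩
        exact ⟨w' i, hPw i, by rw [hw' i, mul_comm]⟩
      · exact ⟨0, P.zero_mem, by simp⟩
      · rintro b b' _ _ ⟨y, hy, hyb⟩ ⟨y', hy', hyb'⟩
        refine ⟨y + y', P.add_mem hy hy', ?_⟩
        show algebraMap (𝓞 K) K (y + y') = _
        rw [map_add, add_mul]
        exact congrArg₂ (· + ·) hyb hyb'
      · rintro c b _ ⟨y, hy, hyb⟩
        refine ⟨c * y, P.mul_mem_left c hy, ?_⟩
        show algebraMap (𝓞 K) K (c * y) = _
        rw [map_mul, Algebra.smul_def, mul_assoc]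
        exact congrArg (fun t => algebraMap (𝓞 K) K c * t) hyb
    · rintro x y ⟨a, ha, hax⟩ ⟨b, hb, hby⟩
      refine ⟨a + b, P.add_mem ha hb, ?_⟩
      show algebraMap (𝓞 K) K (a + b) = _
      rw [map_add]
      exact congrArg₂ (· + ·) hax hby
  obtain ⟨y, hy, hy1⟩ := key
  apply hP
  rw [Ideal.eq_top_iff_one]
  have h2 : y = 1 := by
    apply RingOfIntegers.ext
    rw [hy1]
    simp
  rw [← h2]
  exact hy

private theorem fixed_mem {p : ℕ} [Fact p.Prime] {k : Type} [Field k] (ρ : ZMod p →+* k) (t : k)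
    (ht : t ^ p = t) : ∃ a, ρ a = t := by
  classical
  have hmon : (Polynomial.X ^ p - Polynomial.X : Polynomial (ZMod p)).Monic :=
    Polynomial.monic_X_pow_sub (by
      rw [Polynomial.degree_X]
      exact_mod_cast (Fact.out : p.Prime).one_lt)
  have hroots : (Polynomial.X ^ p - Polynomial.X : Polynomial (ZMod p)).roots =
      (Finset.univ : Finset (ZMod p)).val := by
    have h := FiniteField.roots_X_pow_card_sub_X (ZMod p)
    rwa [ZMod.card p] at h
  have hdeg : (Polynomial.X ^ p - Polynomial.X : Polynomial (ZMod p)).natDegree = p :=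
    FiniteField.X_pow_card_sub_X_natDegree_eq (ZMod p) (Fact.out : p.Prime).one_lt
  have hprod := Polynomial.prod_multiset_X_sub_C_of_monic_of_roots_card_eq hmon (by
    rw [hroots, hdeg]
    simp [ZMod.card])
  rw [hroots] at hprod
  have h2 := congrArg (Polynomial.eval₂ ρ t) hprod
  rw [Polynomial.eval₂_sub, Polynomial.eval₂_X_pow, Polynomial.eval₂_X, ht, sub_self] at h2
  have h3 : Polynomial.eval₂ ρ t (Multiset.map (fun a => Polynomial.X - Polynomial.C a)
      (Finset.univ : Finset (ZMod p)).val).prod = ∏ a : ZMod p, (t - ρ a) := by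
    have h4 : (Multiset.map (fun a => Polynomial.X - Polynomial.C a)
      (Finset.univ : Finset (ZMod p)).val).prod = ∏ a : ZMod p, (Polynomial.X - Polynomial.C a) :=
      rfl
    rw [h4, Polynomial.eval₂_finsetProd]
    refine Finset.prod_congr rfl fun a _ => ?_
    rw [Polynomial.eval₂_sub, Polynomial.eval₂_X, Polynomial.eval₂_C]
  rw [h3, Finset.prod_eq_zero_iff] at h2
  obtain ⟨a, -, ha⟩ := h2
  exact ⟨a, (sub_eq_zero.1 ha).symm⟩

private theorem eval_map_eq {R S n : Type} [CommRing R] [CommRing S] [Fintype n] (f : R →+* S)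
    (G : MvPolynomial n R) (x : n → S) :
    eval x (MvPolynomial.map f G) = ∑ m ∈ G.support, f (coeff m G) * ∏ i, x i ^ m i := by
  rw [eval_map, eval₂_eq']

private theorem compat_eval {A K : Type} [CommRing A] [Field K] [NumberField K] {k : Type}
    [Field k] (π : 𝓞 K →+* k) (s : A →+* K) (ψ : A →+* k) (hs : Compat π s ψ) {n : Type}
    [Fintype n] (G G' : MvPolynomial n A) (a a' : A) (x : n → 𝓞 K)
    (h : eval (fun i => (x i : K)) (MvPolynomial.map s G) * s a =
      eval (fun i => (x i : K)) (MvPolynomial.map s G') * s a') :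
    eval (fun i => π (x i)) (MvPolynomial.map ψ G) * ψ a =
      eval (fun i => π (x i)) (MvPolynomial.map ψ G') * ψ a' := by
  classical
  let q : {m // m ∈ G.support} ⊕ {m // m ∈ G'.support} → 𝓞 K :=
    Sum.elim (fun m => ∏ i, x i ^ (m : n →₀ ℕ) i) (fun m => -∏ i, x i ^ (m : n →₀ ℕ) i)
  let c : {m // m ∈ G.support} ⊕ {m // m ∈ G'.support} → A :=
    Sum.elim (fun m => coeff (m : n →₀ ℕ) G * a) (fun m => coeff (m : n →₀ ℕ) G' * a')
  have key : ∀ (R : Type) [CommRing R] (f : 𝓞 K →+* R) (φ : A →+* R),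
      ∑ j, f (q j) * φ (c j) = eval (fun i => f (x i)) (MvPolynomial.map φ G) * φ a -
        eval (fun i => f (x i)) (MvPolynomial.map φ G') * φ a' := by
    intro R _ f φ
    rw [Fintype.sum_sum_type, eval_map_eq, eval_map_eq, Finset.sum_mul, Finset.sum_mul,
      sub_eq_add_neg, ← Finset.sum_neg_distrib, ← Finset.sum_coe_sort G.support,
      ← Finset.sum_coe_sort G'.support]
    congr 1
    · refine Finset.sum_congr rfl fun m _ => ?_
      show f (∏ i, x i ^ (m : n →₀ ℕ) i) * φ (coeff (m : n →₀ ℕ) G * a) = _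
      rw [map_prod, map_mul]
      simp only [map_pow]
      ring
    · refine Finset.sum_congr rfl fun m _ => ?_
      show f (-∏ i, x i ^ (m : n →₀ ℕ) i) * φ (coeff (m : n →₀ ℕ) G' * a') = _
      rw [map_neg, map_prod, map_mul]
      simp only [map_pow]
      ring
  have h1 : algebraMap (𝓞 K) K 0 = ∑ j, algebraMap (𝓞 K) K (q j) * s (c j) := by
    rw [key K (algebraMap (𝓞 K) K) s, map_zero]
    exact (sub_eq_zero.2 h).symm
  have h2 := hs _ 0 q c h1
  rw [map_zero, key k π ψ] at h2
  exact sub_eq_zero.1 h2.symm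

theorem no_fix {A : Type} [CommRing A] {K : Type} [Field K] [NumberField K] (P : Ideal (𝓞 K))
    [hP : P.IsPrime] (hPm : P.IsMaximal) {p : ℕ} [Fact p.Prime] (hp : (p : 𝓞 K) ∈ P)
    (σ : K ≃ₐ[ℚ] K) (hσ : ∀ x y : 𝓞 K, (y : K) = σ (x : K) → y - x ^ p ∈ P)
    (s : A →+* K) (ψ₀ : A →+* ZMod p) (k : Type) [Field k] (π : 𝓞 K →+* k)
    (hπ : ∀ x, π x = 0 ↔ x ∈ P) (ρ : ZMod p →+* k) (hs : Compat π s (ρ.comp ψ₀))
    {n : Type} [Fintype n] (G : n → MvPolynomial n A) (D : ℕ) (hG : ∀ i, (G i).IsHomogeneous D)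
    (u : n → A)
    (hno : ∀ v : n → ZMod p, v ≠ 0 →
      ¬ Par (fun i => eval v (MvPolynomial.map ψ₀ (G i))) (fun i => ψ₀ (u i)))
    (w : n → K) (hw : w ≠ 0)
    (hpar : Par (fun i => eval w (MvPolynomial.map s (G i))) (fun i => s (u i))) :
    ¬ Par (fun i => σ (w i)) w := by
  classical
  intro hσw
  obtain ⟨α, w', i₀, hw', hi₀⟩ := exists_scale P hP.ne_top w hw
  -- the conjugate vector
  have hy : ∀ i, ∃ y : 𝓞 K, (y : K) = σ (w' i : K) := by
    intro i
    have h1 : IsIntegral ℤ (σ (w' i : K)) :=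
      (RingOfIntegers.isIntegral_coe (w' i)).map (σ : K →+* K).toIntAlgHom
    exact ⟨⟨σ (w' i : K), h1⟩, rfl⟩
  choose y hy using hy
  have hrel : ∀ i j, y i * w' j = y j * w' i := by
    intro i j
    apply RingOfIntegers.ext
    show algebraMap (𝓞 K) K (y i * w' j) = algebraMap (𝓞 K) K (y j * w' i)
    have h2 : ∀ l, algebraMap (𝓞 K) K (y l) = σ α * σ (w l) := by
      intro l
      have h3 := hy l
      rw [hw', map_mul] at h3
      exact h3
    have h4 : ∀ l, algebraMap (𝓞 K) K (w' l) = α * w l := hw'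
    rw [map_mul, map_mul, h2, h2, h4, h4]
    have h1 : σ (w i) * w j = σ (w j) * w i := hσw i j
    linear_combination (σ α * α) * h1
  have hred : ∀ i, π (y i) = π (w' i) ^ p := by
    intro i
    have h1 := (hπ _).2 (hσ (w' i) (y i) (hy i))
    rw [map_sub, map_pow, sub_eq_zero] at h1
    exact h1
  have hx0 : π (w' i₀) ≠ 0 := fun h => hi₀ ((hπ _).1 h)
  have hfix : ∀ i, (π (w' i) / π (w' i₀)) ^ p = π (w' i) / π (w' i₀) := by
    intro i
    have h1 := congrArg π (hrel i i₀)
    rw [map_mul, map_mul, hred, hred] at h1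
    rw [div_pow, div_eq_div_iff (pow_ne_zero _ hx0) hx0, h1]
    ring
  choose v hv using fun i => fixed_mem ρ _ (hfix i)
  have hvi₀ : ρ (v i₀) = 1 := by rw [hv, div_self hx0]
  have hv0 : v ≠ 0 := by
    intro h
    rw [h, Pi.zero_apply, map_zero] at hvi₀
    exact zero_ne_one hvi₀
  refine hno v hv0 ?_
  intro i j
  apply ρ.injective
  have hvx : (fun l => ρ (v l)) = (π (w' i₀))⁻¹ • fun l => π (w' l) := by
    funext l
    rw [hv, Pi.smul_apply, smul_eq_mul, div_eq_inv_mul]
  have heval : ∀ l, ρ (eval v (MvPolynomial.map ψ₀ (G l))) =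
      (π (w' i₀))⁻¹ ^ D * eval (fun l => π (w' l)) (MvPolynomial.map (ρ.comp ψ₀) (G l)) := by
    intro l
    rw [← eval_smul_hom ((hG l).map _), ← hvx]
    rw [eval_map, eval_map]
    exact eval₂_comp_left ρ ψ₀ v (G l)
  have hw2 : (fun l => (w' l : K)) = α • w := by
    funext l
    rw [hw', Pi.smul_apply, smul_eq_mul]
  have hmain := compat_eval π s (ρ.comp ψ₀) hs (G i) (G j) (u j) (u i) w' (by
    rw [hw2, eval_smul_hom ((hG i).map _), eval_smul_hom ((hG j).map _)]
    have h1 := hpar i j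
    simp only at h1
    linear_combination (α ^ D) * h1)
  show ρ (eval v (MvPolynomial.map ψ₀ (G i)) * ψ₀ (u j)) =
    ρ (eval v (MvPolynomial.map ψ₀ (G j)) * ψ₀ (u i))
  rw [map_mul, map_mul, heval, heval]
  have h2 : (ρ.comp ψ₀) (u j) = ρ (ψ₀ (u j)) := rfl
  have h3 : (ρ.comp ψ₀) (u i) = ρ (ψ₀ (u i)) := rfl
  rw [h2, h3] at hmain
  linear_combination ((π (w' i₀))⁻¹ ^ D) * hmain

end Pool.Agent.Helper30.AV
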