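import Pool.Agent.Helper40.AV.St

/-! AV3b: Selberg's sum for large `u` (Rankin's trick). -/

set_option autoImplicit false

open Finset

namespace Pool.Agent.Helper30.AV

open Pool.Agent.Helper40.AV
open Pool.Agent.Helper44 (primesUpTo mem_primesUpTo mertens_first)

/-! ### Second moments of the logarithm -/

theorem sum_log_sq : ∃ C : ℝ, 0 < C ∧ ∀ N : ℕ, 1 ≤ N →
    |∑ q ∈ (Ioc 0 N).filter Nat.Prime, Real.log q / q - Real.log N| ≤ C ∧
    ∑ q ∈ (Ioc 0 N).filter Nat.Prime, Real.log q ^ 2 / q ≤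
      1 / 2 * Real.log N ^ 2 + (2 * C + 1) * Real.log N := by
  obtain ⟨C, hC, h⟩ := mertens_first
  refine ⟨C, hC, fun N hN => ⟨h N hN, ?_⟩⟩
  have key : ∀ N : ℕ, 1 ≤ N → ∑ q ∈ (Ioc 0 N).filter Nat.Prime, Real.log q ^ 2 / q ≤
      (∑ q ∈ (Ioc 0 N).filter Nat.Prime, Real.log q / q) * Real.log N - 1 / 2 * Real.log N ^ 2 +
        (C + 1) * Real.log N := by
    intro N hN
    induction N, hN using Nat.le_induction with
    | base =>
      have : (Ioc 0 1).filter Nat.Prime = ∅ := by decide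
      rw [this]
      simp
    | succ N hN ih =>
      have hNpos : (0 : ℝ) < N := by exact_mod_cast hN
      have hsum : ∀ g : ℕ → ℝ, ∑ q ∈ (Ioc 0 (N + 1)).filter Nat.Prime, g q =
          ∑ q ∈ (Ioc 0 N).filter Nat.Prime, g q + (if (N + 1).Prime then g (N + 1) else 0) := by
        intro g
        rw [Finset.sum_filter, Finset.sum_filter, Finset.sum_Ioc_succ_top (Nat.zero_le N)]
      rw [hsum, hsum]
      set S := ∑ q ∈ (Ioc 0 N).filter Nat.Prime, Real.log q / q with hS
      set a : ℝ := if (N + 1).Prime then Real.log ((N + 1 : ℕ) : ℝ) / ((N + 1 : ℕ) : ℝ) else 0 with ha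
      have ha2 : (if (N + 1).Prime then Real.log ((N + 1 : ℕ) : ℝ) ^ 2 / ((N + 1 : ℕ) : ℝ) else 0) =
          a * Real.log ((N + 1 : ℕ) : ℝ) := by
        rw [ha]
        split_ifs
        · ring
        · ring
      rw [ha2]
      have hb := (abs_le.mp (h N hN)).1
      set d := Real.log ((N + 1 : ℕ) : ℝ) - Real.log N with hd
      have hd0 : 0 ≤ d := by
        rw [hd, sub_nonneg]
        apply Real.log_le_log hNpos
        push_cast; linarith
      have hd1 : d ≤ 1 := by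
        rw [hd, ← Real.log_div (by positivity) (by positivity)]
        have : (((N + 1 : ℕ) : ℝ) / N) ≤ 2 := by
          rw [div_le_iff₀ hNpos]
          push_cast
          have : (1 : ℝ) ≤ N := by exact_mod_cast hN
          linarith
        calc Real.log (((N + 1 : ℕ) : ℝ) / N) ≤ Real.log 2 := Real.log_le_log (by positivity) this
          _ ≤ 1 := by have := Real.log_two_lt_d9; linarith
      have hl : Real.log ((N + 1 : ℕ) : ℝ) = Real.log N + d := by rw [hd]; ring
      rw [hl]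
      rw [hl] at hd
      have hSb : Real.log N - C ≤ S := by linarith
      nlinarith [mul_nonneg (sub_nonneg.mpr hSb) hd0, mul_nonneg hd0 (sub_nonneg.mpr hd1)]
  have h1 := key N hN
  have h2 := (abs_le.mp (h N hN)).2
  have hlog : 0 ≤ Real.log N := Real.log_natCast_nonneg N
  nlinarith [mul_nonneg (sub_nonneg.mpr h2) hlog]

/-- `e^(2t) ≤ 1 + 2t + (e^2 - 3) t^2` on `[0,1]`. -/
theorem exp_bound {t : ℝ} (h0 : 0 ≤ t) (h1 : t ≤ 1) :
    Real.exp (2 * t) ≤ 1 + 2 * t + (Real.exp 2 - 3) * t ^ 2 := by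
  have ha : HasSum (fun n : ℕ => (2 * t) ^ n / (n.factorial : ℝ)) (Real.exp (2 * t)) := by
    have := NormedSpace.expSeries_div_hasSum_exp (2 * t)
    rwa [← Real.exp_eq_exp_ℝ] at this
  have hb : HasSum (fun n : ℕ => t ^ 2 * (2 ^ n / (n.factorial : ℝ)) +
      ((if n = 0 then 1 - t ^ 2 else 0) + (if n = 1 then 2 * t - 2 * t ^ 2 else 0)))
      (t ^ 2 * Real.exp 2 + ((1 - t ^ 2) + (2 * t - 2 * t ^ 2))) := by
    refine HasSum.add ?_ (HasSum.add (hasSum_ite_eq 0 _) (hasSum_ite_eq 1 _))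
    apply HasSum.mul_left
    have := NormedSpace.expSeries_div_hasSum_exp (2 : ℝ)
    rwa [← Real.exp_eq_exp_ℝ] at this
  have hle : Real.exp (2 * t) ≤ t ^ 2 * Real.exp 2 + ((1 - t ^ 2) + (2 * t - 2 * t ^ 2)) := by
    refine hasSum_le (fun n => ?_) ha hb
    rcases n with _ | _ | n
    · simp
    · norm_num
      linarith
    · have e1 : ¬ (n + 1 + 1 = 0) := by omega
      have e2 : ¬ (n + 1 + 1 = 1) := by omega
      rw [if_neg e1, if_neg e2, add_zero, add_zero, mul_pow, ← mul_div_assoc]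
      have h3 : t ^ (n + 1 + 1) ≤ t ^ 2 := pow_le_pow_of_le_one h0 h1 (by omega)
      have h4 : 2 ^ (n + 1 + 1) * t ^ (n + 1 + 1) ≤ t ^ 2 * 2 ^ (n + 1 + 1) := by
        rw [mul_comm]
        exact mul_le_mul_of_nonneg_right h3 (by positivity)
      exact div_le_div_of_nonneg_right h4 (by positivity)
  linarith

theorem exp_two_le : Real.exp 2 ≤ 7.3891 := by
  have h1 := Real.exp_one_lt_d9
  have h2 : Real.exp 2 = Real.exp 1 * Real.exp 1 := by rw [← Real.exp_add]; norm_num
  have h3 : 0 < Real.exp 1 := Real.exp_pos 1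
  rw [h2]
  nlinarith

/-- The sum of `(p^η - 1)/p`, `η = 2 / log z`. -/
theorem sum_rpow_le : ∃ z₀ : ℝ, 2 ≤ z₀ ∧ ∀ z : ℝ, z₀ ≤ z →
    ∑ p ∈ primesUpTo z, ((p : ℝ) ^ (2 / Real.log z) - 1) / p ≤ 4.2 := by
  obtain ⟨C, hC, h⟩ := sum_log_sq
  refine ⟨max 2 (Real.exp (1000 * (7 * C + 5))), le_max_left _ _, fun z hz => ?_⟩
  have hz2 : 2 ≤ z := (le_max_left _ _).trans hz
  have hzpos : 0 < z := by linarith
  have hL : 1000 * (7 * C + 5) ≤ Real.log z := by
    rw [Real.le_log_iff_exp_le hzpos]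
    exact (le_max_right _ _).trans hz
  have hLpos : 0 < Real.log z := by linarith
  have hfl : 1 ≤ ⌊z⌋₊ := by
    rw [Nat.one_le_floor_iff]; linarith
  obtain ⟨h1, h2⟩ := h ⌊z⌋₊ hfl
  have hlf : Real.log (⌊z⌋₊ : ℝ) ≤ Real.log z := by
    apply Real.log_le_log (by exact_mod_cast hfl)
    exact Nat.floor_le hzpos.le
  have hlf0 : 0 ≤ Real.log (⌊z⌋₊ : ℝ) := Real.log_natCast_nonneg _
  have h1' : ∑ q ∈ primesUpTo z, Real.log q / q ≤ Real.log z + C := by
    have := (abs_le.mp h1).2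
    show ∑ q ∈ (Ioc 0 ⌊z⌋₊).filter Nat.Prime, Real.log q / q ≤ _
    linarith
  have h2' : ∑ q ∈ primesUpTo z, Real.log q ^ 2 / q ≤
      1 / 2 * Real.log z ^ 2 + (2 * C + 1) * Real.log z := by
    refine le_trans h2 ?_
    have h3 : Real.log (⌊z⌋₊ : ℝ) ^ 2 ≤ Real.log z ^ 2 := by
      apply pow_le_pow_left₀ hlf0 hlf
    have h4 : (2 * C + 1) * Real.log (⌊z⌋₊ : ℝ) ≤ (2 * C + 1) * Real.log z :=
      mul_le_mul_of_nonneg_left hlf (by linarith)
    linarith
  have hterm : ∀ p ∈ primesUpTo z, ((p : ℝ) ^ (2 / Real.log z) - 1) / p ≤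
      2 / Real.log z * (Real.log p / p) + 4.3891 / Real.log z ^ 2 * (Real.log p ^ 2 / p) := by
    intro p hp
    rw [mem_primesUpTo hzpos.le] at hp
    have hp1 : (1 : ℝ) ≤ p := by exact_mod_cast hp.1.one_lt.le
    have hppos : (0 : ℝ) < p := by linarith
    have hlp : 0 ≤ Real.log p := Real.log_nonneg hp1
    have hlpz : Real.log p ≤ Real.log z := Real.log_le_log hppos hp.2
    have e1 : (p : ℝ) ^ (2 / Real.log z) = Real.exp (2 * (Real.log p / Real.log z)) := by
      rw [Real.rpow_def_of_pos hppos]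
      congr 1
      field_simp
    have h5 := exp_bound (t := Real.log p / Real.log z) (by positivity)
      (by rw [div_le_one hLpos]; exact hlpz)
    have h6 : Real.exp (2 * (Real.log p / Real.log z)) - 1 ≤
        2 * (Real.log p / Real.log z) + 4.3891 * (Real.log p / Real.log z) ^ 2 := by
      have h7 := exp_two_le
      have h8 : (Real.exp 2 - 3) * (Real.log p / Real.log z) ^ 2 ≤
          4.3891 * (Real.log p / Real.log z) ^ 2 :=
        mul_le_mul_of_nonneg_right (by linarith) (by positivity)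
      linarith
    rw [e1]
    calc (Real.exp (2 * (Real.log p / Real.log z)) - 1) / p ≤
        (2 * (Real.log p / Real.log z) + 4.3891 * (Real.log p / Real.log z) ^ 2) / p :=
          div_le_div_of_nonneg_right h6 hppos.le
      _ = _ := by field_simp
  have hsum : ∑ p ∈ primesUpTo z, ((p : ℝ) ^ (2 / Real.log z) - 1) / p ≤
      2 / Real.log z * (Real.log z + C) + 4.3891 / Real.log z ^ 2 *
        (1 / 2 * Real.log z ^ 2 + (2 * C + 1) * Real.log z) := by
    refine (Finset.sum_le_sum hterm).trans ?_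
    rw [Finset.sum_add_distrib, ← Finset.mul_sum, ← Finset.mul_sum]
    exact add_le_add (mul_le_mul_of_nonneg_left h1' (by positivity))
      (mul_le_mul_of_nonneg_left h2' (by positivity))
  refine hsum.trans ?_
  have e2 : 2 / Real.log z * (Real.log z + C) + 4.3891 / Real.log z ^ 2 *
        (1 / 2 * Real.log z ^ 2 + (2 * C + 1) * Real.log z) =
      2 + 4.3891 / 2 + (2 * C + 4.3891 * (2 * C + 1)) / Real.log z := by
    field_simp
    ring
  rw [e2]
  have h9 : (2 * C + 4.3891 * (2 * C + 1)) / Real.log z ≤ 0.005 := by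
    rw [div_le_iff₀ hLpos]
    nlinarith
  linarith

/-! ### Subsets of primes -/

theorem prod_facts (T : Finset ℕ) (hT : ∀ p ∈ T, p.Prime) :
    Squarefree (∏ p ∈ T, p) ∧ ((∏ p ∈ T, p).totient : ℝ) = ∏ p ∈ T, ((p : ℝ) - 1) := by
  induction T using Finset.induction_on with
  | empty => simp
  | insert p T hp ih =>
    have hpp := hT p (Finset.mem_insert_self p T)
    obtain ⟨h1, h2⟩ := ih fun q hq => hT q (Finset.mem_insert_of_mem hq)
    have hcop : Nat.Coprime p (∏ q ∈ T, q) := by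
      apply Nat.Coprime.prod_right
      intro q hq
      rw [Nat.coprime_primes hpp (hT q (Finset.mem_insert_of_mem hq))]
      rintro rfl
      exact hp hq
    rw [Finset.prod_insert hp, Finset.prod_insert hp]
    refine ⟨(Nat.squarefree_mul hcop).mpr ⟨hpp.squarefree, h1⟩, ?_⟩
    rw [Nat.totient_mul hcop, Nat.totient_prime hpp, Nat.cast_mul, h2,
      Nat.cast_sub hpp.one_lt.le, Nat.cast_one]

theorem GG_ge (z Y : ℝ) (hz : 0 ≤ z) :
    ∑ T ∈ (primesUpTo z).powerset.filter (fun T => ((∏ p ∈ T, p : ℕ) : ℝ) ≤ Y),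
      ∏ p ∈ T, (1 : ℝ) / ((p : ℝ) - 1) ≤ GG z Y := by
  classical
  set F := (primesUpTo z).powerset.filter (fun T => ((∏ p ∈ T, p : ℕ) : ℝ) ≤ Y) with hF
  have hprime : ∀ T ∈ F, ∀ p ∈ T, p.Prime ∧ (p : ℝ) ≤ z := by
    intro T hT p hp
    rw [hF, Finset.mem_filter, Finset.mem_powerset] at hT
    exact (mem_primesUpTo hz).mp (hT.1 hp)
  have hinj : Set.InjOn (fun T : Finset ℕ => ∏ p ∈ T, p) (F : Set (Finset ℕ)) := by
    intro T hT T' hT' heq
    have h1 := Nat.primeFactors_prod (s := T) fun p hp => (hprime T hT p hp).1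
    have h2 := Nat.primeFactors_prod (s := T') fun p hp => (hprime T' hT' p hp).1
    rw [← h1, ← h2]
    exact congrArg Nat.primeFactors heq
  have h3 : ∑ T ∈ F, ∏ p ∈ T, (1 : ℝ) / ((p : ℝ) - 1) =
      ∑ m ∈ F.image (fun T : Finset ℕ => ∏ p ∈ T, p), (1 : ℝ) / m.totient := by
    rw [Finset.sum_image hinj]
    refine Finset.sum_congr rfl fun T hT => ?_
    rw [(prod_facts T fun p hp => (hprime T hT p hp).1).2, Finset.prod_div_distrib,
      Finset.prod_const_one]
  rw [h3, GG]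
  refine Finset.sum_le_sum_of_subset_of_nonneg ?_ fun m _ _ => by positivity
  intro m hm
  rw [Finset.mem_image] at hm
  obtain ⟨T, hT, rfl⟩ := hm
  have hT2 := (Finset.mem_filter.mp hT).2
  have hpos : 0 < ∏ p ∈ T, p := Finset.prod_pos fun p hp => (hprime T hT p hp).1.pos
  rw [Finset.mem_filter, Finset.mem_Icc]
  refine ⟨⟨hpos, Nat.le_floor hT2⟩, (prod_facts T fun p hp => (hprime T hT p hp).1).1, ?_⟩
  intro r hr hrd
  obtain ⟨p, hp, hrp⟩ := (Prime.dvd_finsetProd_iff hr.prime _).mp hrd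
  have h4 := (Nat.prime_dvd_prime_iff_eq hr (hprime T hT p hp).1).mp hrp
  rw [h4]
  exact (hprime T hT p hp).2

theorem gGrankin : GGrankin := by
  classical
  obtain ⟨z₀, hz₀, h⟩ := sum_rpow_le
  refine ⟨z₀, hz₀, fun z u hz hu => ?_⟩
  have hz2 : 2 ≤ z := hz₀.trans hz
  have hzpos : 0 < z := by linarith
  have hLpos : 0 < Real.log z := Real.log_pos (by linarith)
  set η := 2 / Real.log z with hη
  set P := primesUpTo z with hP
  have hprime : ∀ p ∈ P, p.Prime ∧ (p : ℝ) ≤ z := fun p hp => (mem_primesUpTo hzpos.le).mp hp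
  have hp2 : ∀ p ∈ P, (2 : ℝ) ≤ p := fun p hp => by exact_mod_cast (hprime p hp).1.two_le
  set w : Finset ℕ → ℝ := fun T => ∏ p ∈ T, (1 : ℝ) / ((p : ℝ) - 1) with hw
  set Y := z ^ u with hY
  have hYpos : 0 < Y := Real.rpow_pos_of_pos hzpos u
  -- the full sum
  have hfull : VV z * ∑ T ∈ P.powerset, w T = 1 := by
    rw [hw, ← Finset.prod_one_add, VV, ← hP, ← Finset.prod_mul_distrib]
    refine Finset.prod_eq_one fun p hp => ?_
    have h1 := hp2 p hp
    have h2 : (p : ℝ) - 1 ≠ 0 := by linarith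
    have h3 : (p : ℝ) ≠ 0 := by linarith
    field_simp
    ring
  have hV : 0 ≤ VV z := by
    rw [VV]
    refine Finset.prod_nonneg fun p hp => ?_
    have h1 := hp2 p hp
    rw [sub_nonneg, div_le_one (by linarith)]
    linarith
  -- the tail
  have htail : ∑ T ∈ P.powerset.filter (fun T => ¬ ((∏ p ∈ T, p : ℕ) : ℝ) ≤ Y), w T ≤
      Y ^ (-η) * ∏ p ∈ P, (1 + (p : ℝ) ^ η / ((p : ℝ) - 1)) := by
    rw [Finset.prod_one_add, Finset.mul_sum]
    refine le_trans ?_ (Finset.sum_le_sum_of_subset_of_nonneg (Finset.filter_subset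
      (fun T => ¬ ((∏ p ∈ T, p : ℕ) : ℝ) ≤ Y) _) ?_)
    · refine Finset.sum_le_sum fun T hT => ?_
      rw [Finset.mem_filter, Finset.mem_powerset, not_le] at hT
      have h1 : ∏ p ∈ T, (p : ℝ) ^ η / ((p : ℝ) - 1) =
          (((∏ p ∈ T, p : ℕ) : ℝ)) ^ η * w T := by
        rw [hw]
        push_cast
        rw [← Real.finsetProd_rpow _ _ (fun p _ => by positivity), ← Finset.prod_mul_distrib]
        refine Finset.prod_congr rfl fun p _ => ?_
        rw [mul_one_div]
      rw [h1, ← mul_assoc]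
      have hwpos : 0 ≤ w T := by
        refine Finset.prod_nonneg fun p hp => ?_
        have := hp2 p (hT.1 hp)
        apply div_nonneg zero_le_one
        linarith
      have h2 : 1 ≤ Y ^ (-η) * (((∏ p ∈ T, p : ℕ) : ℝ)) ^ η := by
        rw [Real.rpow_neg hYpos.le, inv_mul_eq_div, one_le_div (Real.rpow_pos_of_pos hYpos _)]
        exact Real.rpow_le_rpow hYpos.le hT.2.le (by positivity)
      calc w T = 1 * w T := (one_mul _).symm
        _ ≤ _ := mul_le_mul_of_nonneg_right h2 hwpos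
    · intro T hT _
      refine mul_nonneg (Real.rpow_nonneg hYpos.le _) (Finset.prod_nonneg fun p hp => ?_)
      have := hp2 p (Finset.mem_powerset.mp hT hp)
      apply div_nonneg (Real.rpow_nonneg (by positivity) _)
      linarith
  have hprod : VV z * ∏ p ∈ P, (1 + (p : ℝ) ^ η / ((p : ℝ) - 1)) ≤ Real.exp 4.2 := by
    rw [VV, ← hP, ← Finset.prod_mul_distrib]
    calc ∏ p ∈ P, ((1 - 1 / (p : ℝ)) * (1 + (p : ℝ) ^ η / ((p : ℝ) - 1))) ≤
        ∏ p ∈ P, Real.exp (((p : ℝ) ^ η - 1) / p) := by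
          refine Finset.prod_le_prod (fun p hp => ?_) fun p hp => ?_
          · have h1 := hp2 p hp
            refine mul_nonneg ?_ ?_
            · rw [sub_nonneg, div_le_one (by linarith)]
              linarith
            · have : 0 ≤ (p : ℝ) ^ η / ((p : ℝ) - 1) :=
                div_nonneg (Real.rpow_nonneg (by positivity) _) (by linarith)
              linarith
          · have h1 := hp2 p hp
            have h2 : (p : ℝ) - 1 ≠ 0 := by linarith
            have h3 : (p : ℝ) ≠ 0 := by linarith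
            have e : (1 - 1 / (p : ℝ)) * (1 + (p : ℝ) ^ η / ((p : ℝ) - 1)) =
                ((p : ℝ) ^ η - 1) / p + 1 := by
              field_simp
              ring
            rw [e]
            exact Real.add_one_le_exp _
      _ = Real.exp (∑ p ∈ P, ((p : ℝ) ^ η - 1) / p) := (Real.exp_sum _ _).symm
      _ ≤ Real.exp 4.2 := Real.exp_le_exp.mpr (h z hz)
  have hYη : Y ^ (-η) = Real.exp (-(2 * u)) := by
    rw [hY, ← Real.rpow_mul hzpos.le, Real.rpow_def_of_pos hzpos]
    congr 1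
    rw [hη]
    field_simp
  have hGG := GG_ge z Y hzpos.le
  have hsplit := Finset.sum_filter_add_sum_filter_not P.powerset
    (fun T => ((∏ p ∈ T, p : ℕ) : ℝ) ≤ Y) w
  have h5 : 1 ≤ VV z * GG z Y + Y ^ (-η) * Real.exp 4.2 := by
    calc (1 : ℝ) = VV z * ∑ T ∈ P.powerset, w T := hfull.symm
      _ = VV z * ∑ T ∈ P.powerset.filter (fun T => ((∏ p ∈ T, p : ℕ) : ℝ) ≤ Y), w T +
          VV z * ∑ T ∈ P.powerset.filter (fun T => ¬ ((∏ p ∈ T, p : ℕ) : ℝ) ≤ Y), w T := by
          rw [← mul_add, hsplit]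
      _ ≤ VV z * GG z Y + VV z * (Y ^ (-η) * ∏ p ∈ P, (1 + (p : ℝ) ^ η / ((p : ℝ) - 1))) :=
          add_le_add (mul_le_mul_of_nonneg_left hGG hV) (mul_le_mul_of_nonneg_left htail hV)
      _ = VV z * GG z Y + Y ^ (-η) * (VV z * ∏ p ∈ P, (1 + (p : ℝ) ^ η / ((p : ℝ) - 1))) := by
          ring
      _ ≤ VV z * GG z Y + Y ^ (-η) * Real.exp 4.2 := by
          gcongr
  have h6 : Y ^ (-η) * Real.exp 4.2 = Real.exp (4.2 - 2 * u) := by
    rw [hYη, ← Real.exp_add]
    congr 1
    ring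
  rw [h6] at h5
  linarith

end Pool.Agent.Helper30.AV
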