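import Pool.Agent.Helper30.AV.Defs

/-!
# Integral specialisations in a residue class
-/

set_option autoImplicit false

namespace Pool.Agent.Helper30.AV

open MvPolynomial

theorem ez_int_cast {r : ℕ} {T : Type*} [CommRing T] (τ : Fin r → ℤ) (D : MvPolynomial (Fin r) ℤ) :
    ez (fun i => (τ i : T)) D = (ez τ D : T) := by
  have h : (ez fun i => (τ i : T)) = (Int.castRingHom T).comp (ez τ) := by
    apply MvPolynomial.ringHom_ext
    · intro c
      simp [ez]
    · intro i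
      simp [ez]
  rw [h]
  rfl

theorem ez_hom {r : ℕ} {T T' : Type*} [CommRing T] [CommRing T'] (φ : T →+* T') (τ : Fin r → T)
    (D : MvPolynomial (Fin r) ℤ) : φ (ez τ D) = ez (fun i => φ (τ i)) D := by
  have h : φ.comp (ez τ) = ez (fun i => φ (τ i)) := by
    apply MvPolynomial.ringHom_ext
    · intro c
      simp [ez]
    · intro i
      simp [ez]
  rw [← h]
  rfl

theorem exists_int_point {r : ℕ} (D : MvPolynomial (Fin r) ℤ) (hD : D ≠ 0) (p : ℕ) [Fact p.Prime]
    (c : Fin r → ZMod p) : ∃ τ : Fin r → ℤ, (∀ i, (τ i : ZMod p) = c i) ∧ ez τ D ≠ 0 := by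
  by_contra hcon
  push Not at hcon
  apply hD
  refine MvPolynomial.funext_set (fun i => {z : ℤ | (z : ZMod p) = c i}) (fun i => ?_) ?_
  · obtain ⟨z, hz⟩ := ZMod.intCast_surjective (c i)
    have h1 : Set.range (fun y : ℤ => z + p * y) ⊆ {z : ℤ | (z : ZMod p) = c i} := by
      rintro _ ⟨y, rfl⟩
      simp [hz]
    refine (Set.infinite_range_of_injective ?_).mono h1
    intro y y' h
    have hp : (p : ℤ) ≠ 0 := by exact_mod_cast (Fact.out : p.Prime).ne_zero
    have h2 : (p : ℤ) * y = p * y' := by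
      have : z + p * y = z + p * y' := h
      linarith
    exact mul_left_cancel₀ hp h2
  · intro τ hτ
    have h1 := hcon τ (fun i => hτ i (Set.mem_univ i))
    rw [map_zero]
    exact h1

theorem exists_spec {r : ℕ} {Δ : MvPolynomial (Fin r) ℤ}
    {g : Polynomial (MvPolynomial (Fin r) ℤ)} {A : Type} [CommRing A] {t : Fin r → A} {θ : A}
    (hA : IsModel Δ g t θ) (p : ℕ) [Fact p.Prime] (ψ₀ : A →+* ZMod p) (h : A) (hh : h ≠ 0) :
    ∃ τ : Fin r → ℤ, (∀ i, (τ i : ZMod p) = ψ₀ (t i)) ∧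
      (∀ (K : Type) [Field K] [CharZero K] (s : A →+* K), (∀ i, s (t i) = τ i) → s h ≠ 0) ∧
      ¬ (p : ℤ) ∣ ez τ Δ := by
  obtain ⟨D, hD, b, hb⟩ := hA.norm h hh
  obtain ⟨τ, hτ, hτD⟩ := exists_int_point D hD p (fun i => ψ₀ (t i))
  refine ⟨τ, hτ, fun K _ _ s hs h0 => ?_, fun hdvd => ?_⟩
  · have h1 := congrArg s hb
    rw [map_mul, h0, zero_mul, ez_hom] at h1
    have h2 : (fun i => s (t i)) = fun i => ((τ i : ℤ) : K) := funext hs
    rw [h2, ez_int_cast] at h1
    exact hτD (by exact_mod_cast h1)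
  · have h1 : IsUnit (ψ₀ (ez t Δ)) := hA.unit.map ψ₀
    rw [ez_hom] at h1
    have h2 : (fun i => ψ₀ (t i)) = fun i => ((τ i : ℤ) : ZMod p) := funext fun i => (hτ i).symm
    rw [h2, ez_int_cast, (ZMod.intCast_zmod_eq_zero_iff_dvd _ _).2 hdvd] at h1
    exact not_isUnit_zero h1

end Pool.Agent.Helper30.AV
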