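import Pool.Agent.Helper30.AV.Spec
import Pool.Agent.Helper30.AV.NoFix
import Pool.Agent.Helper30.AV.Large
import Pool.Agent.Helper30.AV.Core
import Pool.Agent.TP.Frobenius
import Pool.Agent.TP.Roots

/-!
# AV-Spread, part one: everything defined over a Galois number field
-/

set_option autoImplicit false

namespace Pool.Agent.Helper30.AV

open MvPolynomial NumberField
open scoped Pointwise

theorem residue {K : Type} [Field K] [NumberField K] (p : ℕ) [Fact p.Prime] (P : Ideal (𝓞 K))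
    [hP : P.IsPrime] (hpP : (p : 𝓞 K) ∈ P) :
    P.IsMaximal ∧ ∃ (k : Type) (_ : Field k) (π : 𝓞 K →+* k) (_ : ZMod p →+* k),
      ∀ y, π y = 0 ↔ y ∈ P := by
  have hPne : P ≠ ⊥ := by
    rintro rfl
    rw [Ideal.mem_bot] at hpP
    exact (Fact.out : p.Prime).ne_zero (by exact_mod_cast hpP)
  have hmax : P.IsMaximal := hP.isMaximal hPne
  have hcp : CharP (𝓞 K ⧸ P) p := by
    have h1 : ((p : ℕ) : 𝓞 K ⧸ P) = 0 := by
      rw [← map_natCast (Ideal.Quotient.mk P)]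
      exact Ideal.Quotient.eq_zero_iff_mem.2 hpP
    exact (CharP.charP_iff_prime_eq_zero (Fact.out : p.Prime)).2 h1
  exact ⟨hmax, 𝓞 K ⧸ P, Ideal.Quotient.field P, Ideal.Quotient.mk P,
    ZMod.castHom (dvd_refl p) (𝓞 K ⧸ P), fun y => Ideal.Quotient.eq_zero_iff_mem⟩

/-- A Frobenius element at a prime over `p`. -/
theorem exists_frob {K : Type} [Field K] [NumberField K] [IsGalois ℚ K] (p : ℕ) [Fact p.Prime]
    (P : Ideal (𝓞 K)) [hP : P.IsPrime] (hpP : (p : 𝓞 K) ∈ P) :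
    ∃ σ : K ≃ₐ[ℚ] K, ∀ x : 𝓞 K, σ • x - x ^ p ∈ P := by
  have hp : p.Prime := Fact.out
  have hP0 : P ≠ ⊥ := by
    rintro rfl
    rw [Ideal.mem_bot, Nat.cast_eq_zero] at hpP
    exact hp.ne_zero hpP
  have hfin : Finite (𝓞 K ⧸ P) := Ideal.finiteQuotientOfFreeOfNeBot P hP0
  obtain ⟨f, hf⟩ := IsArithFrobAt.exists_of_isInvariant (R := ℤ) (G := K ≃ₐ[ℚ] K) (Q := P)
  have h5 : P.under ℤ = Ideal.span {(p : ℤ)} := by
    have hmax : (Ideal.span {(p : ℤ)}).IsMaximal := by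
      apply PrincipalIdealRing.isMaximal_of_irreducible
      exact (Nat.prime_iff_prime_int.1 hp).irreducible
    symm
    apply hmax.eq_of_le
    · exact Ideal.IsPrime.ne_top inferInstance
    · rw [Ideal.span_singleton_le_iff_mem, Ideal.mem_comap]
      simpa using hpP
  have h6 : Nat.card (ℤ ⧸ P.under ℤ) = p := by
    rw [h5, Nat.card_congr (Int.quotientSpanNatEquivZMod p).toEquiv, Nat.card_zmod]
  refine ⟨f, fun x => ?_⟩
  have h7 := hf x
  rw [h6] at h7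
  exact h7

/-- A simple zero modulo `P` which is congruent to an integer is fixed by the Frobenius. -/
theorem fixed_of_simple {r : ℕ} {Δ : MvPolynomial (Fin r) ℤ}
    {g : Polynomial (MvPolynomial (Fin r) ℤ)}
    (bez : ∃ U V : Polynomial (MvPolynomial (Fin r) ℤ),
      U * g + V * Polynomial.derivative g = Polynomial.C Δ)
    {K : Type} [Field K] [NumberField K] (τ : Fin r → ℤ)
    (x : 𝓞 K) (hx : g.eval₂ (ez fun i => (τ i : 𝓞 K)) x = 0)
    (p : ℕ) [Fact p.Prime] (P : Ideal (𝓞 K)) [P.IsPrime] (hpP : (p : 𝓞 K) ∈ P)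
    (hΔ : ((ez τ Δ : ℤ) : 𝓞 K) ∉ P) (n : ℤ) (hn : (n : 𝓞 K) - x ∈ P)
    (σ : K ≃ₐ[ℚ] K) (hσ : ∀ x : 𝓞 K, σ • x - x ^ p ∈ P) : σ • x = x := by
  set f : Polynomial (𝓞 K) := g.map (ez fun i => (τ i : 𝓞 K)) with hf
  obtain ⟨U, V, hUV⟩ := bez
  have hfx : f.eval x = 0 := by rw [hf, Polynomial.eval_map]; exact hx
  -- the conjugate is a zero
  have hfs : f.eval (σ • x) = 0 := by
    have h1 : (MulSemiringAction.toRingHom (K ≃ₐ[ℚ] K) (𝓞 K) σ).comp (ez fun i => (τ i : 𝓞 K))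
        = ez fun i => (τ i : 𝓞 K) := by
      apply RingHom.ext
      intro q
      rw [RingHom.comp_apply, ez_int_cast, map_intCast]
    have h2 := congrArg (MulSemiringAction.toRingHom (K ≃ₐ[ℚ] K) (𝓞 K) σ) hx
    rw [Polynomial.hom_eval₂, h1, map_zero] at h2
    rw [hf, Polynomial.eval_map]
    exact h2
  have hdiff : σ • x - x ∈ P := by
    have h1 : (n : 𝓞 K) ^ p - x ^ p ∈ P := by
      obtain ⟨c, hc⟩ := sub_dvd_pow_sub_pow (n : 𝓞 K) x p
      rw [hc]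
      exact P.mul_mem_right _ hn
    have h2 : (n : 𝓞 K) ^ p - n ∈ P := by
      have h3 : (p : ℤ) ∣ n ^ p - n := by
        rw [← ZMod.intCast_zmod_eq_zero_iff_dvd]
        push_cast
        rw [ZMod.pow_card, sub_self]
      obtain ⟨c, hc⟩ := h3
      have h4 : (n : 𝓞 K) ^ p - n = (p : 𝓞 K) * (c : 𝓞 K) := by
        have := congrArg (Int.cast : ℤ → 𝓞 K) hc
        push_cast at this
        exact this
      rw [h4]
      exact P.mul_mem_right _ hpP
    have h3 : σ • x - x = (σ • x - x ^ p) - ((n : 𝓞 K) ^ p - x ^ p) + ((n : 𝓞 K) ^ p - n)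
        + ((n : 𝓞 K) - x) := by ring
    rw [h3]
    exact P.add_mem (P.add_mem (P.sub_mem (hσ x) h1) h2) hn
  by_contra hne
  have hne' : σ • x - x ≠ 0 := sub_ne_zero.2 hne
  -- Taylor expansion
  obtain ⟨c₀, hc⟩ := Polynomial.binomExpansion f x (σ • x - x)
  rw [add_sub_cancel, hfs, hfx, zero_add] at hc
  have hder : f.derivative.eval x ∈ P := by
    have h1 : (f.derivative.eval x + c₀ * (σ • x - x)) * (σ • x - x) = 0 := by
      rw [hc]
      ring
    have h2 := (mul_eq_zero.1 h1).resolve_right hne'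
    rw [eq_neg_of_add_eq_zero_left h2]
    exact P.neg_mem (P.mul_mem_left _ hdiff)
  apply hΔ
  have h3 := congrArg (fun q => (q.map (ez fun i => (τ i : 𝓞 K))).eval x) hUV
  simp only [Polynomial.map_add, Polynomial.map_mul, Polynomial.map_C, Polynomial.eval_add,
    Polynomial.eval_mul, Polynomial.eval_C] at h3
  rw [← hf, hfx, mul_zero, zero_add, ← Polynomial.derivative_map, ← hf, ez_int_cast] at h3
  rw [← h3]
  exact P.mul_mem_left _ hder

theorem clear_one {K : Type} [Field K] [NumberField K] {n ι : Type} [Finite ι]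
    (q : ι → MvPolynomial n K) :
    ∃ c : 𝓞 K, c ≠ 0 ∧ ∀ t, ∃ q' : MvPolynomial n (𝓞 K),
      MvPolynomial.map (algebraMap (𝓞 K) K) q' = C (c : K) * q t := by
  classical
  obtain ⟨c, hc⟩ := IsLocalization.exist_integer_multiples_of_finite (nonZeroDivisors (𝓞 K))
    (fun z : (Σ t : ι, (q t).support) => (coeff z.2.1 (q z.1) : K))
  refine ⟨c, nonZeroDivisors.ne_zero c.2, fun t => ?_⟩
  have h1 : ∀ m : (q t).support, ∃ y : 𝓞 K, (y : K) = ((c : 𝓞 K) : K) * coeff m.1 (q t) := by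
    intro m
    obtain ⟨y, hy⟩ := hc ⟨t, m⟩
    refine ⟨y, ?_⟩
    rw [← Algebra.smul_def]
    exact hy
  choose y hy using h1
  refine ⟨∑ m : (q t).support, monomial m.1 (y m), ?_⟩
  conv_rhs => rw [(q t).as_sum, Finset.mul_sum, ← Finset.sum_coe_sort (q t).support]
  rw [map_sum]
  refine Finset.sum_congr rfl fun m _ => ?_
  rw [map_monomial, C_mul_monomial]
  congr 1
  exact hy m

theorem cert_int {K : Type} [Field K] [NumberField K] (d : 𝓞 K) {n : Type}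
    [Fintype n] (H : n × n → MvPolynomial n K) (m : ℕ) (w : Fin m → n → K) (w' : Fin m → n → 𝓞 K)
    (hw' : ∀ b i, (w' b i : K) = d * w b i) (i : n) (κ : Fin m → n × n) (e : ℕ)
    (q : n × n → MvPolynomial n K)
    (h : (X i * ∏ b, (X (κ b).1 * C (w b (κ b).2) - X (κ b).2 * C (w b (κ b).1))) ^ e
        = ∑ t, q t * H t) :
    ∃ (c : 𝓞 K) (q' : n × n → MvPolynomial n (𝓞 K)), c ≠ 0 ∧
      C (c : K) * (X i * ∏ b, (X (κ b).1 * C (w' b (κ b).2 : K)
        - X (κ b).2 * C (w' b (κ b).1 : K))) ^ e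
        = ∑ t, MvPolynomial.map (algebraMap (𝓞 K) K) (q' t) * H t := by
  classical
  obtain ⟨c, hc, hq⟩ := clear_one (fun t => C ((d : K) ^ (m * e)) * q t)
  choose q' hq' using hq
  refine ⟨c, q', hc, ?_⟩
  have h1 : (X i * ∏ b, (X (κ b).1 * C (w' b (κ b).2 : K) - X (κ b).2 * C (w' b (κ b).1 : K))) ^ e
      = C ((d : K) ^ (m * e)) * (X i * ∏ b, (X (κ b).1 * C (w b (κ b).2)
        - X (κ b).2 * C (w b (κ b).1))) ^ e := by
    have h2 : ∀ b : Fin m, (X (κ b).1 * C (w' b (κ b).2 : K) - X (κ b).2 * C (w' b (κ b).1 : K)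
        : MvPolynomial n K)
        = C (d : K) * (X (κ b).1 * C (w b (κ b).2) - X (κ b).2 * C (w b (κ b).1)) := by
      intro b
      rw [hw', hw', C_mul, C_mul]
      ring
    rw [Finset.prod_congr rfl fun b _ => h2 b, Finset.prod_mul_distrib, Finset.prod_const,
      Finset.card_univ, Fintype.card_fin, mul_left_comm, mul_pow, C_pow, pow_mul]
  rw [h1, h, Finset.mul_sum, Finset.mul_sum]
  refine Finset.sum_congr rfl fun t _ => ?_
  rw [hq' t]
  ring

theorem spread_core {r : ℕ} {Δ : MvPolynomial (Fin r) ℤ}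
    {g : Polynomial (MvPolynomial (Fin r) ℤ)} {A : Type} [CommRing A] {t : Fin r → A} {θ : A}
    (hA : IsModel Δ g t θ) {K : Type} [Field K] [NumberField K] [IsGalois ℚ K] (τ : Fin r → ℤ)
    (x : 𝓞 K) (hx : g.eval₂ (ez fun i => (τ i : 𝓞 K)) x = 0)
    (p₀ : ℕ) [Fact p₀.Prime] (P₀ : Ideal (𝓞 K)) [hP₀ : P₀.IsPrime] (hp₀ : (p₀ : 𝓞 K) ∈ P₀)
    (n₀ : ℤ) (hn₀ : (n₀ : 𝓞 K) - x ∈ P₀) (hpΔ : ¬ (p₀ : ℤ) ∣ ez τ Δ)
    (ψ₀ : A →+* ZMod p₀) (hψt : ∀ i, ψ₀ (t i) = τ i) (hψθ : ψ₀ θ = n₀)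
    (s : A →+* K) (hst : ∀ i, s (t i) = τ i) (hsθ : s θ = (x : K))
    {n : Type} [Fintype n] (G : n → MvPolynomial n A) (D : ℕ) (hG : ∀ i, (G i).IsHomogeneous D)
    (l : ℕ) (u : Fin l → n → A)
    (hno : ∀ (a : Fin l) (v : n → ZMod p₀), v ≠ 0 →
      ¬ Par (fun i => eval v (MvPolynomial.map ψ₀ (G i))) (fun i => ψ₀ (u a i)))
    (h : A) (hh : s h ≠ 0) (N : ℕ) (m : Fin l → ℕ) (w : ∀ a, Fin (m a) → n → K)
    (hw : ∀ a b, w a b ≠ 0)
    (hpar : ∀ a b, Par (fun i => eval (w a b) (MvPolynomial.map s (G i))) (fun i => s (u a i)))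
    (hcert : ∀ (a : Fin l) (i : n) (κ : Fin (m a) → n × n), ∃ (e : ℕ)
      (q : n × n → MvPolynomial n K),
      (X i * ∏ b, (X (κ b).1 * C (w a b (κ b).2) - X (κ b).2 * C (w a b (κ b).1))) ^ e
        = ∑ t, q t * MvPolynomial.map s (G t.1 * C (u a t.2) - G t.2 * C (u a t.1))) :
    ∃ (p : ℕ) (_ : Fact p.Prime) (ψ : A →+* ZMod p), N < p ∧ ψ h ≠ 0 ∧
      ∀ (a : Fin l) (v : n → ZMod p), v ≠ 0 →
        ¬ Par (fun i => eval v (MvPolynomial.map ψ (G i))) (fun i => ψ (u a i)) := by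
  classical
  -- scaling to integral vectors
  obtain ⟨d, hd⟩ := IsLocalization.exist_integer_multiples_of_finite (nonZeroDivisors (𝓞 K))
    (fun z : (Σ a : Fin l, Fin (m a) × n) => (w z.1 z.2.1 z.2.2 : K))
  have hd0 : (d : 𝓞 K) ≠ 0 := nonZeroDivisors.ne_zero d.2
  have hdK : ((d : 𝓞 K) : K) ≠ 0 := by
    intro h0
    exact hd0 (RingOfIntegers.ext (by rw [h0]; simp))
  have h1 : ∀ (a : Fin l) (b : Fin (m a)) (i : n), ∃ y : 𝓞 K, (y : K) = (d : 𝓞 K) * w a b i := by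
    intro a b i
    obtain ⟨y, hy⟩ := hd ⟨a, b, i⟩
    refine ⟨y, ?_⟩
    rw [← Algebra.smul_def]
    exact hy
  choose w' hw' using h1
  have h2 : ∀ (a : Fin l) (i : n) (κ : Fin (m a) → n × n), ∃ (c : 𝓞 K) (e : ℕ)
      (q' : n × n → MvPolynomial n (𝓞 K)), c ≠ 0 ∧
      C (c : K) * (X i * ∏ b, (X (κ b).1 * C (w' a b (κ b).2 : K)
        - X (κ b).2 * C (w' a b (κ b).1 : K))) ^ e
        = ∑ t, MvPolynomial.map (algebraMap (𝓞 K) K) (q' t) *
          MvPolynomial.map s (G t.1 * C (u a t.2) - G t.2 * C (u a t.1)) := by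
    intro a i κ
    obtain ⟨e, q, hq⟩ := hcert a i κ
    obtain ⟨c, q', hc, hq'⟩ := cert_int (d : 𝓞 K)
      (fun t => MvPolynomial.map s (G t.1 * C (u a t.2) - G t.2 * C (u a t.1))) (m a) (w a) (w' a)
      (hw' a) i κ e q hq
    exact ⟨c, e, q', hc, hq'⟩
  choose c e q' hc hcert' using h2
  -- the Frobenius at `P₀`
  obtain ⟨hmax₀, k₀, _, π₀, ρ₀, hπ₀⟩ := residue p₀ P₀ hp₀
  obtain ⟨σ, hσ⟩ := exists_frob p₀ P₀ hp₀
  have hΔk : ((ez τ Δ : ℤ) : k₀) ≠ 0 := by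
    intro h0
    apply hpΔ
    rw [← ZMod.intCast_zmod_eq_zero_iff_dvd]
    apply ρ₀.injective
    rw [map_intCast, map_zero, h0]
  have hΔP : ((ez τ Δ : ℤ) : 𝓞 K) ∉ P₀ := by
    rw [← hπ₀, map_intCast]
    exact hΔk
  have hσx : σ • x = x := fixed_of_simple hA.bez τ x hx p₀ P₀ hp₀ hΔP n₀ hn₀ σ hσ
  have hcomp₀ : Compat π₀ s (ρ₀.comp ψ₀) := by
    obtain ⟨s', ψ', h3, hs1, hs2, hp1, hp2⟩ := compat_of_point hA (O := 𝓞 K) (K := K) (k := k₀)
      RingOfIntegers.coe_injective π₀ τ x hx hΔk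
    have e1 : s' = s := hA.ext K s' s (fun i => by rw [hs1, hst]) (by rw [hs2, hsθ])
    have e2 : ψ' = ρ₀.comp ψ₀ := by
      apply hA.ext k₀
      · intro i
        rw [hp1, RingHom.comp_apply, hψt, map_intCast]
      · rw [hp2, RingHom.comp_apply, hψθ, map_intCast]
        have h4 := (hπ₀ _).2 hn₀
        rw [map_sub, map_intCast, sub_eq_zero] at h4
        exact h4.symm
    rw [← e1, ← e2]
    exact h3
  have hminor : ∀ (a : Fin l) (b : Fin (m a)), ∃ i j : n,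
      (σ • w' a b i) * w' a b j - (σ • w' a b j) * w' a b i ≠ 0 := by
    intro a b
    have h3 := no_fix P₀ hmax₀ hp₀ σ (fun x y hxy => by
      have h4 : y = σ • x := by
        apply RingOfIntegers.ext
        exact hxy
      rw [h4]
      exact hσ x) s ψ₀ k₀ π₀ hπ₀ ρ₀ hcomp₀ G D hG (u a) (hno a) (w a b) (hw a b) (hpar a b)
    by_contra hcon
    push Not at hcon
    apply h3
    intro i j
    have h4 := congrArg (algebraMap (𝓞 K) K) (hcon i j)
    rw [map_sub, map_mul, map_mul, map_zero] at h4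
    have h5 : ∀ i, algebraMap (𝓞 K) K (σ • w' a b i) = σ ((d : 𝓞 K) : K) * σ (w a b i) := by
      intro i
      have h6 : algebraMap (𝓞 K) K (σ • w' a b i) = σ (w' a b i : K) := rfl
      rw [h6, hw', map_mul]
    have h6 : ∀ i, algebraMap (𝓞 K) K (w' a b i) = (d : 𝓞 K) * w a b i := hw' a b
    rw [h5, h5, h6, h6] at h4
    have h7 : (σ ((d : 𝓞 K) : K) * ((d : 𝓞 K) : K)) *
        (σ (w a b i) * w a b j - σ (w a b j) * w a b i) = 0 := by
      linear_combination h4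
    have h8 := (mul_eq_zero.1 h7).resolve_left (mul_ne_zero (by
      rw [Ne, map_eq_zero]; exact hdK) hdK)
    exact sub_eq_zero.1 h8
  choose mi mj hmij using hminor
  -- the element `h`
  obtain ⟨dh, hdh⟩ := IsLocalization.exist_integer_multiples_of_finite (nonZeroDivisors (𝓞 K))
    (fun _ : Unit => s h)
  obtain ⟨yh, hyh⟩ := hdh ()
  have hyh' : (yh : K) = (dh : 𝓞 K) * s h := by
    rw [← Algebra.smul_def]
    exact hyh
  have hyh0 : yh ≠ 0 := by
    rintro rfl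
    have h3 : ((dh : 𝓞 K) : K) ≠ 0 := by
      intro h0
      exact nonZeroDivisors.ne_zero dh.2 (RingOfIntegers.ext (by rw [h0]; simp))
    exact mul_ne_zero h3 hh (by rw [← hyh']; simp)
  -- the number whose prime divisors are excluded
  set T : 𝓞 K := (∏ a : Fin l, ∏ b : Fin (m a),
      ((σ • w' a b (mi a b)) * w' a b (mj a b) - (σ • w' a b (mj a b)) * w' a b (mi a b))) *
    (∏ a : Fin l, ∏ i : n, ∏ κ : Fin (m a) → n × n, c a i κ) * ((ez τ Δ : ℤ) : 𝓞 K) * yh with hT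
  have hT0 : T ≠ 0 := by
    refine mul_ne_zero (mul_ne_zero (mul_ne_zero ?_ ?_) ?_) hyh0
    · exact Finset.prod_ne_zero_iff.2 fun a _ => Finset.prod_ne_zero_iff.2 fun b _ => hmij a b
    · exact Finset.prod_ne_zero_iff.2 fun a _ => Finset.prod_ne_zero_iff.2 fun i _ =>
        Finset.prod_ne_zero_iff.2 fun κ _ => hc a i κ
    · intro h0
      exact hΔP (by rw [h0]; exact P₀.zero_mem)
  have hfin := Pool.TP.Roots.finite_mem K T hT0
  obtain ⟨p, ⟨hp, P, hP, hpP, -, hst'⟩, hpB⟩ :=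
    (Pool.TP.frobenius_exists K σ).exists_notMem_finite (hfin.union (Set.finite_le_nat N))
  rw [Set.mem_union, not_or, Set.mem_ofPred_eq, Set.mem_ofPred_eq, not_le] at hpB
  obtain ⟨hpT, hpN⟩ := hpB
  have hfact : Fact p.Prime := ⟨hp⟩
  have hTP : T ∉ P := fun h0 => hpT ⟨hp, P, hP, hpP, h0⟩
  have hf1 : ∀ (a : Fin l) (b : Fin (m a)),
      (σ • w' a b (mi a b)) * w' a b (mj a b) - (σ • w' a b (mj a b)) * w' a b (mi a b) ∉ P := by
    intro a b h0
    apply hTP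
    rw [hT]
    refine P.mul_mem_right _ (P.mul_mem_right _ (P.mul_mem_right _ ?_))
    refine P.mem_of_dvd (Finset.dvd_prod_of_mem _ (Finset.mem_univ a)) ?_
    exact P.mem_of_dvd (Finset.dvd_prod_of_mem _ (Finset.mem_univ b)) h0
  have hf2 : ∀ (a : Fin l) (i : n) (κ : Fin (m a) → n × n), c a i κ ∉ P := by
    intro a i κ h0
    apply hTP
    rw [hT]
    refine P.mul_mem_right _ (P.mul_mem_right _ (P.mul_mem_left _ ?_))
    refine P.mem_of_dvd (Finset.dvd_prod_of_mem _ (Finset.mem_univ a)) ?_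
    refine P.mem_of_dvd (Finset.dvd_prod_of_mem _ (Finset.mem_univ i)) ?_
    exact P.mem_of_dvd (Finset.dvd_prod_of_mem _ (Finset.mem_univ κ)) h0
  have hf3 : ¬ (p : ℤ) ∣ ez τ Δ := by
    rintro ⟨z, hz⟩
    apply hTP
    rw [hT]
    refine P.mul_mem_right _ (P.mul_mem_left _ ?_)
    rw [hz, Int.cast_mul, Int.cast_natCast]
    exact P.mul_mem_right _ hpP
  have hf4 : yh ∉ P := fun h0 => hTP (by rw [hT]; exact P.mul_mem_left _ h0)
  obtain ⟨hmax, k, _, π, ρ, hπ⟩ := residue p P hpP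
  have hσx' : σ (x : K) = x := congrArg (algebraMap (𝓞 K) K) hσx
  obtain ⟨ψ, hψ⟩ := large_prime hA τ x hx s hst hsθ σ hσx' p P hpP hst' hf3 k π hπ ρ
  refine ⟨p, hfact, ψ, hpN, fun h0 => ?_, fun a v hv => ?_⟩
  · have h3 := hψ Unit yh (fun _ => (dh : 𝓞 K)) (fun _ => h) (by simpa using hyh')
    simp only [Finset.univ_unique, Finset.sum_singleton, RingHom.comp_apply, h0, map_zero,
      mul_zero] at h3
    exact hf4 ((hπ _).1 h3)
  · exact core P σ (by rw [hst']; exact Subgroup.mem_zpowers σ) s ψ k π hπ ρ hψ G (u a) (m a)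
      (w' a) (fun i κ => ⟨c a i κ, e a i κ, q' a i κ, hf2 a i κ, hcert' a i κ⟩)
      (fun b => ⟨mi a b, mj a b, hf1 a b⟩) v hv

end Pool.Agent.Helper30.AV
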